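import Pool.Agent.SprH.St

/-!
# SprH, module CNJ: conjugation by `B ∩ v B v⁻¹`
-/

set_option autoImplicit false

open Matrix

namespace Pool.Agent.SprH

open Pool.Agent.SprJ

namespace CNJ_aux

variable {K : Type} [Field K] {n : ℕ}

lemma ut_mul {M N : Matrix (Fin n) (Fin n) K} (hM : UT M) (hN : UT N) : UT (M * N) := by
  intro i j hij
  rw [Matrix.mul_apply]
  refine Finset.sum_eq_zero fun k _ => ?_
  rcases lt_or_ge k i with h | h
  · rw [hM i k h, zero_mul]
  · rw [hN k j (lt_of_lt_of_le hij h), mul_zero]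

lemma borel_mul {M N : Matrix (Fin n) (Fin n) K} (hM : Borel M) (hN : Borel N) :
    Borel (M * N) :=
  ⟨ut_mul hM.1 hN.1, by rw [det_mul]; exact hM.2.mul hN.2⟩

lemma borel_inv {M : Matrix (Fin n) (Fin n) K} (hM : Borel M) : Borel M⁻¹ := by
  have := M.invertibleOfIsUnitDet hM.2
  refine ⟨fun i j hij => ?_, ?_⟩
  · exact blockTriangular_inv_of_blockTriangular (M := M) (b := id)
      (fun i j h => hM.1 i j h) hij
  · rw [Matrix.isUnit_nonsing_inv_det_iff]
    exact hM.2

/-- The entries of `u * g * s` as polynomials in the entries of `g`. -/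
noncomputable def qq (u s : Matrix (Fin n) (Fin n) K) (p : Fin n × Fin n) :
    MvPolynomial (Fin n × Fin n) K :=
  ∑ b, ∑ a, MvPolynomial.C (u p.1 a * s b p.2) * MvPolynomial.X (a, b)

lemma eval_qq (u s g : Matrix (Fin n) (Fin n) K) (p : Fin n × Fin n) :
    MvPolynomial.eval (fun p : Fin n × Fin n => g p.1 p.2) (qq u s p) = (u * g * s) p.1 p.2 := by
  rw [qq, Matrix.mul_apply]
  simp only [map_sum, map_mul, MvPolynomial.eval_C, MvPolynomial.eval_X, Matrix.mul_apply]
  refine Finset.sum_congr rfl fun b _ => ?_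
  rw [Finset.sum_mul]
  refine Finset.sum_congr rfl fun a _ => ?_
  ring

lemma eval_bind (u s g : Matrix (Fin n) (Fin n) K) (P : MvPolynomial (Fin n × Fin n) K) :
    MvPolynomial.eval (fun p : Fin n × Fin n => g p.1 p.2) (MvPolynomial.bind₁ (qq u s) P) =
      MvPolynomial.eval (fun p : Fin n × Fin n => (u * g * s) p.1 p.2) P := by
  have h := MvPolynomial.eval₂Hom_bind₁ (RingHom.id K) (fun p : Fin n × Fin n => g p.1 p.2)
    (qq u s) P
  have h2 : (fun p : Fin n × Fin n => MvPolynomial.eval₂Hom (RingHom.id K)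
      (fun p : Fin n × Fin n => g p.1 p.2) (qq u s p)) =
      fun p : Fin n × Fin n => (u * g * s) p.1 p.2 := by
    funext p
    exact eval_qq u s g p
  rw [h2] at h
  exact h

/-- One direction. -/
lemma dir (X u t : Matrix (Fin n) (Fin n) K) (v w : Equiv.Perm (Fin n)) (hu : Borel u)
    (ht : Borel t) (h : u * perm K v = perm K v * t) (hX : InClosure X v w) :
    InClosure (u * X * u⁻¹) v w := by
  intro P hP
  have huu : u⁻¹ * u = 1 := Matrix.nonsing_inv_mul u hu.2
  have htt : t * t⁻¹ = 1 := Matrix.mul_nonsing_inv t ht.2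
  have h1 := hX (MvPolynomial.bind₁ (qq u t⁻¹) P) fun g hg => by
    rw [eval_bind]
    apply hP
    obtain ⟨⟨b, b', hb, hb', rfl⟩, hs⟩ := hg
    refine ⟨⟨u * b, b' * t⁻¹, borel_mul hu hb, borel_mul hb' (borel_inv ht), ?_⟩, ?_⟩
    · simp only [Matrix.mul_assoc]
    · set g : Matrix (Fin n) (Fin n) K := b * perm K w * b' with hg
      have e1 : (u * g * t⁻¹)⁻¹ * (u * X * u⁻¹) * (u * g * t⁻¹) = t * (g⁻¹ * X * g) * t⁻¹ := by
        rw [Matrix.mul_inv_rev, Matrix.mul_inv_rev, Matrix.nonsing_inv_nonsing_inv t ht.2]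
        calc t * (g⁻¹ * u⁻¹) * (u * X * u⁻¹) * (u * g * t⁻¹)
            = t * g⁻¹ * (u⁻¹ * u) * X * (u⁻¹ * u) * g * t⁻¹ := by
              simp only [Matrix.mul_assoc]
          _ = t * (g⁻¹ * X * g) * t⁻¹ := by
              rw [huu]
              simp only [Matrix.mul_assoc, Matrix.mul_one]
      change UT ((u * g * t⁻¹)⁻¹ * (u * X * u⁻¹) * (u * g * t⁻¹))
      rw [e1]
      exact ut_mul (ut_mul ht.1 hs) (borel_inv ht).1
  rw [eval_bind] at h1
  have e2 : u * perm K v * t⁻¹ = perm K v := by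
    rw [h, Matrix.mul_assoc, htt, Matrix.mul_one]
  rw [e2] at h1
  exact h1

/-- A permutation matrix is invertible. -/
lemma perm_det (v : Equiv.Perm (Fin n)) : IsUnit (perm K v).det := by
  have h : perm K v * (perm K v)ᵀ = 1 := by
    ext i j
    rw [Matrix.mul_apply, Matrix.one_apply]
    simp only [Matrix.transpose_apply, perm, Matrix.of_apply]
    rw [Finset.sum_eq_single (v.symm i)]
    · by_cases hij : i = j
      · subst hij
        simp
      · rw [if_neg hij]
        have : j ≠ v (v.symm i) := by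
          rw [Equiv.apply_symm_apply]
          exact fun h => hij h.symm
        rw [if_neg this, mul_zero]
    · intro k _ hk
      have : i ≠ v k := fun h => hk (by rw [h, Equiv.symm_apply_apply])
      rw [if_neg this, zero_mul]
    · intro h
      exact absurd (Finset.mem_univ _) h
  have h2 := congrArg Matrix.det h
  rw [det_mul, det_one] at h2
  exact IsUnit.of_mul_eq_one _ h2

end CNJ_aux

open CNJ_aux in
theorem t_CNJ : S_CNJ := by
  intro K _ n X u v w hu ht
  set t : Matrix (Fin n) (Fin n) K := (perm K v)⁻¹ * u * perm K v with htdef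
  have hv : perm K v * (perm K v)⁻¹ = 1 := Matrix.mul_nonsing_inv _ (perm_det v)
  have h1 : u * perm K v = perm K v * t := by
    rw [htdef, Matrix.mul_assoc (perm K v)⁻¹, ← Matrix.mul_assoc (perm K v), hv, Matrix.one_mul]
  have huu : u⁻¹ * u = 1 := Matrix.nonsing_inv_mul u hu.2
  have huu' : u * u⁻¹ = 1 := Matrix.mul_nonsing_inv u hu.2
  have htt : t * t⁻¹ = 1 := Matrix.mul_nonsing_inv t ht.2
  constructor
  · intro h
    have h2 : u⁻¹ * perm K v = perm K v * t⁻¹ := by
      calc u⁻¹ * perm K v = u⁻¹ * (perm K v * (t * t⁻¹)) := by rw [htt, Matrix.mul_one]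
        _ = u⁻¹ * ((perm K v * t) * t⁻¹) := by rw [Matrix.mul_assoc (perm K v)]
        _ = u⁻¹ * (u * perm K v * t⁻¹) := by rw [h1]
        _ = (u⁻¹ * u) * perm K v * t⁻¹ := by simp only [Matrix.mul_assoc]
        _ = perm K v * t⁻¹ := by rw [huu, Matrix.one_mul]
    have h3 := dir (u * X * u⁻¹) u⁻¹ t⁻¹ v w (borel_inv hu) (borel_inv ht) h2 h
    have h4 : u⁻¹ * (u * X * u⁻¹) * u⁻¹⁻¹ = X := by
      rw [Matrix.nonsing_inv_nonsing_inv u hu.2]
      calc u⁻¹ * (u * X * u⁻¹) * u = (u⁻¹ * u) * X * (u⁻¹ * u) := by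
            simp only [Matrix.mul_assoc]
        _ = X := by rw [huu, Matrix.one_mul, Matrix.mul_one]
    rwa [h4] at h3
  · intro h
    exact dir X u t v w hu ht h1 h

end Pool.Agent.SprH
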