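import Pool.Agent.SprH.St

/-!
# COM: common parameters
-/

set_option autoImplicit false

namespace Pool.Agent.SprH

namespace COM

variable {R S : Type} [CommRing R] [CommRing S] {n m : ℕ}

theorem hv_map (φ : R →+* S) (e : Fin m → Fin n) (π : Par n → R) (f r : Fin n) :
    hv e (fun q => φ (π q)) f r = φ (hv e π f r) := by
  unfold hv
  split_ifs <;> simp

theorem gm_map (φ : R →+* S) (e : Fin m → Fin n) (w : Equiv.Perm (Fin n)) (c : ℕ → ℕ)
    (π : Par n → R) (r p : Fin n) :
    gm e w c (fun q => φ (π q)) r p = φ (gm e w c π r p) := by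
  classical
  unfold gm
  simp only [Matrix.of_apply]
  split_ifs with h1 h2
  · rw [map_add, map_sum, hv_map]
    congr 1
    refine Finset.sum_congr rfl fun j _ => ?_
    split_ifs <;> simp
  · rw [map_add, map_sum, map_one]
    congr 1
    refine Finset.sum_congr rfl fun j _ => ?_
    rw [hv_map]
    split_ifs <;> simp
  · rw [map_add, map_sum, map_zero]
    congr 1
    refine Finset.sum_congr rfl fun j _ => ?_
    rw [hv_map]
    split_ifs <;> simp

theorem mn_map (φ : R →+* S) (v : Equiv.Perm (Fin n)) (g : Matrix (Fin n) (Fin n) R) (i : ℕ) :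
    mn v (fun r p => φ (g r p)) i = φ (mn v g i) := by
  unfold mn
  rw [RingHom.map_det]
  rfl

end COM

theorem t_COM : S_COM := by
  classical
  intro K _ _ n m e v w c h
  let G : Matrix (Fin n) (Fin n) (MvPolynomial (Par n) K) := gm e w c MvPolynomial.X
  have hev : ∀ (π : Par n → K) (i : ℕ), MvPolynomial.eval π (mn v G i) = mn v (gm e w c π) i := by
    intro π i
    rw [← COM.mn_map (MvPolynomial.eval π)]
    congr 1
    funext r p
    have h1 := COM.gm_map (MvPolynomial.eval π) e w c MvPolynomial.X r p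
    simp only [MvPolynomial.eval_X] at h1
    exact h1.symm
  have hne : (∏ i ∈ Finset.range (n + 1), mn v G i) ≠ 0 := by
    rw [Finset.prod_ne_zero_iff]
    intro i hi h0
    obtain ⟨π, hπ⟩ := h i (Nat.lt_succ_iff.1 (Finset.mem_range.1 hi))
    apply hπ
    rw [← hev, h0, map_zero]
  have hex : ∃ π : Par n → K, MvPolynomial.eval π (∏ i ∈ Finset.range (n + 1), mn v G i) ≠ 0 := by
    by_contra hcon
    push Not at hcon
    exact hne (MvPolynomial.funext fun π => by rw [hcon π, map_zero])
  obtain ⟨π, hπ⟩ := hex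
  refine ⟨π, fun i hi => ?_⟩
  rw [map_prod, Finset.prod_ne_zero_iff] at hπ
  rw [← hev]
  exact hπ i (Finset.mem_range.2 (Nat.lt_succ_of_le hi))

end Pool.Agent.SprH
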