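import Pool.Agent.SprH.St

/-!
# CUT: the cuts of a flag in the Springer fibre (MP_3a0658_ag)
-/

set_option autoImplicit false

open Matrix

namespace Pool.Agent.SprH

open Pool.Agent.SprJ

namespace CUT_aux

variable {K : Type} [Field K] {n m : ℕ} {X : Matrix (Fin n) (Fin n) K} {e : Fin m → Fin n}

theorem mv (hH : Hook X e) (u : Fin n → K) (r : Fin n) :
    (X *ᵥ u) r = ∑ j : Fin m, X r (e j) * u (e j) := by
  classical
  have h1 : (X *ᵥ u) r = ∑ x, X r x * u x := rfl
  rw [h1, ← Finset.sum_subset (Finset.subset_univ (Finset.univ.image e))]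
  · rw [Finset.sum_image]
    intro a _ b _ hab
    exact hH.inj hab
  · intro x _ hx
    have h2 : ∀ j, x ≠ e j := by
      intro j hj
      exact hx (Finset.mem_image.2 ⟨j, Finset.mem_univ _, hj.symm⟩)
    rw [hH.out x h2 r, zero_mul]

theorem supp (hH : Hook X e) (u : Fin n → K) (l : Fin m) (hl : ∀ j, l < j → u (e j) = 0)
    (r : Fin n) (hr : (X *ᵥ u) r ≠ 0) : ∃ l' : Fin m, l' < l ∧ r = e l' := by
  rw [mv hH] at hr
  obtain ⟨j, _, hj⟩ := Finset.exists_ne_zero_of_sum_ne_zero hr
  obtain ⟨l', h1, h2⟩ := hH.low j r (left_ne_zero_of_mul hj)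
  refine ⟨l', lt_of_lt_of_le h1 ?_, h2⟩
  by_contra hcon
  push Not at hcon
  exact right_ne_zero_of_mul hj (hl j hcon)

theorem lead (hH : Hook X e) (u : Fin n → K) (l : Fin m) (hl : ∀ j, l < j → u (e j) = 0)
    (i : Fin m) (hi : (i : ℕ) + 1 = l) : (X *ᵥ u) (e i) = X (e i) (e l) * u (e l) := by
  rw [mv hH, Finset.sum_eq_single l]
  · intro j _ hj
    rcases lt_or_gt_of_ne hj with h1 | h1
    · have h2 : X (e i) (e j) = 0 := by
        by_contra h3
        obtain ⟨l', h4, h5⟩ := hH.low j (e i) h3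
        have h6 := hH.inj h5
        rw [← h6] at h4
        have h7 : (i : ℕ) < j := h4
        have h8 : (j : ℕ) < l := h1
        omega
      rw [h2, zero_mul]
    · rw [hl j h1, mul_zero]
  · intro h
    exact absurd (Finset.mem_univ l) h

theorem tri (hH : Hook X e) (W : Submodule K (Fin n → K)) (hW : ∀ x ∈ W, X *ᵥ x ∈ W) :
    ∀ (l : ℕ), l ≤ m → ∀ w ∈ W, (∀ r, w r ≠ 0 → ∃ l' : Fin m, (l' : ℕ) < l ∧ r = e l') →
      (∀ i : Fin m, (i : ℕ) + 1 = l → w (e i) ≠ 0) →
      ∀ l' : Fin m, (l' : ℕ) < l → Pi.single (e l') 1 ∈ W := by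
  classical
  intro l
  induction l with
  | zero =>
    intro _ w _ _ _ l' hl'
    omega
  | succ l ih =>
    intro hlm w hwW hw1 hw2
    obtain ⟨i0, hi0⟩ : ∃ i0 : Fin m, (i0 : ℕ) = l := ⟨⟨l, by omega⟩, rfl⟩
    have hnz : w (e i0) ≠ 0 := hw2 i0 (by omega)
    have hup : ∀ j, i0 < j → w (e j) = 0 := by
      intro j hj
      by_contra h1
      obtain ⟨l', h2, h3⟩ := hw1 _ h1
      have h4 := hH.inj h3
      have h5 : (i0 : ℕ) < j := hj
      rw [h4] at h5
      omega
    have hlow : ∀ l' : Fin m, (l' : ℕ) < l → Pi.single (e l') 1 ∈ W := by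
      refine ih (by omega) (X *ᵥ w) (hW w hwW) ?_ ?_
      · intro r hr
        obtain ⟨l', h1, h2⟩ := supp hH w i0 hup r hr
        exact ⟨l', by have : (l' : ℕ) < i0 := h1; omega, h2⟩
      · intro i hi
        rw [lead hH w i0 hup i (by omega)]
        exact mul_ne_zero (hH.nz i i0 (by omega)) hnz
    intro l' hl'
    rcases Nat.lt_or_ge (l' : ℕ) l with h1 | h1
    · exact hlow l' h1
    · have h2 : l' = i0 := Fin.ext (by omega)
      rw [h2]
      have hsum : ∑ j : Fin m, w (e j) • (Pi.single (e j) (1 : K) : Fin n → K) = w := by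
        funext r
        rw [Finset.sum_apply]
        by_cases hr : ∃ k, r = e k
        · obtain ⟨k, rfl⟩ := hr
          rw [Finset.sum_eq_single k]
          · simp
          · intro j _ hj
            rw [Pi.smul_apply, Pi.single_eq_of_ne (fun h3 => hj (hH.inj h3).symm), smul_zero]
          · intro h
            exact absurd (Finset.mem_univ k) h
        · have h3 : w r = 0 := by
            by_contra h4
            obtain ⟨k, _, h5⟩ := hw1 r h4
            exact hr ⟨k, h5⟩
          rw [h3]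
          refine Finset.sum_eq_zero fun j _ => ?_
          rw [Pi.smul_apply, Pi.single_eq_of_ne (fun h4 => hr ⟨j, h4⟩), smul_zero]
      have h3 : w (e i0) • (Pi.single (e i0) (1 : K) : Fin n → K) =
          w - ∑ j ∈ Finset.univ.erase i0, w (e j) • (Pi.single (e j) (1 : K) : Fin n → K) := by
        have h4 := Finset.add_sum_erase Finset.univ
          (fun j : Fin m => w (e j) • (Pi.single (e j) (1 : K) : Fin n → K)) (Finset.mem_univ i0)
        rw [hsum] at h4
        rw [eq_sub_iff_add_eq]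
        exact h4
      have h4 : w (e i0) • (Pi.single (e i0) (1 : K) : Fin n → K) ∈ W := by
        rw [h3]
        refine W.sub_mem hwW (W.sum_mem fun j hj => ?_)
        have h5 : j ≠ i0 := Finset.ne_of_mem_erase hj
        rcases lt_or_gt_of_ne h5 with h6 | h6
        · exact W.smul_mem _ (hlow j (by have : (j : ℕ) < i0 := h6; omega))
        · rw [hup j h6, zero_smul]
          exact W.zero_mem
      have h6 := W.smul_mem (w (e i0))⁻¹ h4
      rwa [smul_smul, inv_mul_cancel₀ hnz, one_smul] at h6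

/-- the last index -/
theorem exists_last (u : Fin n → K) (l : Fin m) (hl : u (e l) ≠ 0) :
    ∃ l₁ : Fin m, l ≤ l₁ ∧ u (e l₁) ≠ 0 ∧ ∀ j, l₁ < j → u (e j) = 0 := by
  classical
  let S : Finset (Fin m) := Finset.univ.filter fun j => u (e j) ≠ 0
  have hS : S.Nonempty := ⟨l, Finset.mem_filter.2 ⟨Finset.mem_univ _, hl⟩⟩
  refine ⟨S.max' hS, S.le_max' l (Finset.mem_filter.2 ⟨Finset.mem_univ _, hl⟩),
    (Finset.mem_filter.1 (S.max'_mem hS)).2, ?_⟩
  intro j hj
  by_contra h1
  exact absurd (S.le_max' j (Finset.mem_filter.2 ⟨Finset.mem_univ _, h1⟩)) (not_le.2 hj)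

end CUT_aux

open CUT_aux in
theorem t_CUT : M_CUT := by
  classical
  intro hFLD hSTB K _ n m X g e hH hX hg hXg
  obtain ⟨_, hmono, _, htop, hbot, _⟩ := hFLD K n g hg
  obtain ⟨hst1, hst2⟩ := hSTB K n X g hg
  have hst := hst1.1 hXg
  have hst2 := hst2 hX hXg
  let P : ℕ → ℕ → Prop := fun j i => ∀ x ∈ Fl g i, ∀ l : Fin m, j ≤ (l : ℕ) → x (e l) = 0
  let c : ℕ → ℕ := fun j => if j = 0 then 0 else if m ≤ j then n else Nat.findGreatest (P j) n
  have hm := hH.pos
  have hc0 : c 0 = 0 := if_pos rfl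
  have hcm : c m = n := by
    show (if m = 0 then 0 else if m ≤ m then n else Nat.findGreatest (P m) n) = n
    rw [if_neg (by omega), if_pos le_rfl]
  refine ⟨c, hc0, hcm, ?_⟩
  intro j l hj
  rcases Nat.eq_zero_or_pos j with rfl | hj0
  · refine ⟨fun h => absurd h (Nat.not_lt_zero _), fun _ x hx => ?_⟩
    rw [hc0, hbot, Submodule.mem_bot] at hx
    rw [hx]
    rfl
  rcases Nat.lt_or_ge j m with hjm | hjm
  · have hcj : c j = Nat.findGreatest (P j) n := by
      show (if j = 0 then 0 else if m ≤ j then n else Nat.findGreatest (P j) n) = _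
      rw [if_neg (by omega), if_neg (by omega)]
    have hP0 : P j 0 := by
      intro x hx l _
      rw [hbot, Submodule.mem_bot] at hx
      rw [hx]
      rfl
    have hPc : P j (c j) := by
      rw [hcj]
      exact Nat.findGreatest_spec (Nat.zero_le n) hP0
    have hcn : c j ≤ n := by
      rw [hcj]
      exact Nat.findGreatest_le n
    have hcn' : c j < n := by
      rcases Nat.lt_or_ge (c j) n with h1 | h1
      · exact h1
      · exfalso
        have h2 := hPc (Pi.single (e ⟨j, hjm⟩) 1) (by rw [htop _ h1]; trivial) ⟨j, hjm⟩ le_rfl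
        rw [Pi.single_eq_same] at h2
        exact one_ne_zero h2
    have hnP : ¬ P j (c j + 1) := by
      have h1 : Nat.findGreatest (P j) n < c j + 1 := by rw [← hcj]; omega
      exact Nat.findGreatest_is_greatest h1 hcn'
    have hex : ∃ u ∈ Fl g (c j + 1), ∃ l : Fin m, j ≤ (l : ℕ) ∧ u (e l) ≠ 0 := by
      by_contra hcon
      push Not at hcon
      exact hnP hcon
    obtain ⟨u, hu, l₀, hjl₀, hul₀⟩ := hex
    obtain ⟨l₁, hl₀₁, hul₁, hlast⟩ := exists_last u l₀ hul₀
    have hjl₁ : j ≤ (l₁ : ℕ) := by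
      have : (l₀ : ℕ) ≤ l₁ := hl₀₁
      omega
    have hE : ∀ l' : Fin m, (l' : ℕ) < l₁ → Pi.single (e l') 1 ∈ Fl g (c j) := by
      refine tri hH (Fl g (c j)) (hst (c j)) l₁ l₁.2.le (X *ᵥ u) (hst2 (c j) u hu) ?_ ?_
      · intro r hr
        obtain ⟨l', h1, h2⟩ := supp hH u l₁ hlast r hr
        exact ⟨l', h1, h2⟩
      · intro i hi
        rw [lead hH u l₁ hlast i hi]
        exact mul_ne_zero (hH.nz i l₁ hi) hul₁
    have hl₁j : (l₁ : ℕ) = j := by
      rcases Nat.lt_or_ge j (l₁ : ℕ) with h1 | h1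
      · exfalso
        have h3 := hE ⟨j, hjm⟩ h1
        have h4 := hPc _ h3 ⟨j, hjm⟩ le_rfl
        rw [Pi.single_eq_same] at h4
        exact one_ne_zero h4
      · omega
    refine ⟨fun h => hE l (by omega), fun h x hx => hPc x hx l h⟩
  · have hjm' : j = m := le_antisymm hj hjm
    subst hjm'
    rw [hcm]
    refine ⟨fun _ => by rw [htop n le_rfl]; trivial, fun h => absurd l.2 (by omega)⟩

end Pool.Agent.SprH
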