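import Pool.Agent.SprH.St

/-!
# CZS: flags with cuts are in the Springer fibre
-/

set_option autoImplicit false

open Matrix

namespace Pool.Agent.SprH

open Pool.Agent.SprJ

theorem t_CZS : M_CZS := by
  classical
  intro hFLD hSTB K _ n m X g e c hH hg hZ
  obtain ⟨-, hmono, -, htop, -, -, -, -⟩ := hFLD K n g hg
  rw [(hSTB K n X g hg).1]
  obtain ⟨h0, hm, hc⟩ := hZ
  intro i x hx
  by_cases hi : n ≤ i
  · rw [htop i hi]
    exact Submodule.mem_top
  push Not at hi
  -- the last `j` with `c j ≤ i`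
  have hex : ∃ j, j < m ∧ c j ≤ i ∧ i < c (j + 1) := by
    have h1 : ∃ j, i < c j := ⟨m, by omega⟩
    have h2 := Nat.find_spec h1
    have h3 : ∀ k, k < Nat.find h1 → ¬ i < c k := fun k hk => Nat.find_min h1 hk
    have h4 : Nat.find h1 ≤ m := Nat.find_min' h1 (by omega)
    have h5 : Nat.find h1 ≠ 0 := by
      intro h
      rw [h, h0] at h2
      omega
    obtain ⟨j, hj⟩ := Nat.exists_eq_succ_of_ne_zero h5
    refine ⟨j, by omega, ?_, ?_⟩
    · have := h3 j (by omega)
      omega
    · rw [hj] at h2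
      exact h2
  obtain ⟨j, hjm, hj1, hj2⟩ := hex
  have hx2 : x ∈ Fl g (c (j + 1)) := hmono _ _ hj2.le hx
  have hxe : ∀ l : Fin m, j + 1 ≤ (l : ℕ) → x (e l) = 0 := fun l hl =>
    (hc (j + 1) l (by omega)).2 hl x hx2
  have hE : ∀ l : Fin m, (l : ℕ) < j → (Pi.single (e l) 1 : Fin n → K) ∈ Fl g i := fun l hl =>
    hmono _ _ hj1 ((hc j l (by omega)).1 hl)
  have hX : X *ᵥ x = ∑ r, (X *ᵥ x) r • (Pi.single r 1 : Fin n → K) := by
    funext r
    rw [Finset.sum_apply, Finset.sum_eq_single r]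
    · simp
    · intro b _ hb
      simp [Pi.single_eq_of_ne (Ne.symm hb)]
    · intro h
      exact absurd (Finset.mem_univ _) h
  rw [hX]
  refine Submodule.sum_mem _ fun r _ => ?_
  by_cases hr : (X *ᵥ x) r = 0
  · rw [hr, zero_smul]
    exact Submodule.zero_mem _
  · have h1 : ∃ s, X r s * x s ≠ 0 := by
      by_contra hcon
      push Not at hcon
      apply hr
      rw [Matrix.mulVec, dotProduct]
      exact Finset.sum_eq_zero fun s _ => hcon s
    obtain ⟨s, hs⟩ := h1
    have hs1 : X r s ≠ 0 := left_ne_zero_of_mul hs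
    have hs2 : x s ≠ 0 := right_ne_zero_of_mul hs
    by_cases hse : ∀ l, s ≠ e l
    · exact absurd (hH.out s hse r) hs1
    · push Not at hse
      obtain ⟨l, rfl⟩ := hse
      obtain ⟨l', hl', rfl⟩ := hH.low l r hs1
      have hl : (l : ℕ) ≤ j := by
        by_contra hcon
        push Not at hcon
        exact hs2 (hxe l hcon)
      refine Submodule.smul_mem _ _ (hE l' ?_)
      have : (l' : ℕ) < (l : ℕ) := hl'
      omega

end Pool.Agent.SprH
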