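import Pool.Agent.SprH.St

/-!
# SprH_EIJ: torus-stable Springer fibre: `E_ij` preserves all stable subspaces
-/

set_option autoImplicit false

open Matrix

namespace Pool.Agent.SprH

open Pool.Agent.SprJ

namespace EIJ

theorem two_le {p q : ℕ} (h : p < q) : 2 * 2 ^ p ≤ 2 ^ q := by
  rw [← pow_succ']
  exact Nat.pow_le_pow_right (by norm_num) h

theorem uniq {i j i' j' : ℕ} (hij : i ≠ j) (h : 2 ^ j + 2 ^ i' = 2 ^ j' + 2 ^ i) :
    i = i' ∧ j = j' := by
  have pj : 0 < 2 ^ j := by positivity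
  have pj' : 0 < 2 ^ j' := by positivity
  have pi : 0 < 2 ^ i := by positivity
  have pi' : 0 < 2 ^ i' := by positivity
  have mono : ∀ {p q : ℕ}, 2 ^ p < 2 ^ q → p < q := fun {p q} hpq =>
    (Nat.pow_lt_pow_iff_right (by norm_num)).1 hpq
  rcases lt_trichotomy j j' with h1 | h1 | h1
  · exfalso
    have a1 := two_le h1
    have h2 : j < i' := mono (by omega)
    have h3 : i < i' := mono (by omega)
    have a2 := two_le h2
    have a3 := two_le h3
    rcases lt_trichotomy i' j' with h4 | h4 | h4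
    · have a4 := two_le h4
      omega
    · subst h4
      have h5 : 2 ^ j = 2 ^ i := by omega
      exact hij (Nat.pow_right_injective (le_refl 2) h5).symm
    · have a4 := two_le h4
      omega
  · subst h1
    refine ⟨?_, rfl⟩
    have h5 : 2 ^ i' = 2 ^ i := by omega
    exact (Nat.pow_right_injective (le_refl 2) h5).symm
  · exfalso
    have a1 := two_le h1
    have h2 : j' < i := mono (by omega)
    have h3 : i' < i := mono (by omega)
    have a2 := two_le h2
    have a3 := two_le h3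
    rcases lt_trichotomy i j with h4 | h4 | h4
    · have a4 := two_le h4
      omega
    · exact hij h4
    · have a4 := two_le h4
      omega

variable {K : Type} [Field K] {n : ℕ}

theorem fl_mul (D g : Matrix (Fin n) (Fin n) K) (i : ℕ) :
    Fl (D * g) i = Submodule.map (Matrix.mulVecLin D) (Fl g i) := by
  unfold Fl
  rw [Matrix.mulVecLin_mul, Submodule.map_comp]

theorem stepA (hSTB : S_STB) (hFLG : S_FLG) {X : Matrix (Fin n) (Fin n) K} (hN : IsNilpotent X)
    (hT : TStable X) {U : Submodule K (Fin n → K)} (hU : ∀ x ∈ U, X *ᵥ x ∈ U) {d : Fin n → K}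
    (hd : ∀ i, d i ≠ 0) {x : Fin n → K} (hx : x ∈ U) :
    ∃ y ∈ U, diagonal d *ᵥ y = X *ᵥ (diagonal d *ᵥ x) := by
  obtain ⟨g, hg, hS, hFl⟩ := hFLG K n X U hN hU
  have h1 := hT d hd g hg hS
  have hdet : IsUnit (diagonal d * g).det := by
    rw [det_mul, det_diagonal]
    exact (isUnit_iff_ne_zero.2 (Finset.prod_ne_zero_iff.2 fun i _ => hd i)).mul hg
  have h2 := (hSTB K n X (diagonal d * g) hdet).1.1 h1 (Module.finrank K U)
    (diagonal d *ᵥ x) (by
      rw [fl_mul, hFl]
      exact ⟨x, hx, rfl⟩)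
  rw [fl_mul, hFl] at h2
  obtain ⟨y, hy, hy2⟩ := h2
  exact ⟨y, hy, hy2⟩

/-- the coefficients of the curve -/
def ff (X : Matrix (Fin n) (Fin n) K) (x : Fin n → K) (k : ℕ) (i : Fin n) : K :=
  ∑ j : Fin n, if 2 ^ n + 2 ^ (j : ℕ) = k + 2 ^ (i : ℕ) then X i j * x j else 0

theorem pow_le (i : Fin n) : 2 ^ (i : ℕ) ≤ 2 ^ n := Nat.pow_le_pow_right (by norm_num) i.2.le

theorem pos2 (k : ℕ) : 0 < 2 ^ k := by positivity

theorem ff_mem [Infinite K] (hSTB : S_STB) (hFLG : S_FLG) (hVAN : S_VAN)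
    {X : Matrix (Fin n) (Fin n) K} (hN : IsNilpotent X)
    (hT : TStable X) {U : Submodule K (Fin n → K)} (hU : ∀ x ∈ U, X *ᵥ x ∈ U)
    {x : Fin n → K} (hx : x ∈ U) (k : ℕ) (hk : k ≤ 2 ^ n + 2 ^ n) : ff X x k ∈ U := by
  refine hVAN K n (2 ^ n + 2 ^ n) U (ff X x) (fun s hs => ?_) k hk
  obtain ⟨y, hy, hy2⟩ := stepA hSTB hFLG hN hT hU (d := fun l : Fin n => s ^ (2 ^ (l : ℕ)))
    (fun l => pow_ne_zero _ hs) hx
  have key : ∑ k ∈ Finset.range (2 ^ n + 2 ^ n + 1), s ^ k • ff X x k = s ^ (2 ^ n) • y := by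
    funext i
    have h1 := congrFun hy2 i
    rw [mulVec_diagonal] at h1
    have h2 : (X *ᵥ (diagonal (fun l : Fin n => s ^ (2 ^ (l : ℕ))) *ᵥ x)) i =
        ∑ j : Fin n, X i j * (s ^ (2 ^ (j : ℕ)) * x j) := by
      rw [mulVec, dotProduct]
      exact Finset.sum_congr rfl fun j _ => by rw [mulVec_diagonal]
    rw [h2] at h1
    rw [Finset.sum_apply, Pi.smul_apply, smul_eq_mul]
    apply mul_left_cancel₀ (pow_ne_zero (2 ^ (i : ℕ)) hs)
    have h3 : s ^ 2 ^ (i : ℕ) * (s ^ 2 ^ n * y i) = s ^ 2 ^ n * (s ^ 2 ^ (i : ℕ) * y i) := by ring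
    rw [h3, h1, Finset.mul_sum, Finset.mul_sum]
    have h4 : ∀ k ∈ Finset.range (2 ^ n + 2 ^ n + 1), s ^ 2 ^ (i : ℕ) * (s ^ k • ff X x k) i =
        ∑ j : Fin n, if 2 ^ n + 2 ^ (j : ℕ) = k + 2 ^ (i : ℕ) then
          s ^ 2 ^ n * (X i j * (s ^ 2 ^ (j : ℕ) * x j)) else 0 := by
      intro k _
      rw [Pi.smul_apply, smul_eq_mul]
      unfold ff
      rw [Finset.mul_sum, Finset.mul_sum]
      refine Finset.sum_congr rfl fun j _ => ?_
      split_ifs with h5
      · have h6 : s ^ 2 ^ (i : ℕ) * s ^ k = s ^ 2 ^ n * s ^ 2 ^ (j : ℕ) := by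
          rw [← pow_add, ← pow_add, h5, add_comm]
        calc s ^ 2 ^ (i : ℕ) * (s ^ k * (X i j * x j)) =
              (s ^ 2 ^ (i : ℕ) * s ^ k) * (X i j * x j) := by ring
          _ = _ := by
              rw [h6]
              ring
      · rw [mul_zero, mul_zero]
    rw [Finset.sum_congr rfl h4, Finset.sum_comm]
    refine Finset.sum_congr rfl fun j _ => ?_
    have hi := pow_le i
    have hj := pow_le j
    have hi' := pos2 (i : ℕ)
    have hj' := pos2 (j : ℕ)
    rw [Finset.sum_eq_single (2 ^ n + 2 ^ (j : ℕ) - 2 ^ (i : ℕ))]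
    · rw [if_pos (by omega)]
    · intro k _ hk
      rw [if_neg (by omega)]
    · intro hk
      exact absurd (Finset.mem_range.2 (by omega)) hk
  rw [key]
  exact U.smul_mem _ hy

theorem ff_eq {X : Matrix (Fin n) (Fin n) K} {x : Fin n → K} {i j : Fin n} (hij : i ≠ j) :
    ff X x (2 ^ n + 2 ^ (j : ℕ) - 2 ^ (i : ℕ)) = (X i j * x j) • Pi.single i 1 := by
  have hi := pow_le i
  have hi' := pos2 (i : ℕ)
  have hj' := pos2 (j : ℕ)
  have hne : (i : ℕ) ≠ (j : ℕ) := fun h => hij (Fin.ext h)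
  funext a
  unfold ff
  rw [Pi.smul_apply, smul_eq_mul]
  by_cases ha : a = i
  · subst ha
    rw [Pi.single_eq_same, mul_one, Finset.sum_eq_single j]
    · rw [if_pos (by omega)]
    · intro b _ hb
      rw [if_neg]
      intro h
      have hb' := pos2 (b : ℕ)
      have h1 : 2 ^ (b : ℕ) = 2 ^ (j : ℕ) := by omega
      exact hb (Fin.ext (Nat.pow_right_injective (le_refl 2) h1))
    · intro h
      exact absurd (Finset.mem_univ _) h
  · rw [Pi.single_eq_of_ne ha, mul_zero]
    refine Finset.sum_eq_zero fun b _ => ?_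
    rw [if_neg]
    intro h
    have hb' := pos2 (b : ℕ)
    have ha' := pos2 (a : ℕ)
    have h1 : 2 ^ (j : ℕ) + 2 ^ (a : ℕ) = 2 ^ (b : ℕ) + 2 ^ (i : ℕ) := by omega
    exact ha (Fin.ext (uniq hne h1).1.symm)

theorem off [Infinite K] (hSTB : S_STB) (hFLG : S_FLG) (hVAN : S_VAN)
    {X : Matrix (Fin n) (Fin n) K} (hN : IsNilpotent X)
    (hT : TStable X) {U : Submodule K (Fin n → K)} (hU : ∀ x ∈ U, X *ᵥ x ∈ U)
    {x : Fin n → K} (hx : x ∈ U) {i j : Fin n} (hij : i ≠ j) (hX : X i j ≠ 0) (hxj : x j ≠ 0) :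
    (Pi.single i 1 : Fin n → K) ∈ U := by
  have hj := pow_le j
  have hi' := pos2 (i : ℕ)
  have hn' := pos2 n
  have h1 := ff_mem hSTB hFLG hVAN hN hT hU hx (2 ^ n + 2 ^ (j : ℕ) - 2 ^ (i : ℕ)) (by omega)
  rw [ff_eq hij] at h1
  exact (U.smul_mem_iff (mul_ne_zero hX hxj)).1 h1

theorem single_mulVec' (i j : Fin n) (x : Fin n → K) :
    Matrix.single i j (1 : K) *ᵥ x = x j • (Pi.single i 1 : Fin n → K) := by
  funext a
  rw [mulVec, dotProduct, Pi.smul_apply, smul_eq_mul]
  by_cases ha : a = i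
  · subst ha
    rw [Pi.single_eq_same, mul_one, Finset.sum_eq_single j]
    · rw [Matrix.single_apply_same, one_mul]
    · intro b _ hb
      rw [Matrix.single_apply_of_ne (h := fun h => hb h.2.symm), zero_mul]
    · intro h
      exact absurd (Finset.mem_univ _) h
  · rw [Pi.single_eq_of_ne ha, mul_zero]
    refine Finset.sum_eq_zero fun b _ => ?_
    rw [Matrix.single_apply_of_ne (h := fun h => ha h.1.symm), zero_mul]

theorem diag [Infinite K] (hFLD : S_FLD) (hSTB : S_STB) (hFLG : S_FLG) (hVAN : S_VAN)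
    {X : Matrix (Fin n) (Fin n) K} (hN : IsNilpotent X) (hT : TStable X) (a : Fin n) :
    X a a = 0 := by
  classical
  obtain ⟨g, hg, hS, -⟩ := hFLG K n X ⊥ hN (fun x hx => by
    rw [Submodule.mem_bot] at hx ⊢
    rw [hx, mulVec_zero])
  obtain ⟨-, -, -, f4, f5, -⟩ := hFLD K n g hg
  have hst := (hSTB K n X g hg).1.1 hS
  have hX1 := (hSTB K n X g hg).2 hN hS
  have hE : ∀ i j : Fin n, i ≠ j → X i j ≠ 0 → ∀ l, ∀ x ∈ Fl g (l + 1),
      x j • (Pi.single i 1 : Fin n → K) ∈ Fl g l := by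
    intro i j hij hXij l x hx
    have h1 : InSpringer (Matrix.single i j (1 : K)) g := by
      rw [(hSTB K n _ g hg).1]
      intro l x hx
      rw [single_mulVec']
      by_cases h0 : x j = 0
      · rw [h0, zero_smul]
        exact Submodule.zero_mem _
      · exact Submodule.smul_mem _ _ (off hSTB hFLG hVAN hN hT (hst l) hx hij hXij h0)
    have h2 : IsNilpotent (Matrix.single i j (1 : K)) := by
      refine ⟨2, ?_⟩
      rw [pow_two, Matrix.single_mul_single_of_ne _ _ _ _ (Ne.symm hij)]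
    have h3 := (hSTB K n _ g hg).2 h2 h1 l x hx
    rw [single_mulVec'] at h3
    exact h3
  -- the diagonal part
  have hD : ∀ l, ∀ x ∈ Fl g (l + 1), (fun i => X i i * x i) ∈ Fl g l := by
    intro l x hx
    have h1 : (fun i => X i i * x i) = X *ᵥ x -
        ∑ i : Fin n, ∑ j : Fin n, if i ≠ j ∧ X i j ≠ 0 then
          X i j • (x j • (Pi.single i 1 : Fin n → K)) else 0 := by
      funext b
      have h2 : (∑ i : Fin n, ∑ j : Fin n, if i ≠ j ∧ X i j ≠ 0 then
          X i j • (x j • (Pi.single i 1 : Fin n → K)) else 0) b =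
          ∑ j ∈ Finset.univ.erase b, X b j * x j := by
        rw [Finset.sum_apply, Finset.sum_eq_single b]
        · rw [Finset.sum_apply, ← Finset.add_sum_erase _ _ (Finset.mem_univ b),
            if_neg (fun h => h.1 rfl), Pi.zero_apply, zero_add]
          refine Finset.sum_congr rfl fun j hj => ?_
          have hjb : b ≠ j := fun h => (Finset.mem_erase.1 hj).1 h.symm
          by_cases h3 : X b j = 0
          · rw [if_neg (fun h => h.2 h3), h3, zero_mul, Pi.zero_apply]
          · rw [if_pos ⟨hjb, h3⟩, Pi.smul_apply, Pi.smul_apply, Pi.single_eq_same, smul_eq_mul,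
              smul_eq_mul, mul_one]
        · intro i _ hib
          rw [Finset.sum_apply]
          refine Finset.sum_eq_zero fun j _ => ?_
          split_ifs with h3
          · rw [Pi.smul_apply, Pi.smul_apply, Pi.single_eq_of_ne hib.symm, smul_zero, smul_zero]
          · rfl
        · intro h
          exact absurd (Finset.mem_univ _) h
      rw [Pi.sub_apply, h2, mulVec, dotProduct, ← Finset.add_sum_erase _ _ (Finset.mem_univ b)]
      ring
    rw [h1]
    refine Submodule.sub_mem _ (hX1 l x hx) (Submodule.sum_mem _ fun i _ =>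
      Submodule.sum_mem _ fun j _ => ?_)
    split_ifs with h2
    · exact Submodule.smul_mem _ _ (hE i j h2.1 h2.2 l x hx)
    · exact Submodule.zero_mem _
  have hpow : ∀ t, t ≤ n → (fun i : Fin n => X i i ^ t) ∈ Fl g (n - t) := by
    intro t
    induction t with
    | zero =>
      intro _
      rw [Nat.sub_zero, f4 n le_rfl]
      exact Submodule.mem_top
    | succ t ih =>
      intro ht
      have h1 := ih (by omega)
      have h2 : n - t = (n - (t + 1)) + 1 := by omega
      rw [h2] at h1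
      have h3 := hD _ _ h1
      have h4 : (fun i : Fin n => X i i ^ (t + 1)) = fun i => X i i * X i i ^ t := by
        funext i
        rw [pow_succ']
      rw [h4]
      exact h3
  have h1 := hpow n le_rfl
  rw [Nat.sub_self, f5, Submodule.mem_bot] at h1
  exact pow_eq_zero_iff (n := n) (by have := a.2; omega) |>.1 (congrFun h1 a)

end EIJ

/-- SprH_EIJ -/
theorem t_EIJ : M_EIJ := by
  intro hFLD hSTB hFLG hVAN K _ _ n X hN hT
  refine ⟨fun i => EIJ.diag hFLD hSTB hFLG hVAN hN hT i, fun i j hX U hU x hx hxj => ?_⟩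
  have hij : i ≠ j := by
    rintro rfl
    exact hX (EIJ.diag hFLD hSTB hFLG hVAN hN hT i)
  exact EIJ.off hSTB hFLG hVAN hN hT hU hx hij hX hxj

end Pool.Agent.SprH
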