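import Pool.Agent.SprH.St

/-!
# SprH, FAM: the family
-/

set_option autoImplicit false

open Matrix

namespace Pool.Agent.SprH

open Pool.Agent.SprJ

namespace FAM

variable {K : Type} [Field K] {n m : ℕ}

theorem hv_self (e : Fin m → Fin n) (π : Par n → K) (f : Fin n) : hv e π f f = 1 := by
  unfold hv
  rw [if_pos rfl]

theorem hv_gt (e : Fin m → Fin n) (π : Par n → K) {f r : Fin n} (h : f < r) : hv e π f r = 0 := by
  unfold hv
  rw [if_neg (ne_of_gt h), if_neg]
  rintro ⟨h1, -⟩
  exact absurd h1 (not_lt.2 h.le)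

theorem hv_e (e : Fin m → Fin n) (π : Par n → K) {f : Fin n} (hf : ∀ j, f ≠ e j) (l : Fin m) :
    hv e π f (e l) = 0 := by
  unfold hv
  rw [if_neg (fun h => hf l h.symm), if_neg]
  rintro ⟨-, h⟩
  exact h l rfl

theorem gm_gt (e : Fin m → Fin n) (w : Equiv.Perm (Fin n)) (c : ℕ → ℕ) (π : Par n → K)
    {r p : Fin n} (h : w p < r) : gm e w c π r p = 0 := by
  unfold gm
  rw [Matrix.of_apply]
  split_ifs with h1
  · rw [hv_gt e π h, zero_add]
    refine Finset.sum_eq_zero fun j _ => if_neg ?_
    rintro ⟨-, -, h2, rfl⟩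
    exact absurd h2 (not_lt.2 h.le)
  · rename_i h2
    exact absurd h (by rw [h2]; exact lt_irrefl _)
  · rw [zero_add]
    refine Finset.sum_eq_zero fun p' _ => ?_
    split_ifs with h3
    · rw [hv_gt e π (h3.2.1.trans h), mul_zero]
    · rfl

theorem gm_self (e : Fin m → Fin n) (w : Equiv.Perm (Fin n)) (c : ℕ → ℕ) (π : Par n → K)
    (p : Fin n) : gm e w c π (w p) p = 1 := by
  unfold gm
  rw [Matrix.of_apply]
  split_ifs with h1
  · rw [hv_self]
    have h2 : (∑ j : Fin m, if c j ≤ p ∧ (p : ℕ) < c (j + 1) ∧ e j < w p ∧ w p = e j then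
        π (.inr (.inl p)) else 0) = 0 := by
      refine Finset.sum_eq_zero fun j _ => if_neg ?_
      rintro ⟨-, -, -, h3⟩
      exact h1 j h3
    rw [h2, add_zero]
  · have h2 : (∑ p' : Fin n, if p < p' ∧ w p' < w p ∧
        (∀ j : Fin m, w p = e j → (p' : ℕ) < c (j + 1)) then
        π (.inr (.inr (p, p'))) * hv e π (w p') (w p) else 0) = 0 := by
      refine Finset.sum_eq_zero fun p' _ => ?_
      split_ifs with h3
      · rw [hv_gt e π h3.2.1, mul_zero]
      · rfl
    rw [h2, add_zero]
  · rename_i h3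
    exact absurd rfl h3

theorem borel_part (e : Fin m → Fin n) (w : Equiv.Perm (Fin n)) (c : ℕ → ℕ) (π : Par n → K) :
    ∃ b : Matrix (Fin n) (Fin n) K, Borel b ∧ gm e w c π = b * perm K w := by
  refine ⟨Matrix.of fun r a => gm e w c π r (w.symm a), ⟨?_, ?_⟩, ?_⟩
  · intro i j hij
    rw [Matrix.of_apply]
    apply gm_gt
    rwa [Equiv.apply_symm_apply]
  · rw [Matrix.det_of_upperTriangular (M := Matrix.of fun r a => gm e w c π r (w.symm a))]
    · have h1 : (∏ i : Fin n, (Matrix.of fun r a => gm e w c π r (w.symm a)) i i) = 1 := by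
        refine Finset.prod_eq_one fun i _ => ?_
        rw [Matrix.of_apply]
        have h2 := gm_self e w c π (w.symm i)
        rwa [Equiv.apply_symm_apply] at h2
      rw [h1]
      exact isUnit_one
    · intro i j hij
      rw [Matrix.of_apply]
      apply gm_gt
      rw [Equiv.apply_symm_apply]
      exact hij
  · ext r p
    rw [Matrix.mul_apply, Finset.sum_eq_single (w p)]
    · unfold perm
      rw [Matrix.of_apply, Matrix.of_apply, if_pos rfl, mul_one, Equiv.symm_apply_apply]
    · intro a _ ha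
      unfold perm
      rw [Matrix.of_apply, Matrix.of_apply, if_neg ha, mul_zero]
    · intro h
      exact absurd (Finset.mem_univ _) h

/-- columns are in the flag -/
theorem col_mem (g : Matrix (Fin n) (Fin n) K) {i : ℕ} {p : Fin n} (hp : (p : ℕ) < i) :
    (fun r => g r p) ∈ Fl g i := by
  refine ⟨Pi.single p 1, ?_, ?_⟩
  · intro l hl
    rw [Pi.single_eq_of_ne]
    rintro rfl
    exact absurd hp (not_lt.2 hl)
  · funext r
    rw [Matrix.mulVecLin_apply, Matrix.mulVec_single_one]
    rfl

theorem fl_mono (g : Matrix (Fin n) (Fin n) K) {i j : ℕ} (h : i ≤ j) : Fl g i ≤ Fl g j := by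
  refine Submodule.map_mono ?_
  intro y hy l hl
  exact hy l (h.trans hl)

end FAM

open FAM in
theorem t_FAM : M_FAM := by
  intro _ hPST K _ n m e w c π he hc0 hcm hP
  refine ⟨borel_part e w c π, hc0, hcm, ?_⟩
  obtain ⟨-, -, -, h4, hmono, -⟩ := hPST n m e w c he hc0 hcm hP
  -- positions of the `e l`
  have hpos1 : ∀ l : Fin m, c l ≤ (w.symm (e l) : Fin n) := by
    intro l
    by_contra h
    have h1 := (hP l l l.2.le).1 (not_le.1 h)
    exact lt_irrefl _ h1
  have hpos2 : ∀ l : Fin m, ((w.symm (e l) : Fin n) : ℕ) < c (l + 1) := by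
    intro l
    exact (hP (l + 1) l l.2).2 (Nat.lt_succ_self _)
  -- free indices of the columns `p'`
  have hfree : ∀ (l : Fin m) (p p' : Fin n), w p = e l → p < p' → w p' < w p →
      (p' : ℕ) < c (l + 1) → c l ≤ p' ∧ ∀ l', w p' ≠ e l' := by
    intro l p p' hp hpp hw hc
    have h1 : p = w.symm (e l) := by rw [← hp, Equiv.symm_apply_apply]
    have h2 : c l ≤ p := by rw [h1]; exact hpos1 l
    have h3 : c l ≤ p' := h2.trans (le_of_lt hpp)
    refine ⟨h3, h4 l p' h3 hc ?_⟩
    intro h5
    rw [h5, hp] at hw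
    exact lt_irrefl _ hw
  intro j l hj
  refine ⟨fun hlj => ?_, fun hjl => ?_⟩
  · refine fl_mono _ (hmono (l + 1) j hlj hj) ?_
    obtain ⟨p, hp⟩ : ∃ p, p = w.symm (e l) := ⟨_, rfl⟩
    have hwp : w p = e l := by rw [hp, Equiv.apply_symm_apply]
    have hpc : (p : ℕ) < c (l + 1) := by rw [hp]; exact hpos2 l
    have hcond : ∀ p' : Fin n, (∀ j : Fin m, w p = e j → (p' : ℕ) < c (j + 1)) ↔
        (p' : ℕ) < c (l + 1) := by
      intro p'
      refine ⟨fun h => h l hwp, fun h j' hj' => ?_⟩
      have h1 : j' = l := he (hj'.symm.trans hwp)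
      rw [h1]
      exact h
    -- the columns `p'`
    have hcol : ∀ p' : Fin n, p < p' → w p' < w p → (p' : ℕ) < c (l + 1) →
        (fun r => gm e w c π r p') = hv e π (w p') := by
      intro p' h1 h2 h3
      obtain ⟨h5, h6⟩ := hfree l p p' hwp h1 h2 h3
      funext r
      unfold gm
      rw [Matrix.of_apply, if_pos h6]
      have h7 : (∑ j : Fin m, if c j ≤ p' ∧ (p' : ℕ) < c (j + 1) ∧ e j < w p' ∧ r = e j then
          π (.inr (.inl p')) else 0) = 0 := by
        refine Finset.sum_eq_zero fun j' _ => if_neg ?_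
        rintro ⟨h8, h9, h10, -⟩
        rcases lt_trichotomy (j' : ℕ) l with h11 | h11 | h11
        · have h12 := hmono (j' + 1) l h11 l.2.le
          omega
        · have h12 : j' = l := Fin.ext h11
          rw [h12, ← hwp] at h10
          exact absurd h10 (not_lt.2 h2.le)
        · have h12 := hmono (l + 1) j' h11 j'.2.le
          omega
      rw [h7, add_zero]
    have key : (Pi.single (e l) 1 : Fin n → K) = (fun r => gm e w c π r p) -
        ∑ p' : Fin n, if p < p' ∧ w p' < w p ∧ (p' : ℕ) < c (l + 1) then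
          π (.inr (.inr (p, p'))) • (fun r => gm e w c π r p') else 0 := by
      rw [eq_sub_iff_add_eq]
      funext r
      rw [Pi.add_apply, Finset.sum_apply]
      have h0 : ¬ ∀ j, w p ≠ e j := fun h => h l hwp
      have h1 : gm e w c π r p = (if r = w p then 1 else 0) + ∑ p' : Fin n,
          if p < p' ∧ w p' < w p ∧ (∀ j : Fin m, w p = e j → (p' : ℕ) < c (j + 1)) then
          π (.inr (.inr (p, p'))) * hv e π (w p') r else 0 := by
        unfold gm
        rw [Matrix.of_apply, if_neg h0]
      rw [h1]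
      congr 1
      · rw [hwp, Pi.single_apply]
      · refine Finset.sum_congr rfl fun p' _ => ?_
        by_cases hc : p < p' ∧ w p' < w p ∧ (p' : ℕ) < c (l + 1)
        · rw [if_pos hc, if_pos ⟨hc.1, hc.2.1, (hcond p').2 hc.2.2⟩,
            hcol p' hc.1 hc.2.1 hc.2.2]
          rfl
        · rw [if_neg hc, if_neg (fun h => hc ⟨h.1, h.2.1, (hcond p').1 h.2.2⟩)]
          rfl
    rw [key]
    refine Submodule.sub_mem _ (col_mem _ hpc) (Submodule.sum_mem _ fun p' _ => ?_)
    split_ifs with h
    · exact Submodule.smul_mem _ _ (col_mem _ h.2.2)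
    · exact Submodule.zero_mem _
  · rintro x ⟨y, hy, rfl⟩
    rw [Matrix.mulVecLin_apply]
    change ∑ p, gm e w c π (e l) p * y p = 0
    refine Finset.sum_eq_zero fun p _ => ?_
    by_cases hp : (p : ℕ) < c j
    · have hcj : c j ≤ c l := hmono j l hjl l.2.le
      have h1 : gm e w c π (e l) p = 0 := by
        unfold gm
        rw [Matrix.of_apply]
        split_ifs with h1 h2
        · rw [hv_e e π h1, zero_add]
          refine Finset.sum_eq_zero fun j' _ => if_neg ?_
          rintro ⟨h2, -, -, h3⟩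
          have h5 : j' = l := he h3.symm
          rw [h5] at h2
          omega
        · exfalso
          have h3 : p = w.symm (e l) := by rw [h2, Equiv.symm_apply_apply]
          have h5 := (hP j l hj).1 (by rw [← h3]; exact hp)
          omega
        · rw [zero_add]
          refine Finset.sum_eq_zero fun p' _ => ?_
          split_ifs with h3
          · push Not at h1
            obtain ⟨l', hl'⟩ := h1
            obtain ⟨-, h5⟩ := hfree l' p p' hl' h3.1 h3.2.1 (h3.2.2 l' hl')
            rw [hv_e e π h5, mul_zero]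
          · rfl
      rw [h1, zero_mul]
    · rw [hy p (not_lt.1 hp), mul_zero]

end Pool.Agent.SprH
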