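import Pool.Agent.SprH.St

/-!
# FLG: a flag through a stable subspace (MP_3a0658_ag)
-/

set_option autoImplicit false

open Matrix

namespace Pool.Agent.SprH

open Pool.Agent.SprJ

namespace FLG_aux

variable {K : Type} [Field K] {n : ℕ}

/-- the span of the first `i` vectors -/
def Sp (f : ℕ → Fin n → K) (i : ℕ) : Submodule K (Fin n → K) :=
  Submodule.span K (Set.range fun j : Fin i => f j)

theorem Sp_mono (f : ℕ → Fin n → K) {i j : ℕ} (h : i ≤ j) : Sp f i ≤ Sp f j := by
  apply Submodule.span_mono
  rintro _ ⟨a, rfl⟩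
  exact ⟨⟨a, by omega⟩, rfl⟩

theorem mem_Sp (f : ℕ → Fin n → K) {i j : ℕ} (h : j < i) : f j ∈ Sp f i :=
  Submodule.subset_span ⟨⟨j, h⟩, rfl⟩

/-- one step between stable subspaces -/
theorem step (X : Matrix (Fin n) (Fin n) K) (hX : IsNilpotent X) (W W' : Submodule K (Fin n → K))
    (hW' : ∀ x ∈ W', X *ᵥ x ∈ W') (y : Fin n → K) (hy : y ∈ W') (hyW : y ∉ W) :
    ∃ x ∈ W', x ∉ W ∧ X *ᵥ x ∈ W := by
  classical
  obtain ⟨N, hN⟩ := hX
  have hex : ∃ k, (X ^ k) *ᵥ y ∈ W := ⟨N, by rw [hN, Matrix.zero_mulVec]; exact W.zero_mem⟩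
  have hk := Nat.find_spec hex
  have hmin := fun {k} (h : k < Nat.find hex) => Nat.find_min hex h
  have hk0 : Nat.find hex ≠ 0 := by
    intro h0
    rw [h0, pow_zero, Matrix.one_mulVec] at hk
    exact hyW hk
  obtain ⟨k, hkk⟩ : ∃ k, Nat.find hex = k + 1 := ⟨Nat.find hex - 1, by omega⟩
  rw [hkk] at hk
  refine ⟨(X ^ k) *ᵥ y, ?_, hmin (by omega), ?_⟩
  · have : ∀ k, (X ^ k) *ᵥ y ∈ W' := by
      intro k
      induction k with
      | zero =>
        rw [pow_zero, Matrix.one_mulVec]
        exact hy
      | succ k ih =>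
        rw [pow_succ', ← Matrix.mulVec_mulVec]
        exact hW' _ ih
    exact this k
  · rw [pow_succ', ← Matrix.mulVec_mulVec] at hk
    exact hk

theorem stable (X : Matrix (Fin n) (Fin n) K) (f : ℕ → Fin n → K) (l : ℕ)
    (h : ∀ i < l, X *ᵥ f i ∈ Sp f i) : ∀ x ∈ Sp f l, X *ᵥ x ∈ Sp f l := by
  have h1 : Sp f l ≤ (Sp f l).comap (Matrix.mulVecLin X) := by
    apply Submodule.span_le.2
    rintro _ ⟨a, rfl⟩
    exact Sp_mono f a.2.le (h a a.2)
  intro x hx
  exact h1 hx

theorem chain (X : Matrix (Fin n) (Fin n) K) (hX : IsNilpotent X) (U : Submodule K (Fin n → K))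
    (hU : ∀ x ∈ U, X *ᵥ x ∈ U) : ∀ l : ℕ, l ≤ n → ∃ f : ℕ → Fin n → K,
      LinearIndependent K (fun i : Fin l => f i) ∧ (∀ i < l, X *ᵥ f i ∈ Sp f i) ∧
      ∀ i < l, i < Module.finrank K U → f i ∈ U := by
  classical
  intro l
  induction l with
  | zero =>
    intro _
    exact ⟨fun _ => 0, linearIndependent_empty_type, fun i h => by omega, fun i h => by omega⟩
  | succ l ih =>
    intro hl
    obtain ⟨f, hf1, hf2, hf3⟩ := ih (by omega)
    have hdim : Module.finrank K (Sp f l) = l := by
      unfold Sp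
      rw [finrank_span_eq_card hf1, Fintype.card_fin]
    have hst := stable X f l hf2
    have hx : ∃ x, (l < Module.finrank K U → x ∈ U) ∧ x ∉ Sp f l ∧ X *ᵥ x ∈ Sp f l := by
      rcases Nat.lt_or_ge l (Module.finrank K U) with h1 | h1
      · have h2 : ∃ y ∈ U, y ∉ Sp f l := by
          by_contra hcon
          push Not at hcon
          have h3 := Submodule.finrank_mono (show U ≤ Sp f l from hcon)
          omega
        obtain ⟨y, hy, hyW⟩ := h2
        obtain ⟨x, hx1, hx2, hx3⟩ := step X hX (Sp f l) U hU y hy hyW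
        exact ⟨x, fun _ => hx1, hx2, hx3⟩
      · have h2 : ∃ y : Fin n → K, y ∉ Sp f l := by
          by_contra hcon
          push Not at hcon
          have h3 : Sp f l = ⊤ := eq_top_iff.2 fun y _ => hcon y
          rw [h3, finrank_top, Module.finrank_fin_fun] at hdim
          omega
        obtain ⟨y, hyW⟩ := h2
        obtain ⟨x, _, hx2, hx3⟩ := step X hX (Sp f l) ⊤ (fun _ _ => trivial) y trivial hyW
        exact ⟨x, fun h => by omega, hx2, hx3⟩
    obtain ⟨x, hx1, hx2, hx3⟩ := hx
    have hlt : ∀ i, i < l → Function.update f l x i = f i := fun i hi =>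
      Function.update_of_ne (by omega) _ _
    have hSp : ∀ i, i ≤ l → Sp (Function.update f l x) i = Sp f i := by
      intro i hi
      unfold Sp
      congr 1
      congr 1
      funext j
      exact hlt j (by omega)
    refine ⟨Function.update f l x, ?_, ?_, ?_⟩
    · have h1 : (fun i : Fin (l + 1) => Function.update f l x i) =
          Fin.snoc (α := fun _ => Fin n → K) (fun i : Fin l => f i) x := by
        funext i
        refine Fin.lastCases ?_ (fun i => ?_) i
        · rw [Fin.snoc_last]
          show Function.update f l x (Fin.last l : ℕ) = x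
          rw [Fin.val_last, Function.update_self]
        · rw [Fin.snoc_castSucc]
          exact hlt i i.2
      rw [h1, linearIndependent_finSnoc]
      exact ⟨hf1, hx2⟩
    · intro i hi
      rw [hSp i (by omega)]
      rcases Nat.lt_or_ge i l with h1 | h1
      · rw [hlt i h1]
        exact hf2 i h1
      · have h2 : i = l := by omega
        rw [h2, Function.update_self]
        exact hx3
    · intro i hi hi2
      rcases Nat.lt_or_ge i l with h1 | h1
      · rw [hlt i h1]
        exact hf3 i h1 hi2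
      · have h2 : i = l := by omega
        rw [h2, Function.update_self]
        exact hx1 (by omega)

end FLG_aux

open FLG_aux in
theorem t_FLG : M_FLG := by
  classical
  intro hFLD hSTB K _ n X U hX hU
  obtain ⟨f, hf1, hf2, hf3⟩ := chain X hX U hU n le_rfl
  let g : Matrix (Fin n) (Fin n) K := Matrix.of fun r c => f c r
  have hg : IsUnit g.det := by
    rw [← Matrix.isUnit_iff_isUnit_det, ← Matrix.linearIndependent_cols_iff_isUnit]
    exact hf1
  obtain ⟨hdim, hmono, hcol, htop, hbot, _⟩ := hFLD K n g hg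
  obtain ⟨hst1, _⟩ := hSTB K n X g hg
  have hli : ∀ i, i ≤ n → LinearIndependent K (fun j : Fin i => f j) := by
    intro i hi
    exact hf1.comp (fun j : Fin i => (⟨j, by omega⟩ : Fin n)) (fun a b hab => by
      apply Fin.ext
      exact congrArg (fun t : Fin n => (t : ℕ)) hab)
  have hFl : ∀ i, i ≤ n → Fl g i = Sp f i := by
    intro i hi
    symm
    apply Submodule.eq_of_le_of_finrank_eq
    · apply Submodule.span_le.2
      rintro _ ⟨a, rfl⟩
      exact hcol i ⟨a, by omega⟩ a.2
    · rw [hdim i hi]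
      unfold Sp
      rw [finrank_span_eq_card (hli i hi), Fintype.card_fin]
  have hdU : Module.finrank K U ≤ n := by
    have h1 := Submodule.finrank_le U
    rwa [Module.finrank_fin_fun] at h1
  refine ⟨g, hg, hst1.2 ?_, ?_⟩
  · intro i x hx
    rcases Nat.le_total i n with hi | hi
    · rw [hFl i hi] at hx ⊢
      exact stable X f i (fun j hj => hf2 j (by omega)) x hx
    · rw [htop i hi]
      trivial
  · rw [hFl _ hdU]
    apply Submodule.eq_of_le_of_finrank_eq
    · apply Submodule.span_le.2
      rintro _ ⟨a, rfl⟩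
      exact hf3 a (by omega) a.2
    · unfold Sp
      rw [finrank_span_eq_card (hli _ hdU), Fintype.card_fin]

end Pool.Agent.SprH
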