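import Pool.Agent.SprH.St

/-!
# SprH, module FMN: one level
-/

set_option autoImplicit false

open Matrix

namespace Pool.Agent.SprH

open Pool.Agent.SprJ

namespace FMN

variable {K : Type} [Field K] {n m : ℕ}

lemma det_perm (w : Equiv.Perm (Fin n)) : IsUnit (perm K w).det := by
  have h : perm K w = (1 : Matrix (Fin n) (Fin n) K).submatrix id w := by
    ext i k
    simp [perm, Matrix.one_apply]
  rw [h, Matrix.det_permute', Matrix.det_one, mul_one]
  rcases Int.units_eq_one_or (Equiv.Perm.sign w) with h1 | h1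
  · rw [h1]; simp
  · rw [h1]; simp

/-- the common part of the matrix of the family -/
def bs (e : Fin m → Fin n) (w : Equiv.Perm (Fin n)) (π : Par n → K) (r p : Fin n) : K :=
  if ∀ j, w p ≠ e j then hv e π (w p) r else if r = w p then 1 else 0

lemma bs_e (e : Fin m → Fin n) (w : Equiv.Perm (Fin n)) (π : Par n → K) (y : Fin n → K)
    (l : Fin m) : ∑ p, bs e w π (e l) p * y p = y (w.symm (e l)) := by
  rw [Finset.sum_eq_single (w.symm (e l))]
  · have h1 : ¬ ∀ j, w (w.symm (e l)) ≠ e j := by
      push Not
      exact ⟨l, by simp⟩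
    unfold bs
    rw [if_neg h1, if_pos (by simp), one_mul]
  · intro p _ hp
    unfold bs
    by_cases h1 : ∀ j, w p ≠ e j
    · rw [if_pos h1]
      unfold hv
      rw [if_neg (fun h => h1 l h.symm), if_neg (fun h => h.2 l rfl), zero_mul]
    · rw [if_neg h1, if_neg (fun h => hp (by rw [h]; simp)), zero_mul]
  · intro h
    exact absurd (Finset.mem_univ _) h

lemma bs_f (e : Fin m → Fin n) (w : Equiv.Perm (Fin n)) (π : Par n → K) (y : Fin n → K)
    (r : Fin n) (hr : ∀ j, r ≠ e j) : ∑ p, bs e w π r p * y p =
      ∑ b, (if ∀ j, b ≠ e j then y (w.symm b) else 0) * hv e π b r := by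
  rw [← Equiv.sum_comp w (fun b => (if ∀ j, b ≠ e j then y (w.symm b) else 0) * hv e π b r)]
  refine Finset.sum_congr rfl fun p _ => ?_
  unfold bs
  by_cases h1 : ∀ j, w p ≠ e j
  · rw [if_pos h1, if_pos h1, Equiv.symm_apply_apply, mul_comm]
  · rw [if_neg h1, if_neg h1, zero_mul]
    have h2 : r ≠ w p := fun h => h1 fun j => h ▸ hr j
    rw [if_neg h2, zero_mul]

/-- parameters -/
def pr (ξ : Fin n × Fin n → K) (β : Fin n → K) (γ : Fin n × Fin n → K) : Par n → K :=
  Sum.elim ξ (Sum.elim β γ)

lemma gm1 (e : Fin m → Fin n) (w : Equiv.Perm (Fin n)) (c : ℕ → ℕ) (ξ : Fin n × Fin n → K)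
    (r p : Fin n) : gm e w c (pr ξ 0 0) r p = bs e w (pr ξ 0 0) r p := by
  unfold gm bs
  rw [Matrix.of_apply]
  simp [pr]

lemma gm2 (e : Fin m → Fin n) (w : Equiv.Perm (Fin n)) (c : ℕ → ℕ) (ξ : Fin n × Fin n → K)
    (j : Fin m) (p₀ : Fin n) (h1 : c j ≤ p₀) (h2 : (p₀ : ℕ) < c (j + 1)) (h3 : e j < w p₀)
    (h4 : ∀ l, w p₀ ≠ e l) (hc : ∀ j l : ℕ, j ≤ l → l ≤ m → c j ≤ c l)
    (r p : Fin n) : gm e w c (pr ξ (fun p => if p = p₀ then 1 else 0) 0) r p =
      bs e w (pr ξ (fun p => if p = p₀ then 1 else 0) 0) r p +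
        if p = p₀ ∧ r = e j then 1 else 0 := by
  unfold gm bs
  rw [Matrix.of_apply]
  by_cases hf : ∀ j, w p ≠ e j
  · rw [if_pos hf, if_pos hf]
    congr 1
    by_cases hp : p = p₀
    · subst hp
      rw [Finset.sum_eq_single j]
      · by_cases hr : r = e j
        · rw [if_pos ⟨h1, h2, h3, hr⟩, if_pos ⟨rfl, hr⟩]
          simp [pr]
        · rw [if_neg (fun h => hr h.2.2.2), if_neg (fun h => hr h.2)]
      · intro j' _ hj'
        rw [if_neg]
        rintro ⟨ha, hb, -, -⟩
        apply hj'
        have hjm := j.2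
        have hjm' := j'.2
        ext
        by_contra hne
        rcases Nat.lt_or_gt_of_ne hne with h | h
        · have := hc (j' + 1) j (by omega) (by omega)
          omega
        · have := hc (j + 1) j' (by omega) (by omega)
          omega
      · intro h
        exact absurd (Finset.mem_univ _) h
    · rw [if_neg (fun h => hp h.1)]
      refine Finset.sum_eq_zero fun j' _ => ?_
      simp [pr, hp]
  · rw [if_neg hf, if_neg hf]
    have hp : p ≠ p₀ := fun h => hf (h ▸ h4)
    have hz : (if p = p₀ ∧ r = e j then (1 : K) else 0) = 0 := if_neg (fun h => hp h.1)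
    rw [hz, add_zero, Finset.sum_eq_zero, add_zero]
    intro j' _
    simp [pr]

lemma gm3 (e : Fin m → Fin n) (w : Equiv.Perm (Fin n)) (c : ℕ → ℕ) (ξ : Fin n × Fin n → K)
    (he : Function.Injective e)
    (j : Fin m) (q p₀ : Fin n) (hq : w q = e j) (h1 : q < p₀) (h2 : (p₀ : ℕ) < c (j + 1))
    (h3 : w p₀ < e j) (r p : Fin n) :
    gm e w c (pr ξ 0 (fun x => if x.1 = q ∧ x.2 = p₀ then 1 else 0)) r p =
      bs e w (pr ξ 0 (fun x => if x.1 = q ∧ x.2 = p₀ then 1 else 0)) r p +
        if p = q then hv e (pr ξ 0 (fun x => if x.1 = q ∧ x.2 = p₀ then 1 else 0)) (w p₀) r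
          else 0 := by
  unfold gm bs
  rw [Matrix.of_apply]
  by_cases hf : ∀ j, w p ≠ e j
  · have hp : p ≠ q := fun h => hf j (h ▸ hq)
    rw [if_pos hf, if_pos hf, if_neg hp]
    congr 1
    refine Finset.sum_eq_zero fun j' _ => ?_
    simp [pr]
  · rw [if_neg hf, if_neg hf]
    congr 1
    by_cases hp : p = q
    · subst hp
      rw [if_pos rfl, Finset.sum_eq_single p₀]
      · rw [if_pos]
        · simp [pr]
        · refine ⟨h1, by rw [hq]; exact h3, fun j' hj' => ?_⟩
          have : j = j' := he (by rw [← hq, hj'])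
          rw [← this]
          exact h2
      · intro p' _ hp'
        split_ifs
        · simp [pr, hp']
        · rfl
      · intro h
        exact absurd (Finset.mem_univ _) h
    · rw [if_neg hp]
      refine Finset.sum_eq_zero fun p' _ => ?_
      split_ifs
      · simp [pr, hp]
      · rfl

lemma mem_vset (v : Equiv.Perm (Fin n)) (i : ℕ) (x : Fin n) :
    x ∈ vset v i ↔ ((v.symm x : Fin n) : ℕ) < i := by simp [vset]

lemma mem_Fr (e : Fin m → Fin n) (v : Equiv.Perm (Fin n)) (i : ℕ) (x : Fin n) :
    x ∈ Fr e v i ↔ ((v.symm x : Fin n) : ℕ) < i ∧ ∀ j, x ≠ e j := by simp [Fr]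

/-- the indices `e l`, `l < j` -/
def Es (e : Fin m → Fin n) (j : Fin m) : Finset (Fin n) :=
  (Finset.univ.filter fun l => l < j).image e

lemma mem_Es (e : Fin m → Fin n) (j : Fin m) (x : Fin n) :
    x ∈ Es e j ↔ ∃ l : Fin m, l < j ∧ x = e l := by
  simp only [Es, Finset.mem_image, Finset.mem_filter, Finset.mem_univ, true_and]
  constructor
  · rintro ⟨l, h1, h2⟩
    exact ⟨l, h1, h2.symm⟩
  · rintro ⟨l, h1, h2⟩
    exact ⟨l, h1, h2.symm⟩

lemma disj1 (e : Fin m → Fin n) (j : Fin m) (A : Finset (Fin n)) (hA : ∀ a ∈ A, ∀ l, a ≠ e l) :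
    Disjoint A (Es e j) := by
  rw [Finset.disjoint_left]
  intro a ha h
  rw [mem_Es] at h
  obtain ⟨l, -, h⟩ := h
  exact hA a ha l h

lemma disj2 (e : Fin m → Fin n) (j : Fin m) (A : Finset (Fin n)) (hA : ∀ a ∈ A, ∀ l, a ≠ e l) :
    Disjoint A (insert (e j) (Es e j)) := by
  rw [Finset.disjoint_left]
  intro a ha h
  rw [Finset.mem_insert, mem_Es] at h
  rcases h with h | ⟨l, -, h⟩
  · exact hA a ha j h
  · exact hA a ha l h

end FMN

open FMN in
theorem t_FMN : M_FMN := by
  intro hFLD hGEQ hPST hPNT hFAM K _ n m e v w c he hc0 hcm hv hw j i hji hij hLev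
  obtain ⟨pv1, pv2, pv3, pv4, pv5, -⟩ := hPST n m e v c he hc0 hcm hv
  obtain ⟨pw1, pw2, pw3, pw4, -, -⟩ := hPST n m e w c he hc0 hcm hw
  -- reduction to the triviality of a kernel
  have hred : ∀ π : Par n → K, (∀ y : Fin n → K, (∀ l : Fin n, i ≤ (l : ℕ) → y l = 0) →
      (∀ a ∈ vset v i, ∑ p, gm e w c π a p * y p = 0) → y = 0) → mn v (gm e w c π) i ≠ 0 := by
    intro π h
    obtain ⟨⟨b, hb, hgm⟩, -⟩ := hFAM K n m e w c π he hc0 hcm hw
    have hdet : IsUnit (gm e w c π).det := by
      rw [hgm, Matrix.det_mul]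
      exact hb.2.mul (det_perm w)
    obtain ⟨-, -, -, -, -, -, -, h8⟩ := hFLD K n (gm e w c π) hdet
    exact h8 v i fun y hy1 hy2 => h y hy1 fun a ha => hy2 a ha
  have hlt : ∀ l : Fin m, l < j → e l ∈ vset v i := by
    intro l hl
    rw [mem_vset]
    have h1 := (hv j l j.2.le).2 hl
    omega
  have hgt : ∀ l : Fin m, j < l → i ≤ ((w.symm (e l) : Fin n) : ℕ) := by
    intro l hl
    have h1 := hw (j + 1) l j.2
    have h2 : ¬ ((l : ℕ) < j + 1) := by
      have : (j : ℕ) < l := hl
      omega
    have h3 : ¬ (((w.symm (e l) : Fin n) : ℕ) < c (j + 1)) := fun h => h2 (h1.1 h)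
    omega
  have hfv : ∀ a ∈ Fr e v i, ∀ l, a ≠ e l := fun a ha => ((mem_Fr e v i a).1 ha).2
  have hfw : ∀ a ∈ Fr e w i, ∀ l, a ≠ e l := fun a ha => ((mem_Fr e w i a).1 ha).2
  -- the sets
  have sv1 : e j ∈ vset v i → vset v i = Fr e v i ∪ insert (e j) (Es e j) := by
    intro h
    have h' := (mem_vset v i _).1 h
    ext x
    rw [pv1 j i hji hij x, Finset.mem_union, Finset.mem_insert, mem_Es]
    constructor
    · rintro (h1 | h1 | h1)
      · exact Or.inl h1
      · exact Or.inr (Or.inr h1)
      · exact Or.inr (Or.inl h1.1)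
    · rintro (h1 | h1 | h1)
      · exact Or.inl h1
      · exact Or.inr (Or.inr ⟨h1, h'⟩)
      · exact Or.inr (Or.inl h1)
  have sv2 : e j ∉ vset v i → vset v i = Fr e v i ∪ Es e j := by
    intro h
    have h' : ¬ _ := fun h2 => h ((mem_vset v i _).2 h2)
    ext x
    rw [pv1 j i hji hij x, Finset.mem_union, mem_Es]
    constructor
    · rintro (h1 | h1 | h1)
      · exact Or.inl h1
      · exact Or.inr h1
      · exact absurd h1.2 h'
    · rintro (h1 | h1)
      · exact Or.inl h1
      · exact Or.inr (Or.inl h1)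
  have sw1 : e j ∈ vset w i → vset w i = Fr e w i ∪ insert (e j) (Es e j) := by
    intro h
    have h' := (mem_vset w i _).1 h
    ext x
    rw [pw1 j i hji hij x, Finset.mem_union, Finset.mem_insert, mem_Es]
    constructor
    · rintro (h1 | h1 | h1)
      · exact Or.inl h1
      · exact Or.inr (Or.inr h1)
      · exact Or.inr (Or.inl h1.1)
    · rintro (h1 | h1 | h1)
      · exact Or.inl h1
      · exact Or.inr (Or.inr ⟨h1, h'⟩)
      · exact Or.inr (Or.inl h1)
  have sw2 : e j ∉ vset w i → vset w i = Fr e w i ∪ Es e j := by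
    intro h
    have h' : ¬ _ := fun h2 => h ((mem_vset w i _).2 h2)
    ext x
    rw [pw1 j i hji hij x, Finset.mem_union, mem_Es]
    constructor
    · rintro (h1 | h1 | h1)
      · exact Or.inl h1
      · exact Or.inr h1
      · exact absurd h1.2 h'
    · rintro (h1 | h1)
      · exact Or.inl h1
      · exact Or.inr (Or.inl h1)
  obtain ⟨L1, L2, L3, L4⟩ := hLev
  -- the first case
  have case1 : ((e j ∈ vset v i ∧ e j ∈ vset w i) ∨ (e j ∉ vset v i ∧ e j ∉ vset w i)) →
      ∃ π : Par n → K, mn v (gm e w c π) i ≠ 0 := by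
    intro hcase
    have hG : Gale (Fr e v i) (Fr e w i) := by
      rcases hcase with ⟨h1, h2⟩ | ⟨h1, h2⟩
      · have h3 := L1 h1 h2
        rw [sv1 h1, sw1 h2] at h3
        exact (hGEQ n _ _ _ (disj2 e j _ hfv) (disj2 e j _ hfw)).1 h3
      · have h3 := L2 h1 h2
        rw [sv2 h1, sw2 h2] at h3
        exact (hGEQ n _ _ _ (disj1 e j _ hfv) (disj1 e j _ hfw)).1 h3
    have hcard : (Fr e v i).card = (Fr e w i).card := by
      rcases hcase with ⟨h1, h2⟩ | ⟨h1, h2⟩
      · have h3 := pv2 j i hji hij ((mem_vset v i _).1 h1)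
        have h4 := pw2 j i hji hij ((mem_vset w i _).1 h2)
        omega
      · have h3 := pv3 j i hji hij (fun h => h1 ((mem_vset v i _).2 h))
        have h4 := pw3 j i hji hij (fun h => h2 ((mem_vset w i _).2 h))
        omega
    obtain ⟨ξ, hξ⟩ := hPNT K n m e _ _ hcard hG hfv
    refine ⟨pr ξ 0 0, hred _ fun y hy1 hy2 => ?_⟩
    have hye : ∀ l, y (w.symm (e l)) = 0 := by
      intro l
      have h0 : e l ∈ vset v i → y (w.symm (e l)) = 0 := by
        intro h
        rw [← bs_e e w (pr ξ 0 0) y l, ← hy2 _ h]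
        exact Finset.sum_congr rfl fun p _ => by rw [gm1]
      rcases lt_trichotomy l j with h | h | h
      · exact h0 (hlt l h)
      · subst h
        rcases hcase with ⟨h1, h2⟩ | ⟨h1, h2⟩
        · exact h0 h1
        · exact hy1 _ (by
            by_contra h3
            exact h2 ((mem_vset w i _).2 (by omega)))
      · exact hy1 _ (hgt l h)
    have hz := hξ (pr ξ 0 0) (fun q => rfl)
      (fun b => if ∀ j, b ≠ e j then y (w.symm b) else 0) ?_ ?_
    · funext p
      by_cases hp : ∀ l, w p ≠ e l
      · have h1 := congrFun hz (w p)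
        simp only [Pi.zero_apply] at h1
        rw [if_pos hp, Equiv.symm_apply_apply] at h1
        exact h1
      · push Not at hp
        obtain ⟨l, hl⟩ := hp
        have h1 := hye l
        rw [← hl, Equiv.symm_apply_apply] at h1
        exact h1
    · intro b hb
      by_cases hf : ∀ l, b ≠ e l
      · simp only [if_pos hf]
        refine hy1 _ ?_
        by_contra h
        exact hb ((mem_Fr e w i b).2 ⟨by omega, hf⟩)
      · simp only [if_neg hf]
    · intro a ha
      have h1 := (mem_Fr e v i a).1 ha
      rw [← bs_f e w (pr ξ 0 0) y a h1.2, ← hy2 a ((mem_vset v i a).2 h1.1)]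
      exact Finset.sum_congr rfl fun p _ => by rw [gm1]
  by_cases hkv : e j ∈ vset v i
  · by_cases hkw : e j ∈ vset w i
    · exact case1 (Or.inl ⟨hkv, hkw⟩)
    · -- the second case
      obtain ⟨p₀, hp1, hp2, hp3, hG⟩ := L3 hkv hkw
      have hp4 : (p₀ : ℕ) < c (j + 1) := by omega
      have hfree : ∀ l, w p₀ ≠ e l := pw4 j p₀ hp1 hp4 (ne_of_gt hp3)
      have hmem : w p₀ ∈ Fr e w i := (mem_Fr e w i _).2 ⟨by simpa using hp2, hfree⟩
      have hG' : Gale (Fr e v i) ((Fr e w i).erase (w p₀)) := by
        have h1 : insert (e j) ((vset w i).erase (w p₀)) =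
            (Fr e w i).erase (w p₀) ∪ insert (e j) (Es e j) := by
          rw [sw2 hkw]
          ext x
          simp only [Finset.mem_insert, Finset.mem_erase, Finset.mem_union, mem_Es]
          constructor
          · rintro (h | ⟨h1, h2 | h2⟩)
            · exact Or.inr (Or.inl h)
            · exact Or.inl ⟨h1, h2⟩
            · exact Or.inr (Or.inr h2)
          · rintro (⟨h1, h2⟩ | h | h)
            · exact Or.inr ⟨h1, Or.inl h2⟩
            · exact Or.inl h
            · refine Or.inr ⟨?_, Or.inr h⟩
              obtain ⟨l, -, hl⟩ := h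
              rw [hl]
              exact (hfree l).symm
        rw [sv1 hkv, h1] at hG
        refine (hGEQ n _ _ _ (disj2 e j _ hfv) (disj2 e j _ fun a ha => ?_)).1 hG
        exact hfw a (Finset.mem_of_mem_erase ha)
      have hcard : (Fr e v i).card = ((Fr e w i).erase (w p₀)).card := by
        rw [Finset.card_erase_of_mem hmem]
        have h3 := pv2 j i hji hij ((mem_vset v i _).1 hkv)
        have h4 := pw3 j i hji hij (fun h => hkw ((mem_vset w i _).2 h))
        omega
      obtain ⟨ξ, hξ⟩ := hPNT K n m e _ _ hcard hG' hfv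
      obtain ⟨π, hπ⟩ : ∃ π : Par n → K, π = pr ξ (fun p => if p = p₀ then 1 else 0) 0 := ⟨_, rfl⟩
      refine ⟨π, hred _ fun y hy1 hy2 => ?_⟩
      have hgm : ∀ r p, gm e w c π r p = bs e w π r p + if p = p₀ ∧ r = e j then 1 else 0 := by
        intro r p
        rw [hπ]
        exact gm2 e w c ξ j p₀ hp1 hp4 hp3 hfree pv5 r p
      have hsum : ∀ r, ∑ p, gm e w c π r p * y p = ∑ p, bs e w π r p * y p +
          if r = e j then y p₀ else 0 := by
        intro r
        rw [Finset.sum_congr rfl fun p _ => by rw [hgm r p, add_mul], Finset.sum_add_distrib]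
        congr 1
        by_cases hr : r = e j
        · rw [if_pos hr, Finset.sum_eq_single p₀]
          · rw [if_pos ⟨rfl, hr⟩, one_mul]
          · intro p _ hp
            rw [if_neg (fun h => hp h.1), zero_mul]
          · intro h
            exact absurd (Finset.mem_univ _) h
        · rw [if_neg hr]
          refine Finset.sum_eq_zero fun p _ => ?_
          rw [if_neg (fun h => hr h.2), zero_mul]
      have hyj : y (w.symm (e j)) = 0 := hy1 _ (by
        by_contra h3
        exact hkw ((mem_vset w i _).2 (by omega)))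
      have hyp : y p₀ = 0 := by
        have h1 := hy2 _ hkv
        rw [hsum, bs_e, if_pos rfl, hyj, zero_add] at h1
        exact h1
      have hye : ∀ l, y (w.symm (e l)) = 0 := by
        intro l
        rcases lt_trichotomy l j with h | h | h
        · have h1 := hy2 _ (hlt l h)
          rw [hsum, bs_e, if_neg (fun h2 => h.ne (he h2)), add_zero] at h1
          exact h1
        · rw [h]
          exact hyj
        · exact hy1 _ (hgt l h)
      have hz := hξ π (fun q => by rw [hπ]; rfl)
        (fun b => if ∀ j, b ≠ e j then y (w.symm b) else 0) ?_ ?_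
      · funext p
        by_cases hp : ∀ l, w p ≠ e l
        · have h1 := congrFun hz (w p)
          simp only [Pi.zero_apply] at h1
          rw [if_pos hp, Equiv.symm_apply_apply] at h1
          exact h1
        · push Not at hp
          obtain ⟨l, hl⟩ := hp
          have h1 := hye l
          rw [← hl, Equiv.symm_apply_apply] at h1
          exact h1
      · intro b hb
        by_cases hf : ∀ l, b ≠ e l
        · simp only [if_pos hf]
          by_cases hbp : b = w p₀
          · rw [hbp, Equiv.symm_apply_apply]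
            exact hyp
          · refine hy1 _ ?_
            by_contra h
            exact hb (Finset.mem_erase.2 ⟨hbp, (mem_Fr e w i b).2 ⟨by omega, hf⟩⟩)
        · simp only [if_neg hf]
      · intro a ha
        have h1 := (mem_Fr e v i a).1 ha
        have h2 := hy2 a ((mem_vset v i a).2 h1.1)
        rw [hsum, if_neg (h1.2 j), add_zero, bs_f e w π y a h1.2] at h2
        exact h2
  · by_cases hkw : e j ∈ vset w i
    · -- the third case
      obtain ⟨p₀, hp1, hp2, hp3, hG⟩ := L4 hkv hkw
      have hfree : ∀ l, w p₀ ≠ e l := pw4 j p₀ (by omega) hp2 (ne_of_lt hp3)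
      have hnmem : w p₀ ∉ Fr e w i := fun h => by
        have h1 := ((mem_Fr e w i _).1 h).1
        rw [Equiv.symm_apply_apply] at h1
        omega
      have hfB : ∀ a ∈ insert (w p₀) (Fr e w i), ∀ l, a ≠ e l := by
        intro a ha
        rw [Finset.mem_insert] at ha
        rcases ha with ha | ha
        · rw [ha]
          exact hfree
        · exact hfw a ha
      have hG' : Gale (Fr e v i) (insert (w p₀) (Fr e w i)) := by
        have h1 : insert (w p₀) ((vset w i).erase (e j)) =
            insert (w p₀) (Fr e w i) ∪ Es e j := by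
          rw [sw1 hkw]
          ext x
          simp only [Finset.mem_insert, Finset.mem_erase, Finset.mem_union, mem_Es]
          constructor
          · rintro (h | ⟨h1, h2 | h2 | h2⟩)
            · exact Or.inl (Or.inl h)
            · exact Or.inl (Or.inr h2)
            · exact absurd h2 h1
            · exact Or.inr h2
          · rintro ((h | h) | h)
            · exact Or.inl h
            · exact Or.inr ⟨hfw x h j, Or.inl h⟩
            · refine Or.inr ⟨?_, Or.inr (Or.inr h)⟩
              obtain ⟨l, hl, hl'⟩ := h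
              rw [hl']
              exact fun h2 => hl.ne (he h2)
        rw [sv2 hkv, h1] at hG
        exact (hGEQ n _ _ _ (disj1 e j _ hfv) (disj1 e j _ hfB)).1 hG
      have hcard : (Fr e v i).card = (insert (w p₀) (Fr e w i)).card := by
        rw [Finset.card_insert_of_notMem hnmem]
        have h3 := pv3 j i hji hij (fun h => hkv ((mem_vset v i _).2 h))
        have h4 := pw2 j i hji hij ((mem_vset w i _).1 hkw)
        omega
      obtain ⟨q, hq⟩ : ∃ q, q = w.symm (e j) := ⟨_, rfl⟩
      have hwq : w q = e j := by rw [hq]; simp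
      have hqi : (q : ℕ) < i := by rw [hq]; exact (mem_vset w i _).1 hkw
      obtain ⟨ξ, hξ⟩ := hPNT K n m e _ _ hcard hG' hfv
      obtain ⟨π, hπ⟩ : ∃ π : Par n → K,
        π = pr ξ 0 (fun x => if x.1 = q ∧ x.2 = p₀ then 1 else 0) := ⟨_, rfl⟩
      refine ⟨π, hred _ fun y hy1 hy2 => ?_⟩
      have hgm : ∀ r p, gm e w c π r p = bs e w π r p +
          if p = q then SprH.hv e π (w p₀) r else 0 := by
        intro r p
        rw [hπ]
        exact gm3 e w c ξ he j q p₀ hwq (by rw [Fin.lt_def]; omega) hp2 hp3 r p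
      have hsum : ∀ r, ∑ p, gm e w c π r p * y p = ∑ p, bs e w π r p * y p +
          SprH.hv e π (w p₀) r * y q := by
        intro r
        rw [Finset.sum_congr rfl fun p _ => by rw [hgm r p, add_mul], Finset.sum_add_distrib]
        congr 1
        rw [Finset.sum_eq_single q]
        · rw [if_pos rfl]
        · intro p _ hp
          rw [if_neg hp, zero_mul]
        · intro h
          exact absurd (Finset.mem_univ _) h
      have hve : ∀ l, SprH.hv e π (w p₀) (e l) = 0 := by
        intro l
        unfold SprH.hv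
        rw [if_neg (fun h => hfree l h.symm), if_neg (fun h => h.2 l rfl)]
      have hye : ∀ l, l ≠ j → y (w.symm (e l)) = 0 := by
        intro l hlj
        rcases lt_trichotomy l j with h | h | h
        · have h1 := hy2 _ (hlt l h)
          rw [hsum, bs_e, hve, zero_mul, add_zero] at h1
          exact h1
        · exact absurd h hlj
        · exact hy1 _ (hgt l h)
      have hyp : y p₀ = 0 := hy1 _ hp1
      have hz := hξ π (fun q => by rw [hπ]; rfl)
        (fun b => (if ∀ j, b ≠ e j then y (w.symm b) else 0) + if b = w p₀ then y q else 0) ?_ ?_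
      · have hyq : y q = 0 := by
          have h1 := congrFun hz (w p₀)
          simp only [Pi.zero_apply] at h1
          rw [if_pos hfree, Equiv.symm_apply_apply, hyp, zero_add] at h1
          simpa using h1
        funext p
        by_cases hp : ∀ l, w p ≠ e l
        · have h1 := congrFun hz (w p)
          simp only [Pi.zero_apply] at h1
          rw [if_pos hp, Equiv.symm_apply_apply, hyq, ite_self, add_zero] at h1
          exact h1
        · push Not at hp
          obtain ⟨l, hl⟩ := hp
          by_cases hlj : l = j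
          · have h1 : p = q := by rw [hq, ← hlj, ← hl, Equiv.symm_apply_apply]
            rw [h1]
            exact hyq
          · have h1 := hye l hlj
            rw [← hl, Equiv.symm_apply_apply] at h1
            exact h1
      · intro b hb
        rw [Finset.mem_insert] at hb
        push Not at hb
        simp only [if_neg hb.1, add_zero]
        by_cases hf : ∀ l, b ≠ e l
        · simp only [if_pos hf]
          refine hy1 _ ?_
          by_contra h
          exact hb.2 ((mem_Fr e w i b).2 ⟨by omega, hf⟩)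
        · simp only [if_neg hf]
      · intro a ha
        have h1 := (mem_Fr e v i a).1 ha
        have h2 := hy2 a ((mem_vset v i a).2 h1.1)
        rw [hsum, bs_f e w π y a h1.2] at h2
        have h3 : ∑ b, (if b = w p₀ then y q else 0) * SprH.hv e π b a =
            SprH.hv e π (w p₀) a * y q := by
          rw [Finset.sum_eq_single (w p₀)]
          · rw [if_pos rfl, mul_comm]
          · intro b _ hb
            rw [if_neg hb, zero_mul]
          · intro h
            exact absurd (Finset.mem_univ _) h
        simp only [add_mul, Finset.sum_add_distrib]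
        rw [h3]
        exact h2
    · exact case1 (Or.inr ⟨hkv, hkw⟩)

end Pool.Agent.SprH
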