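import Pool.Agent.SprH.St

/-!
# Torus-stable Springer fibres, module GAL: the Gale order from injectivity on coordinates (helper29)
-/

set_option autoImplicit false

namespace Pool.Agent.SprH

theorem t_GAL : M_GAL := by
  classical
  intro hLEA K _ n S A hA hinj t
  -- the elements of `S` supported below `t`
  let S' : Submodule K (Fin n → K) := S ⊓
    { carrier := {x | ∀ i, t ≤ i → x i = 0}
      add_mem' := fun {x y} hx hy l hl => by rw [Pi.add_apply, hx l hl, hy l hl, add_zero]
      zero_mem' := fun _ _ => rfl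
      smul_mem' := fun c x hx l hl => by rw [Pi.smul_apply, hx l hl, smul_zero] }
  have hS' : ∀ x, x ∈ S' ↔ x ∈ S ∧ ∀ i, t ≤ i → x i = 0 := fun x => Iff.rfl
  have h1 : lset S' = (lset S).filter fun b => ¬ t ≤ b := by
    ext b
    rw [Finset.mem_filter, lset, lset, Finset.mem_filter, Finset.mem_filter]
    constructor
    · rintro ⟨-, x, hx, hb⟩
      rw [hS'] at hx
      exact ⟨⟨Finset.mem_univ _, x, hx.1, hb⟩, fun h => hb.1 (hx.2 b h)⟩
    · rintro ⟨⟨-, x, hx, hb⟩, ht⟩
      refine ⟨Finset.mem_univ _, x, (hS' x).2 ⟨hx, fun i hi => hb.2 i (lt_of_lt_of_le (not_le.1 ht) hi)⟩, hb⟩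
  have h2 : Module.finrank K S' ≤ (A.filter fun a => ¬ t ≤ a).card := by
    let φ : S' →ₗ[K] ({a // a ∈ A.filter fun a => ¬ t ≤ a} → K) :=
      { toFun := fun x a => x.1 a.1
        map_add' := fun _ _ => rfl
        map_smul' := fun _ _ => rfl }
    have hφ : Function.Injective φ := by
      rw [← LinearMap.ker_eq_bot, LinearMap.ker_eq_bot']
      intro x hx
      have hx' := (hS' x.1).1 x.2
      apply Subtype.ext
      refine hinj x.1 hx'.1 fun a ha => ?_
      by_cases h : t ≤ a
      · exact hx'.2 a h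
      · exact congrFun hx ⟨a, Finset.mem_filter.2 ⟨ha, h⟩⟩
    have := LinearMap.finrank_le_finrank_of_injective hφ
    rwa [Module.finrank_fintype_fun_eq_card, Fintype.card_coe] at this
  rw [← hLEA, h1] at h2
  have h3 := Finset.card_filter_add_card_filter_not (s := A) (fun x => t ≤ x)
  have h4 := Finset.card_filter_add_card_filter_not (s := lset S) (fun x => t ≤ x)
  have h5 := hLEA K n S
  omega

end Pool.Agent.SprH
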