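import Pool.Agent.SprH.St

/-!
# Torus-stable Springer fibres, module GEQ: the Gale order and common elements (helper29)
-/

set_option autoImplicit false

namespace Pool.Agent.SprH

theorem t_GEQ : S_GEQ := by
  intro n A B C hA hB
  have key : ∀ D : Finset (Fin n), Disjoint D C → ∀ t : Fin n,
      ((D ∪ C).filter fun x => t ≤ x).card =
        (D.filter fun x => t ≤ x).card + (C.filter fun x => t ≤ x).card := by
    intro D hD t
    rw [Finset.filter_union, Finset.card_union_of_disjoint (Finset.disjoint_filter_filter hD)]
  unfold Gale
  refine forall_congr' fun t => ?_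
  rw [key A hA, key B hB]
  omega

end Pool.Agent.SprH
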