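import Pool.Agent.SprH.St

/-!
# Torus-stable Springer fibres, module LEA: the number of leading indices (helper29)
-/

set_option autoImplicit false

namespace Pool.Agent.SprH

theorem t_LEA : S_LEA := by
  classical
  intro K _ n S
  have hex : ∀ b : {b // b ∈ lset S}, ∃ x ∈ S, Lead x b.1 := fun b =>
    (Finset.mem_filter.1 b.2).2
  choose s hs hl using hex
  have hli : LinearIndependent K (fun b => (⟨s b, hs b⟩ : S)) := by
    rw [Fintype.linearIndependent_iff]
    intro g hg
    by_contra hcon
    push Not at hcon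
    obtain ⟨b0, hb0⟩ := hcon
    -- the largest index with nonzero coefficient
    have hne : (Finset.univ.filter fun b => g b ≠ 0).Nonempty :=
      ⟨b0, Finset.mem_filter.2 ⟨Finset.mem_univ _, hb0⟩⟩
    obtain ⟨b, hb, hmax⟩ := Finset.exists_max_image _ (fun b : {b // b ∈ lset S} => b.1) hne
    have h1 : (∑ i, g i • s i) = 0 := by
      have := congrArg Subtype.val hg
      rw [Submodule.coe_zero] at this
      rw [← this]
      simp
    have h2 := congrFun h1 b.1
    rw [Finset.sum_apply, Finset.sum_eq_single b] at h2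
    · rw [Pi.smul_apply, smul_eq_mul, Pi.zero_apply, mul_eq_zero] at h2
      rcases h2 with h2 | h2
      · exact (Finset.mem_filter.1 hb).2 h2
      · exact (hl b).1 h2
    · intro b' _ hbb
      rw [Pi.smul_apply, smul_eq_mul]
      by_cases hg' : g b' = 0
      · rw [hg', zero_mul]
      · have h3 := hmax b' (Finset.mem_filter.2 ⟨Finset.mem_univ _, hg'⟩)
        have h4 : b'.1 < b.1 := lt_of_le_of_ne h3 fun h => hbb (Subtype.ext h)
        rw [(hl b').2 _ h4, mul_zero]
    · intro h
      exact absurd (Finset.mem_univ _) h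
  have hsp : ∀ N : ℕ, ∀ x ∈ S, (∀ i : Fin n, N ≤ (i : ℕ) → x i = 0) →
      x ∈ Submodule.span K (Set.range s) := by
    intro N
    induction N with
    | zero =>
      intro x _ hx
      have : x = 0 := funext fun i => hx i (Nat.zero_le _)
      rw [this]
      exact Submodule.zero_mem _
    | succ N ih =>
      intro x hxS hx
      by_cases hN : N < n
      swap
      · exact ih x hxS fun i hi => absurd i.2 (by omega)
      by_cases h0 : x ⟨N, hN⟩ = 0
      · refine ih x hxS fun i hi => ?_
        by_cases h : (i : ℕ) = N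
        · rw [← h0]
          congr 1
          exact Fin.ext h
        · exact hx i (by omega)
      · have hb : (⟨N, hN⟩ : Fin n) ∈ lset S :=
          Finset.mem_filter.2 ⟨Finset.mem_univ _, x, hxS, h0, fun i hi => hx i hi⟩
        obtain ⟨c, hc⟩ : ∃ c : K, c = x ⟨N, hN⟩ / s ⟨_, hb⟩ ⟨N, hN⟩ := ⟨_, rfl⟩
        have h1 : x - c • s ⟨_, hb⟩ ∈ Submodule.span K (Set.range s) := by
          refine ih _ (S.sub_mem hxS (S.smul_mem _ (hs _))) fun i hi => ?_
          rw [Pi.sub_apply, Pi.smul_apply, smul_eq_mul]
          by_cases h : (i : ℕ) = N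
          · have : i = ⟨N, hN⟩ := Fin.ext h
            rw [this, hc, div_mul_cancel₀ _ (hl ⟨_, hb⟩).1, sub_self]
          · rw [hx i (by omega), (hl ⟨_, hb⟩).2 i (show N < (i : ℕ) by omega), mul_zero, sub_zero]
        have h2 : x = (x - c • s ⟨_, hb⟩) + c • s ⟨_, hb⟩ := by abel
        rw [h2]
        exact Submodule.add_mem _ h1 (Submodule.smul_mem _ _ (Submodule.subset_span ⟨_, rfl⟩))
  have hspan : ⊤ ≤ Submodule.span K (Set.range fun b => (⟨s b, hs b⟩ : S)) := by
    rintro ⟨x, hx⟩ -
    have h1 := hsp n x hx fun i hi => absurd i.2 (by omega)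
    have h2 : Set.range s = S.subtype '' (Set.range fun b => (⟨s b, hs b⟩ : S)) := by
      rw [← Set.range_comp]
      rfl
    rw [h2, Submodule.span_image] at h1
    obtain ⟨y, hy, hyx⟩ := h1
    have : y = ⟨x, hx⟩ := Subtype.ext hyx
    rwa [this] at hy
  have := Module.finrank_eq_card_basis (Module.Basis.mk hli hspan)
  rw [this, Fintype.card_coe]

end Pool.Agent.SprH
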