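import Pool.Agent.SprH.P_NEC

/-!
# Torus-stable Springer fibres, module LEV: necessity of the condition at one level
-/

set_option autoImplicit false

open Matrix

namespace Pool.Agent.SprH

open Pool.Agent.SprJ

namespace LEV

section

variable {K : Type} [Field K] {n m : ℕ}

theorem mem_vset (v : Equiv.Perm (Fin n)) (i : ℕ) (x : Fin n) :
    x ∈ vset v i ↔ ((v.symm x : Fin n) : ℕ) < i := by
  unfold vset
  rw [Finset.mem_filter, and_iff_right (Finset.mem_univ _)]

theorem card_vset (v : Equiv.Perm (Fin n)) (i : ℕ) (hi : i ≤ n) : (vset v i).card = i := by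
  have h1 : vset v i = (Finset.univ.filter fun a : Fin n => (a : ℕ) < i).map v.toEmbedding := by
    ext x
    rw [mem_vset, Finset.mem_map_equiv, Finset.mem_filter, and_iff_right (Finset.mem_univ _)]
  rw [h1, Finset.card_map, Fin.card_filter_val_lt]
  omega

theorem mem_lset (S : Submodule K (Fin n → K)) (b : Fin n) : b ∈ lset S ↔ ∃ x ∈ S, Lead x b := by
  unfold lset
  simp only [Finset.mem_filter, Finset.mem_univ, true_and]

theorem lset_mono {S T : Submodule K (Fin n → K)} (h : S ≤ T) : lset S ⊆ lset T := by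
  intro b hb
  rw [mem_lset] at hb ⊢
  obtain ⟨x, hx, hl⟩ := hb
  exact ⟨x, h hx, hl⟩

/-- a space which injects on the coordinates in `A` -/
theorem finrank_le_card (S : Submodule K (Fin n → K)) (A : Finset (Fin n))
    (h : ∀ x ∈ S, (∀ a ∈ A, x a = 0) → x = 0) : Module.finrank K S ≤ A.card := by
  let f : S →ₗ[K] (A → K) := LinearMap.pi fun a => (LinearMap.proj a.1).comp S.subtype
  have hf : Function.Injective f := by
    rw [← LinearMap.ker_eq_bot, LinearMap.ker_eq_bot']
    intro x hx
    apply Subtype.ext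
    refine h x.1 x.2 fun a ha => ?_
    exact congrFun hx ⟨a, ha⟩
  have h1 := LinearMap.finrank_le_finrank_of_injective hf
  rw [Module.finrank_pi, Fintype.card_coe] at h1
  exact h1

/-- the elements with `k`-coordinate `0` -/
theorem finrank_ker_le (S : Submodule K (Fin n → K)) (k : Fin n) :
    Module.finrank K S ≤
      Module.finrank K (S ⊓ LinearMap.ker (LinearMap.proj k : (Fin n → K) →ₗ[K] K) :
        Submodule K (Fin n → K)) + 1 := by
  have h1 := Submodule.finrank_sup_add_finrank_inf_eq S
    (LinearMap.ker (LinearMap.proj k : (Fin n → K) →ₗ[K] K))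
  have h2 := LinearMap.finrank_range_add_finrank_ker (LinearMap.proj k : (Fin n → K) →ₗ[K] K)
  have h3 := Submodule.finrank_le
    (S ⊔ LinearMap.ker (LinearMap.proj k : (Fin n → K) →ₗ[K] K))
  have h4 := Submodule.finrank_le (LinearMap.range (LinearMap.proj k : (Fin n → K) →ₗ[K] K))
  rw [Module.finrank_self] at h4
  omega

/-- the map which removes the coordinate `k` -/
noncomputable def rho (k : Fin n) : (Fin n → K) →ₗ[K] (Fin n → K) :=
  LinearMap.id - (LinearMap.single K (fun _ => K) k).comp (LinearMap.proj k)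

theorem rho_eq (k : Fin n) (x : Fin n → K) : rho k x = x - x k • Pi.single k (1 : K) := by
  unfold rho
  rw [LinearMap.sub_apply, LinearMap.id_apply, LinearMap.comp_apply, LinearMap.proj_apply,
    LinearMap.single_apply, ← Pi.single_smul, smul_eq_mul, mul_one]

theorem rho_same (k : Fin n) (x : Fin n → K) : rho k x k = 0 := by
  rw [rho_eq, Pi.sub_apply, Pi.smul_apply, Pi.single_eq_same, smul_eq_mul, mul_one, sub_self]

theorem rho_ne (k : Fin n) (x : Fin n → K) (a : Fin n) (h : a ≠ k) : rho k x a = x a := by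
  rw [rho_eq, Pi.sub_apply, Pi.smul_apply, Pi.single_eq_of_ne h, smul_zero, sub_zero]

end

end LEV

open LEV in
theorem t_LEV : M_LEV := by
  intro hFLD hLST hLEA hGAL hGEQ hPST K _ n m e v w c b b' he hb hb' hv hw hZ j i hi1 hi2 hmn
  have hdet : IsUnit (b * perm K w * b').det := by
    rw [Matrix.det_mul, Matrix.det_mul]
    exact (hb.2.mul (det_perm_unit w)).mul hb'.2
  have hlset := hLST K n w b b' hb hb'
  obtain ⟨g, hg⟩ : ∃ g, g = b * perm K w * b' := ⟨_, rfl⟩
  rw [← hg] at hdet hlset hZ hmn
  obtain ⟨hdim, hmono, -, -, -, -, hinj, -⟩ := hFLD K n g hdet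
  have hcm : c (j + 1) ≤ n := by
    have h := (hPST n m e v c he hZ.1 hZ.2.1 hv).2.2.2.2.1 (j + 1) m j.2 le_rfl
    rwa [hZ.2.1] at h
  have hin : i ≤ n := hi2.trans hcm
  have hinj' := hinj v i hmn
  have cv := card_vset v i hin
  have cw := card_vset w i hin
  obtain ⟨k, hk⟩ : ∃ k, k = e j := ⟨_, rfl⟩
  rw [← hk]
  have hmain : Gale (vset v i) (vset w i) := by
    have h := hGAL K n (Fl g i) (vset v i) (by rw [cv, hdim i hin]) hinj'
    rwa [hlset] at h
  refine ⟨fun _ _ => hmain, fun _ _ => hmain, fun hkv hkw => ?_, fun hkv hkw => ?_⟩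
  · -- `k` in `v[i]` only
    obtain ⟨H, hH⟩ : ∃ H, H = Fl g i ⊓ LinearMap.ker (LinearMap.proj k : (Fin n → K) →ₗ[K] K) :=
      ⟨_, rfl⟩
    have memH : ∀ x, x ∈ H ↔ x ∈ Fl g i ∧ x k = 0 := by
      intro x
      rw [hH, Submodule.mem_inf, LinearMap.mem_ker, LinearMap.proj_apply]
    have hHinj : ∀ x ∈ H, (∀ a ∈ (vset v i).erase k, x a = 0) → x = 0 := by
      intro x hx h
      rw [memH] at hx
      refine hinj' x hx.1 fun a ha => ?_
      by_cases hak : a = k
      · rw [hak, hx.2]
      · exact h a (Finset.mem_erase.2 ⟨hak, ha⟩)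
    have ce : ((vset v i).erase k).card = i - 1 := by
      rw [Finset.card_erase_of_mem hkv, cv]
    have hi0 : 0 < i := by
      rw [← cv]
      exact Finset.card_pos.2 ⟨k, hkv⟩
    have hdH : Module.finrank K H = i - 1 := by
      have h1 := finrank_le_card H _ hHinj
      have h2 := finrank_ker_le (Fl g i) k
      rw [← hH, hdim i hin] at h2
      omega
    have hG := hGAL K n H ((vset v i).erase k) (by rw [ce, hdH]) hHinj
    have hHle : H ≤ Fl g i := by
      intro x hx
      exact ((memH x).1 hx).1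
    have hsub : lset H ⊆ vset w i := by
      have h := lset_mono hHle
      rwa [hlset] at h
    have hc1 : (vset w i \ lset H).card = 1 := by
      rw [Finset.card_sdiff_of_subset hsub, cw, hLEA K n H, hdH]
      omega
    obtain ⟨a, ha⟩ := Finset.card_eq_one.1 hc1
    have haw : a ∈ vset w i \ lset H := by
      rw [ha]
      exact Finset.mem_singleton_self a
    rw [Finset.mem_sdiff] at haw
    have hlH : lset H = (vset w i).erase a := by
      rw [Finset.erase_eq, ← ha, Finset.sdiff_sdiff_eq_self hsub]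
    have hkH : k ∉ lset H := fun h => hkw (hsub h)
    have hp : w (w.symm a) = a := w.apply_symm_apply a
    refine ⟨w.symm a, ?_, (mem_vset w i a).1 haw.1, ?_, ?_⟩
    · by_contra hlt
      have h1 : a ∈ vset w (c j) := (mem_vset w (c j) a).2 (not_le.1 hlt)
      have h2 : Fl g (c j) ≤ H := by
        intro x hx
        rw [memH]
        exact ⟨hmono _ _ hi1 hx, by rw [hk]; exact (hZ.2.2 j j j.2.le).2 le_rfl x hx⟩
      have h3 := lset_mono h2
      rw [hlset] at h3
      exact haw.2 (h3 h1)
    · rw [hp]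
      by_contra hlt
      rcases lt_or_eq_of_le (not_lt.1 hlt) with h1 | h1
      · have h2 : a ∈ lset (Fl g i) := by
          rw [hlset]
          exact haw.1
        obtain ⟨x, hx, hl⟩ := (mem_lset _ _).1 h2
        exact haw.2 ((mem_lset _ _).2 ⟨x, (memH x).2 ⟨hx, hl.2 k h1⟩, hl⟩)
      · rw [h1] at haw
        exact hkw haw.1
    · rw [hp, ← hlH]
      have h1 := (hGEQ n ((vset v i).erase k) (lset H) {k}
        (Finset.disjoint_singleton_right.2 (Finset.notMem_erase k _))
        (Finset.disjoint_singleton_right.2 hkH)).2 hG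
      have h2 : (vset v i).erase k ∪ {k} = vset v i := by
        rw [Finset.union_comm, ← Finset.insert_eq, Finset.insert_erase hkv]
      rw [h2, Finset.union_comm, ← Finset.insert_eq] at h1
      exact h1
  · -- `k` in `w[i]` only
    obtain ⟨S, hS⟩ : ∃ S, S = (Fl g i).map (rho k) := ⟨_, rfl⟩
    have hne : ∀ a ∈ vset v i, a ≠ k := by
      rintro a ha rfl
      exact hkv ha
    have hdS : Module.finrank K S = i := by
      have h1 : Function.Injective ((rho k).domRestrict (Fl g i)) := by
        rw [← LinearMap.ker_eq_bot, LinearMap.ker_eq_bot']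
        intro x hx
        apply Subtype.ext
        refine hinj' x.1 x.2 fun a ha => ?_
        rw [← rho_ne k x.1 a (hne a ha)]
        exact congrFun hx a
      have h2 := LinearMap.finrank_range_of_inj h1
      rw [LinearMap.range_domRestrict, ← hS, hdim i hin] at h2
      exact h2
    have hSinj : ∀ x ∈ S, (∀ a ∈ vset v i, x a = 0) → x = 0 := by
      intro x hx h
      rw [hS] at hx
      obtain ⟨y, hy, rfl⟩ := hx
      rw [hinj' y hy fun a ha => by
        rw [← rho_ne k y a (hne a ha)]
        exact h a ha, map_zero]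
    have hG := hGAL K n S (vset v i) (by rw [cv, hdS]) hSinj
    have hi0 : 0 < i := by
      rw [← cw]
      exact Finset.card_pos.2 ⟨k, hkw⟩
    have hsub : (vset w i).erase k ⊆ lset S := by
      intro a ha
      rw [Finset.mem_erase, ← hlset, mem_lset] at ha
      obtain ⟨hak, x, hx, hl⟩ := ha
      rw [mem_lset]
      refine ⟨rho k x, ?_, ?_, fun r hr => ?_⟩
      · rw [hS]
        exact Submodule.mem_map_of_mem hx
      · rw [rho_ne k x a hak]
        exact hl.1
      · by_cases hrk : r = k
        · rw [hrk, rho_same]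
        · rw [rho_ne k x r hrk]
          exact hl.2 r hr
    have ce : ((vset w i).erase k).card = i - 1 := by
      rw [Finset.card_erase_of_mem hkw, cw]
    have hc1 : (lset S \ (vset w i).erase k).card = 1 := by
      rw [Finset.card_sdiff_of_subset hsub, ce, hLEA K n S, hdS]
      omega
    obtain ⟨μ, hμ⟩ := Finset.card_eq_one.1 hc1
    have hμS : μ ∈ lset S \ (vset w i).erase k := by
      rw [hμ]
      exact Finset.mem_singleton_self μ
    rw [Finset.mem_sdiff] at hμS
    have hlS : lset S = insert μ ((vset w i).erase k) := by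
      rw [Finset.insert_eq, ← hμ, Finset.sdiff_union_of_subset hsub]
    obtain ⟨x', hx', hl'⟩ := (mem_lset _ _).1 hμS.1
    rw [hS] at hx'
    obtain ⟨x, hx, rfl⟩ := hx'
    have hμk : μ ≠ k := by
      rintro rfl
      exact hl'.1 (rho_same μ x)
    have hμw : μ ∉ vset w i := fun h => hμS.2 (Finset.mem_erase.2 ⟨hμk, h⟩)
    have hSle : S ≤ Fl g (c (j + 1)) := by
      rw [hS]
      rintro _ ⟨y, hy, rfl⟩
      rw [rho_eq]
      refine Submodule.sub_mem _ (hmono _ _ hi2 hy) (Submodule.smul_mem _ _ ?_)
      rw [hk]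
      exact (hZ.2.2 (j + 1) j j.2).1 (Nat.lt_succ_self _)
    have hp : w (w.symm μ) = μ := w.apply_symm_apply μ
    refine ⟨w.symm μ, ?_, ?_, ?_, ?_⟩
    · by_contra hlt
      exact hμw ((mem_vset w i μ).2 (not_le.1 hlt))
    · have h3 := lset_mono hSle
      rw [hlset] at h3
      exact (mem_vset w _ μ).1 (h3 hμS.1)
    · rw [hp]
      by_contra hlt
      have h1 : k < μ := lt_of_le_of_ne (not_lt.1 hlt) hμk.symm
      apply hμw
      rw [← hlset, mem_lset]
      refine ⟨x, hx, ?_, fun r hr => ?_⟩
      · rw [← rho_ne k x μ hμk]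
        exact hl'.1
      · rw [← rho_ne k x r (ne_of_gt (h1.trans hr))]
        exact hl'.2 r hr
    · rw [hp, ← hlS]
      exact hG

end Pool.Agent.SprH
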