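import Pool.Agent.SprH.Defs

/-!
# Springer Schubert cells of nilpotent matrices with torus-stable Springer fibre (MP_3a0658_ag): statements of the modules

THEOREM (`S_FIN`). Let `K` be an infinite field, `X` a nilpotent `n × n` matrix, `n > 0`. (A) The Springer fibre `S_X` is stable under the diagonal torus
if and only if `Hook X e` for some `e` (one Jordan block of size `m ≥ 1`, all others of size `1`, in triangular form on the basis vectors
`e 0, …, e (m - 1)`). (B) For these `X` and all `v, w`: `vB` is in the closure of `C_w ∩ S_X` iff there are cuts `c` with `Crit e v w c`; the same for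
`u X u⁻¹`, `u ∈ B ∩ v B v⁻¹`. (For `X = 0`, `m = 1`: the Bruhat order.)

Architect helper29. (B) was checked by brute force (all flags over `F_5`, `n ≤ 4`, over `F_3`, `n = 5`).

Module `X` proves `theorem t_X : S_X` or `M_X` (the hypotheses of `M_X` are statements of other modules), in the namespace
`Pool.Agent.SprH`, file `Pool/Agent/SprH/P_X.lean`, which imports this file. Notation: `V_i = Fl g i` (span of the first `i` columns of
`g`), `pos_v k = v.symm k`, `F` = the indices which are not of the form `e j` (free), `E_j = ⟨e 0, …, e (j - 1)⟩`. All matrices are over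
a field `K : Type`.
-/

set_option autoImplicit false

open Matrix

namespace Pool.Agent.SprH

open Pool.Agent.SprJ

/-! ## Flags -/

/-- FLD. Flags. `Fl g i` is the image of `Y_i = {y | y_l = 0 for l ≥ i}` under the injective `g.mulVecLin`. (1) `dim Y_i = i`. (2), (3), (4), (5) clear.
(6) `b Y_i = Y_i` for `b` upper triangular and invertible (`b Y_i ⊆ Y_i` and dimensions). (7) `x = g y`, `y ∈ Y_i`: for `a < i` the coordinate
`v a` of `x` is `∑_(b < i) g (v a) b * y b`; these are `0`, the matrix has determinant `mn v g i ≠ 0` (`Matrix.eq_zero_of_mulVec_eq_zero`), so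
`y = 0`. (8) the converse: the kernel of the matrix is `0` (`Matrix.exists_mulVec_eq_zero_iff`). -/
def S_FLD : Prop := ∀ (K : Type) [Field K] (n : ℕ) (g : Matrix (Fin n) (Fin n) K), IsUnit g.det →
  (∀ i, i ≤ n → Module.finrank K (Fl g i) = i) ∧
  (∀ i j, i ≤ j → Fl g i ≤ Fl g j) ∧
  (∀ (i : ℕ) (l : Fin n), (l : ℕ) < i → (fun r => g r l) ∈ Fl g i) ∧
  (∀ i, n ≤ i → Fl g i = ⊤) ∧
  Fl g 0 = ⊥ ∧
  (∀ b : Matrix (Fin n) (Fin n) K, Borel b → ∀ i, Fl (g * b) i = Fl g i) ∧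
  (∀ (v : Equiv.Perm (Fin n)) (i : ℕ), mn v g i ≠ 0 → ∀ x ∈ Fl g i, (∀ a ∈ vset v i, x a = 0) → x = 0) ∧
  (∀ (v : Equiv.Perm (Fin n)) (i : ℕ), (∀ y : Fin n → K, (∀ l : Fin n, i ≤ (l : ℕ) → y l = 0) →
    (∀ a ∈ vset v i, (g *ᵥ y) a = 0) → y = 0) → mn v g i ≠ 0)

/-- STB. Stability. `Y = g⁻¹ X g`, `X g = g Y`. (1) `X (g y) = g (Y y)`, and `Y y ∈ Y_i` for `y ∈ Y_i` if `Y` is upper triangular; conversely `i = l + 1`
and the column `l` of `g` give `Y_(r l) = 0` for `r > l`. (2) `Y` is nilpotent and upper triangular, so `Y_(l l) ^ N = (Y ^ N)_(l l) = 0` and `Y` is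
strictly upper triangular. -/
def S_STB : Prop := ∀ (K : Type) [Field K] (n : ℕ) (X g : Matrix (Fin n) (Fin n) K), IsUnit g.det →
  (InSpringer X g ↔ ∀ i, ∀ x ∈ Fl g i, X *ᵥ x ∈ Fl g i) ∧
  (IsNilpotent X → InSpringer X g → ∀ i, ∀ x ∈ Fl g (i + 1), X *ᵥ x ∈ Fl g i)

/-- LST. Leading indices in a Schubert cell. `g = b perm(w) b'`. `x ∈ Fl g i` iff `x = b z` with `z` supported on `w 0, …, w (i - 1)`
(`b' Y_i = Y_i`); `b` is upper triangular with nonzero diagonal, so the leading index of `b z` is the last index of `z`. Conversely `b e_(w p)` has the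
leading index `w p`. -/
def S_LST : Prop := ∀ (K : Type) [Field K] (n : ℕ) (w : Equiv.Perm (Fin n))
  (b b' : Matrix (Fin n) (Fin n) K), Borel b → Borel b' → ∀ i, lset (Fl (b * perm K w * b') i) = vset w i

/-- LEA. The number of leading indices is the dimension. Choose `s_b ∈ S` with the leading index `b` for `b ∈ lset S`. They are linearly independent (the
largest `b` with nonzero coefficient) and span `S` (for `x ∈ S`, by strong induction on the leading index `b` of `x`: `x - (x b / s_b b) s_b` is `0` or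
has a smaller leading index). -/
def S_LEA : Prop := ∀ (K : Type) [Field K] (n : ℕ) (S : Submodule K (Fin n → K)),
  (lset S).card = Module.finrank K S

/-- GAL. For `t` let `S' = {x ∈ S | x_i = 0 for i ≥ t}`. `lset S' = {b ∈ lset S | b < t}` (an element with leading index `b < t` is in `S'`), so
`#{b ∈ lset S | b < t} = dim S'` (LEA). `S'` injects into the functions on `{a ∈ A | a < t}`, so `dim S' ≤ #{a ∈ A | a < t}`. Subtract from
`#A = dim S = #(lset S)`. -/
def S_GAL : Prop := ∀ (K : Type) [Field K] (n : ℕ) (S : Submodule K (Fin n → K)) (A : Finset (Fin n)),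
  A.card = Module.finrank K S → (∀ x ∈ S, (∀ a ∈ A, x a = 0) → x = 0) → Gale A (lset S)

def M_GAL : Prop := S_LEA → S_GAL

/-! ## Combinatorics of positions -/

/-- GEQ. Common elements: count. -/
def S_GEQ : Prop := ∀ (n : ℕ) (A B C : Finset (Fin n)), Disjoint A C → Disjoint B C → (Gale (A ∪ C) (B ∪ C) ↔ Gale A B)

/-- PST. Positions. Let `c_j ≤ i ≤ c_(j+1)`. By `Pos`, `e l` with `l < j` is at a position `< c_j ≤ i`, `e l` with `l > j` is at a position `≥ c_(j+1) ≥ i`.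
(1) So `v 0, …, v (i - 1)` are the free ones (`Fr`), `e 0, …, e (j - 1)`, and `e j` if its position is `< i`. (2), (3) cardinalities (`#vset v i = i`,
`i ≤ c_(j+1) ≤ n`). (4) a `p` with `c_j ≤ p < c_(j+1)` and `v p ≠ e j` is free. (5) `c_j ≤ pos_v (e j) < c_(j+1)`. (6) the last `j < m` with `c_j ≤ i`. -/
def S_PST : Prop := ∀ (n m : ℕ) (e : Fin m → Fin n) (v : Equiv.Perm (Fin n)) (c : ℕ → ℕ), Function.Injective e →
  c 0 = 0 → c m = n → Pos e v c →
  (∀ (j : Fin m) (i : ℕ), c j ≤ i → i ≤ c (j + 1) → ∀ x, x ∈ vset v i ↔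
    (x ∈ Fr e v i ∨ (∃ l : Fin m, l < j ∧ x = e l) ∨ (x = e j ∧ ((v.symm (e j) : Fin n) : ℕ) < i))) ∧
  (∀ (j : Fin m) (i : ℕ), c j ≤ i → i ≤ c (j + 1) → ((v.symm (e j) : Fin n) : ℕ) < i →
    (Fr e v i).card + (j : ℕ) + 1 = i) ∧
  (∀ (j : Fin m) (i : ℕ), c j ≤ i → i ≤ c (j + 1) → ¬ ((v.symm (e j) : Fin n) : ℕ) < i →
    (Fr e v i).card + (j : ℕ) = i) ∧
  (∀ (j : Fin m) (p : Fin n), c j ≤ p → (p : ℕ) < c (j + 1) → v p ≠ e j → ∀ l, v p ≠ e l) ∧
  (∀ j l : ℕ, j ≤ l → l ≤ m → c j ≤ c l) ∧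
  (0 < m → ∀ i : ℕ, i ≤ n → ∃ j : Fin m, c j ≤ i ∧ i ≤ c (j + 1))

/-! ## The Springer fibre -/

/-- CUT. The cuts of a flag in `S_X`. By STB `X V_(i+1) ⊆ V_i`. (a) Let `u ∈ V_(i+1)` have a nonzero coordinate at some `e l`; let `l` be the last one.
`X u = ∑_(j ≤ l) u_(e j) X e_(e j)` has nonzero coordinate at `e (l - 1)` (`Hook.nz`, `Hook.low`), and all its other coordinates are at the `e l'`,
`l' < l - 1`. So `X u, X² u, …, X^l u` are in `V_i` and span `E_l` (triangular): `E_l ≤ V_i`. (b) For `0 < j < m` let `c_j` be the largest `i ≤ n`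
such that the elements of `V_i` have no coordinates `e j, …, e (m - 1)`; `c_0 = 0`, `c_m = n`. `c_j < n` for `j < m`. For `0 < j < m`
there is `u ∈ V_(c_j + 1)` with a nonzero coordinate `e l`, `l ≥ j`; `l` the last one; by (a) `E_l ≤ V_(c_j)`, so `l = j` (an element of `V_(c_j)` has no coordinate
`e (l - 1)` if `l - 1 ≥ j`): `E_j ≤ V_(c_j)`. For `j = 0` nothing, for `j = m` `V_n` is everything (`FLD`). -/
def S_CUT : Prop := ∀ (K : Type) [Field K] (n m : ℕ) (X g : Matrix (Fin n) (Fin n) K) (e : Fin m → Fin n), Hook X e →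
  IsNilpotent X → IsUnit g.det → InSpringer X g → ∃ c : ℕ → ℕ, InZ e c g

def M_CUT : Prop := S_FLD → S_STB → S_CUT

/-- CZS. For `i ≤ n` there is `j < m` with `c_j ≤ i ≤ c_(j+1)` (the last `j` with `c_j ≤ i`, `j < m`; `c_0 = 0`, `c_m = n`). An `x ∈ V_i ≤ V_(c_(j+1))` has
no coordinates `e l`, `l ≥ j + 1`, so `X x ∈ E_j ≤ V_(c_j) ≤ V_i` (`Hook.out`, `Hook.low`). For `i ≥ n` `V_i` is everything. STB (1). -/
def S_CZS : Prop := ∀ (K : Type) [Field K] (n m : ℕ) (X g : Matrix (Fin n) (Fin n) K) (e : Fin m → Fin n) (c : ℕ → ℕ),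
  Hook X e → IsUnit g.det → InZ e c g → InSpringer X g

def M_CZS : Prop := S_FLD → S_STB → S_CZS

/-- TOR. `Fl (D g) i` is the image of `Fl g i` under `D = diagonal d`; `D e_k = d_k e_k`. So `InZ` for `g` gives `InZ` for `D g` with the same cuts. CUT, CZS. -/
def S_TOR : Prop := ∀ (K : Type) [Field K] (n m : ℕ) (X : Matrix (Fin n) (Fin n) K) (e : Fin m → Fin n), Hook X e →
  IsNilpotent X → TStable X

def M_TOR : Prop := S_CUT → S_CZS → S_TOR

/-! ## Necessity -/

/-- NMN. The polynomial `∏_(i ≤ n) mn v (generic matrix) i` (matrix of the variables `MvPolynomial.X (r, p)`; evaluation: `RingHom.map_det`) has the value `1`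
at `perm K v` (`perm K v (v a) b` is the identity matrix), so by `InClosure` it does not vanish on the whole `Cell X w`. -/
def S_NMN : Prop := ∀ (K : Type) [Field K] (n : ℕ) (X : Matrix (Fin n) (Fin n) K) (v w : Equiv.Perm (Fin n)),
  InClosure X v w → ∃ b b' : Matrix (Fin n) (Fin n) K, Borel b ∧ Borel b' ∧ InSpringer X (b * perm K w * b') ∧
    ∀ i, i ≤ n → mn v (b * perm K w * b') i ≠ 0

/-- NPO. Positions. `g = b perm(w) b'`, `lset V_i = vset w i` (LST). For `j < m` `c_j < n` (`V_n` is everything, and contains `e_(e j)`). `w`: if `l < j` then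
`e_(e l) ∈ V_(c_j)` has the leading index `e l`, so `e l ∈ vset w c_j`; if `l ≥ j` and `e l ∈ vset w c_j`, some `x ∈ V_(c_j)` has the leading index `e l`, so
`x (e l) ≠ 0`, a contradiction. `v`: if `l < j` and `e l` is not in `vset v c_j`, then `e_(e l) ∈ V_(c_j)` has no coordinates in `vset v c_j`, so it is `0`
(FLD 7), a contradiction. If `l ≥ j` and `e l ∈ vset v c_j`: the restriction of `V_(c_j)` to `vset v c_j` is injective and the dimensions are equal
(`c_j`), so some `x ∈ V_(c_j)` has `x (e l) = 1`, a contradiction. -/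
def S_NPO : Prop := ∀ (K : Type) [Field K] (n m : ℕ) (e : Fin m → Fin n) (v w : Equiv.Perm (Fin n)) (c : ℕ → ℕ)
  (b b' : Matrix (Fin n) (Fin n) K), Function.Injective e → Borel b → Borel b' → InZ e c (b * perm K w * b') →
  (∀ i, i ≤ n → mn v (b * perm K w * b') i ≠ 0) → Pos e v c ∧ Pos e w c

def M_NPO : Prop := S_FLD → S_LST → S_NPO

/-- LEV. Necessity of the condition at the level `i`. `V_i = Fl g i`, `g = b perm(w) b'`, `k = e j`, `v[i] = vset v i`, `w[i] = vset w i = lset V_i` (LST), `dim V_i = i`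
(`i ≤ c_(j+1) ≤ n`: PST 5), an element of `V_i` without coordinates in `v[i]` is `0` (FLD 7). (1) So `Gale v[i] w[i]` by GAL: the first two cases. (2)
`k ∈ v[i]`, `k ∉ w[i]`: `H = {x ∈ V_i | x_k = 0}`; `H ≠ V_i`, otherwise `V_i` injects on `v[i] - k`, so `i ≤ i - 1`; `dim H = i - 1`; `H` injects on `v[i] - k`: `Gale (v[i] - k) (lset H)`.
`lset H ⊆ w[i]` has `i - 1` elements (LEA), so it is `w[i] - w p`, `p < i`; add `k` to both sides (GEQ). `c_j ≤ p`: the elements of `V_(c_j)` have no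
coordinate `e j = k` (`InZ`), so `V_(c_j) ≤ H`, `w[c_j] ⊆ lset H`. `k < w p`: otherwise `w p < k` (`w p ≠ k` as `k ∉ w[i]`), and an `x ∈ V_i` with leading index `w p` has
`x_k = 0`, so it is in `H`, a contradiction. (3) `k ∈ w[i]`, `k ∉ v[i]`: `ρ x = x - x_k e_k`. `e_k ∈ V_(c_(j+1))` (`InZ`), so `ρ V_i ≤ V_(c_(j+1))`. `ρ x` and `x` agree on
`v[i]`, so `ρ` is injective on `V_i` and `ρ V_i` injects on `v[i]`: `dim ρ V_i = i`, `Gale v[i] (lset (ρ V_i))`. If `x ∈ V_i` has the leading index `a ≠ k` then so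
has `ρ x` (if `a < k`, `ρ x = x`): `w[i] - k ⊆ lset (ρ V_i)`, and there is exactly one more element `μ`; `μ ≠ k` (`(ρ x)_k = 0`), `μ ∈ lset V_(c_(j+1)) = w[c_(j+1)]`,
`μ ∉ w[i]`, so `μ = w p`, `i ≤ p < c_(j+1)`; `μ < k`, because if `ρ x` has the leading index `μ > k` then so has `x`, and `μ ∈ w[i]`. -/
def S_LEV : Prop := ∀ (K : Type) [Field K] (n m : ℕ) (e : Fin m → Fin n) (v w : Equiv.Perm (Fin n)) (c : ℕ → ℕ)
  (b b' : Matrix (Fin n) (Fin n) K), Function.Injective e → Borel b → Borel b' → Pos e v c → Pos e w c →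
  InZ e c (b * perm K w * b') → ∀ (j : Fin m) (i : ℕ), c j ≤ i → i ≤ c (j + 1) →
    mn v (b * perm K w * b') i ≠ 0 → Level v w (e j) (c j) (c (j + 1)) i

def M_LEV : Prop := S_FLD → S_LST → S_LEA → S_GAL → S_GEQ → S_PST → S_LEV

/-- NEC. NMN, CUT, NPO, LEV. (`c_(j+1) ≤ c_m = n`: PST.) -/
def S_NEC : Prop := ∀ (K : Type) [Field K] (n m : ℕ) (X : Matrix (Fin n) (Fin n) K) (e : Fin m → Fin n), Hook X e →
  IsNilpotent X → ∀ v w : Equiv.Perm (Fin n), InClosure X v w → ∃ c : ℕ → ℕ, Crit e v w c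

def M_NEC : Prop := S_PST → S_NMN → S_CUT → S_NPO → S_LEV → S_NEC

/-! ## Contraction -/

/-- LUD. For `k < n` the leading block of size `k + 1` of `M` is invertible; let `y_k` be a vector supported on `0, …, k` with `(M y_k)_x = 0` for `x < k`,
`(M y_k)_k = 1`. `Y` has the columns `y_k`. -/
def S_LUD : Prop := ∀ (K : Type) [Field K] (n : ℕ) (M : Matrix (Fin n) (Fin n) K),
  (∀ i, i ≤ n → mn (Equiv.refl (Fin n)) M i ≠ 0) →
  ∃ Y : Matrix (Fin n) (Fin n) K, UT Y ∧ (∀ x k, x < k → (M * Y) x k = 0) ∧ ∀ k, (M * Y) k k = 1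

/-- CON. Contraction. `M x k = g (v x) k`, `Y` of LUD: `N = M Y` is lower unitriangular, so `det Y ≠ 0` and `Y` is in `B`; `g Y = perm(v) N`. Let
`D_s = diagonal d`, `d (v x) = s ^ x`, `D'_s = diagonal (s ^ (-k))`. For `s ≠ 0` the matrix `G_s = D_s g Y D'_s = perm(v) (s ^ (x - k) N_(x k))` is in
`Cell X w`: `D_s g` is in the Springer fibre (`TStable`), `Y D'_s ∈ B`, `D_s ∈ B`. The entries of `G_s` are polynomials in `s` (`N_(x k) = 0` for
`x < k`), and `G_0 = perm(v)`. `closure_of_curve` (`Pool/Agent/SprJ/Cur.lean`; copy it, it is stated with other variables in scope). -/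
def S_CON : Prop := ∀ (K : Type) [Field K] [Infinite K] (n : ℕ) (X g : Matrix (Fin n) (Fin n) K) (v w : Equiv.Perm (Fin n)),
  TStable X → g ∈ Cell X w → (∀ i, i ≤ n → mn v g i ≠ 0) → InClosure X v w

def M_CON : Prop := S_LUD → S_CON

/-! ## Sufficiency -/

/-- PNT. Special parameters for `Gale A B`. Let `a_0 < a_1 < …`, `b_0 < b_1 < …` be the elements of `A`, `B` (`Finset.orderEmbOfFin`); `a_r ≤ b_r` by `Gale`.
`ξ (a_r, b_r) = 1` if `a_r < b_r`, all other `ξ q = 0`. For `a ∈ A`, `b ∈ B`: `hv b a = 1` if `a = b` or `a = a_r`, `b = b_r` for some `r`, else `0`. The equation for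
`a = a_r` is `y (b_r) + [a_r ≠ b_r, a_r ∈ B] y (a_r) = 0`, `a_r ≤ b_r`: so `y = 0` on `B` by strong induction on `b_r`. -/
def S_PNT : Prop := ∀ (K : Type) [Field K] (n m : ℕ) (e : Fin m → Fin n) (A B : Finset (Fin n)), A.card = B.card →
  Gale A B → (∀ a ∈ A, ∀ l, a ≠ e l) → ∃ ξ : Fin n × Fin n → K, ∀ π : Par n → K, (∀ q, π (.inl q) = ξ q) →
    ∀ y : Fin n → K, (∀ b, b ∉ B → y b = 0) → (∀ a ∈ A, ∑ b, y b * hv e π b a = 0) → y = 0

/-- FAM. The family. (1) `b_(r, w p) = gm_(r, p)`: `gm_(r, p) = 0` for `r > w p` and `gm_(w p, p) = 1`. (In a column with `w p` free the term `b_p` is at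
`e j < w p`; in the column of `w p = e j` the vectors `h_(w p')` have `w p' < w p`.) (2) `InZ`. Let `l < j ≤ m`; `c` is monotone, so it is enough that
`e_(e l) ∈ V_(c_(l+1))`. Let `p = pos_w (e l)`, `c_l ≤ p < c_(l+1)`. For `p < p' < c_(l+1)`, `w p' < e l`, the index `w p'` is free (PST 4), and the column `p'` is
`h_(w p')`: the only `j'` with `c_(j') ≤ p' < c_(j'+1)` is `l` (monotone), and `e l < w p'` is false. So `e_(e l)` is the column `p` minus a combination of
the columns `p' < c_(l+1)`. Let `j ≤ l`, `p < c_j`: the coordinate `e l` of the column `p` is `0`: `h_f`, `f` free, has no coordinates `e l`; the term `b_p` is at `e l`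
only if `c_l ≤ p`; in a column `p` with `w p = e l'` (so `l' < j`) the `w p'` are free (PST 4), and `e l ≠ e l'`. -/
def S_FAM : Prop := ∀ (K : Type) [Field K] (n m : ℕ) (e : Fin m → Fin n) (w : Equiv.Perm (Fin n)) (c : ℕ → ℕ)
  (π : Par n → K), Function.Injective e → c 0 = 0 → c m = n → Pos e w c →
  (∃ b : Matrix (Fin n) (Fin n) K, Borel b ∧ gm e w c π = b * perm K w) ∧ InZ e c (gm e w c π)

def M_FAM : Prop := S_FLD → S_PST → S_FAM

/-- FMN. One level. `k = e j`. First remove the common elements `e l`, `l < j`, and `k` from the two sets of `Level` (GEQ, PST 1): `Gale (Fr e v i) B` with `B = Fr e w i` (first case: `k` in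
both or in none of `v[i]`, `w[i]`), `B = (Fr e w i).erase (w p₀)` (second case: `k ∈ v[i]` only), `B = insert (w p₀) (Fr e w i)` (third case: `k ∈ w[i]` only); the cardinalities agree
by PST 2, 3, and `w p₀` is free by PST 4. `π (.inl q) = ξ q` with `ξ` of PNT for `A = Fr e v i` and `B`. `π (.inr (.inl p)) = 1` if `p = p₀` in the second case,
else `0`; `π (.inr (.inr (p, p'))) = 1` if `p = pos_w k`, `p' = p₀` in the third case, else `0`. So the columns are: `h_(w p)` for `w p` free,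
except `h_(w p₀) + e_k` for `p₀` in the second case; `e_(e l)` for `p = pos_w (e l)`, except `e_k + h_(w p₀)` for `l = j` in the third case. By FLD (8)
(`FAM`: `gm` is invertible) let `y` be supported on `l < i`, `gm y = 0` on `v[i]`. The coordinates `e l`, `l < j` (in `v[i]` by PST): `y (pos_w (e l)) = 0`. If
`k ∈ v[i]`: the coordinate `k` gives `y (pos_w k) = 0` (first case, `k ∈ w[i]`) resp. `y p₀ = 0` (second case). The coordinates in `Fr e v i` give, by
PNT for `y' b = y (w⁻¹ b)` (`b ∈ B`, third case: `y' (w p₀) = y (pos_w k)`; `y' = 0` outside `B`), `y' = 0`. -/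
def S_FMN : Prop := ∀ (K : Type) [Field K] (n m : ℕ) (e : Fin m → Fin n) (v w : Equiv.Perm (Fin n)) (c : ℕ → ℕ),
  Function.Injective e → c 0 = 0 → c m = n → Pos e v c → Pos e w c →
  ∀ (j : Fin m) (i : ℕ), c j ≤ i → i ≤ c (j + 1) → Level v w (e j) (c j) (c (j + 1)) i →
    ∃ π : Par n → K, mn v (gm e w c π) i ≠ 0

def M_FMN : Prop := S_FLD → S_GEQ → S_PST → S_PNT → S_FAM → S_FMN

/-- COM. Common parameters. Over `R = MvPolynomial (Par n) K` with `π = MvPolynomial.X` the polynomials `mn v (gm e w c X) i` are nonzero, because evaluation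
at `π : Par n → K` gives `mn v (gm e w c π) i` (`RingHom.map_det`; `gm` commutes with ring homomorphisms). Their product over `i ≤ n` is nonzero, and `K` is
infinite (`MvPolynomial.funext`). -/
def S_COM : Prop := ∀ (K : Type) [Field K] [Infinite K] (n m : ℕ) (e : Fin m → Fin n) (v w : Equiv.Perm (Fin n)) (c : ℕ → ℕ),
  (∀ i, i ≤ n → ∃ π : Par n → K, mn v (gm e w c π) i ≠ 0) →
  ∃ π : Par n → K, ∀ i, i ≤ n → mn v (gm e w c π) i ≠ 0

/-- SUF. For `i ≤ n` take `j` of PST (6) (`0 < m`: `Hook.pos`) and FMN; COM; FAM; CZS; TOR; CON. -/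
def S_SUF : Prop := ∀ (K : Type) [Field K] [Infinite K] (n m : ℕ) (X : Matrix (Fin n) (Fin n) K) (e : Fin m → Fin n),
  Hook X e → IsNilpotent X → ∀ (v w : Equiv.Perm (Fin n)) (c : ℕ → ℕ), Crit e v w c → InClosure X v w

def M_SUF : Prop := S_PST → S_FAM → S_FMN → S_COM → S_CZS → S_TOR → S_CON → S_SUF

/-! ## Conjugation -/

/-- CNJ. Let `t = perm(v)⁻¹ u perm(v) ∈ B`, so `u perm(v) = perm(v) t`. The map `g ↦ u g t⁻¹` sends `Cell X w` to `Cell (u X u⁻¹) w` and fixes `perm(v)`; a polynomial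
`P` in the entries is sent to the polynomial `P (u g t⁻¹)` in the entries of `g` (`MvPolynomial.bind₁`). The converse with `u⁻¹`, `t⁻¹`. -/
def S_CNJ : Prop := ∀ (K : Type) [Field K] (n : ℕ) (X u : Matrix (Fin n) (Fin n) K) (v w : Equiv.Perm (Fin n)), Borel u →
  Borel ((perm K v)⁻¹ * u * perm K v) → (InClosure (u * X * u⁻¹) v w ↔ InClosure X v w)

/-! ## The matrices with torus-stable Springer fibre -/

/-- FLG. A flag through a stable subspace. If `W ≠ W'` are stable, `W ≤ W'`, there is `x ∈ W'`, `x ∉ W`, `X x ∈ W` (take `x ∈ W' - W` and the last `k` with `X^k x ∉ W`). So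
there are `x_0, …, x_(n-1)`, linearly independent, with `X x_l ∈ ⟨x_0, …, x_(l-1)⟩`, the first `dim U` of them in `U` (add vectors of `U` as long as the span is
not `U`, then arbitrary ones). `g` has the columns `x_l`; `STB`. -/
def S_FLG : Prop := ∀ (K : Type) [Field K] (n : ℕ) (X : Matrix (Fin n) (Fin n) K) (U : Submodule K (Fin n → K)),
  IsNilpotent X → (∀ x ∈ U, X *ᵥ x ∈ U) →
  ∃ g : Matrix (Fin n) (Fin n) K, IsUnit g.det ∧ InSpringer X g ∧ Fl g (Module.finrank K U) = U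

def M_FLG : Prop := S_FLD → S_STB → S_FLG

/-- VAN. If `∑ k ≤ N, s^k u_k ∈ U` for infinitely many `s` then all `u_k ∈ U` (Vandermonde; or apply the linear functionals which vanish on `U` and use that
a polynomial with infinitely many roots is `0`). -/
def S_VAN : Prop := ∀ (K : Type) [Field K] [Infinite K] (n N : ℕ) (U : Submodule K (Fin n → K)) (f : ℕ → Fin n → K),
  (∀ s : K, s ≠ 0 → ∑ k ∈ Finset.range (N + 1), s ^ k • f k ∈ U) → ∀ k, k ≤ N → f k ∈ U

/-- EIJ. Let `U` be `X`-stable, `x ∈ U`, `s ≠ 0`, `d l = s ^ (2 ^ l)`, `D = diagonal d`. By FLG, `TStable` and STB (1) (`Fl (D g) i = D (Fl g i)`) `D U` is `X`-stable, so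
`D⁻¹ X D x ∈ U`; its coordinate `i` is `∑_j s ^ (2 ^ j - 2 ^ i) X i j x j`. Multiply by `s ^ (2 ^ n)` and use VAN: the numbers `2 ^ j - 2 ^ i`, `i ≠ j`, are different from each other
and from `0`, so `(X i j * x j) • e_i ∈ U` for `i ≠ j`, and `(∑_i X i i * x i • e_i) ∈ U` (exponent `2 ^ n`). (2) follows for `i ≠ j`, and for `i = j` from (1).
(1) Let `g` be a flag of FLG for `U = ⊥`. `X` and the matrices `E_(i j)` with `i ≠ j`, `X i j ≠ 0` are nilpotent and preserve all `V_l` (which are `X`-stable, so by the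
above `E_(i j)`-stable), so they map `V_(l+1)` to `V_l` (STB 1, 2), and so does `D₀ = X - ∑_(i ≠ j) X i j E_(i j)`, the diagonal of `X`: `D₀ ^ n = 0`, `X i i = 0`. -/
def S_EIJ : Prop := ∀ (K : Type) [Field K] [Infinite K] (n : ℕ) (X : Matrix (Fin n) (Fin n) K), IsNilpotent X → TStable X →
  (∀ i, X i i = 0) ∧ ∀ i j, X i j ≠ 0 → ∀ U : Submodule K (Fin n → K), (∀ x ∈ U, X *ᵥ x ∈ U) →
    ∀ x ∈ U, x j ≠ 0 → Pi.single i 1 ∈ U

def M_EIJ : Prop := S_FLD → S_STB → S_FLG → S_VAN → S_EIJ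

/-- PTH. The path. Write `K[X] x` for the span of the `X^k x`. If `X = 0` take `m = 1`, `e 0 = 0`. Let `X ≠ 0`, `R = {i | ∃ j, X i j ≠ 0}`.
(a) `R` is not everything. Otherwise there is a cycle `X (i_a) (i_(a+1)) ≠ 0`, indices modulo some `q ≥ 1`. Apply the hypothesis to `x = e_(i_(a+1))`: all
`e_(i_a)` generate the same stable subspace `U ≠ 0`. `X e_(i_(a+1)) ∈ X U` has the coordinate `X (i_a) (i_(a+1)) ≠ 0` at `i_a`, and `X (i_(a-1)) (i_a) ≠ 0`, so
`e_(i_(a-1)) ∈ X U` (stable): `U ≤ X U`, impossible (`X` is nilpotent, `U ≠ 0`).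
(b) Let `x = (1, …, 1)`, `U = K[X] x`, `r ∉ R`. For `i ∈ R`: `e_i ∈ U`, `e_i = α x + X z`, `z ∈ U`; the coordinate `r` gives `α = 0`. So `⟨e_i | i ∈ R⟩ ≤ X U ≤ im X ≤ ⟨e_i | i ∈ R⟩`.
Let `m` be the least number with `X^m = 0` (so `m ≥ 2`). For `k ≥ 1` `im X^k` is spanned by the `X^l x`, `l ≥ k`, so `X^m x = 0`, `X^(m-1) x ≠ 0`, `dim im X^k = m - k` for `1 ≤ k ≤ m`.
(c) For `1 ≤ k ≤ m` `im X^k = ⟨e_i | i ∈ R_k⟩` for some `R_k`, `R_1 = R`: let `R_(k+1) = {i | ∃ j ∈ R_k, X i j ≠ 0}`; `im X^(k+1) ≤ ⟨e_i | i ∈ R_(k+1)⟩`. Let `j ∈ R_k`, `X i j ≠ 0`,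
`V = K[X] e_j ≤ im X^k`, `e_i ∈ V`. If `e_i ∉ X V` then `e_i` generates `V` (`V / X V` is one-dimensional, `X` nilpotent), so `e_j = β e_i + X z'`, `z' ∈ V`; the coordinate `j`
(`i ≠ j` because `X i i = 0`) gives `(X z')_j = 1`, so `e_i ∈ X V` by the hypothesis, a contradiction. So `e_i ∈ X V ≤ im X^(k+1)`.
(d) `R_1 ⊇ R_2 ⊇ … ⊇ R_m = ∅`, `#R_k = m - k`. Let `e l ∈ R_(m-1-l)`, `e l ∉ R_(m-l)` for `l ≤ m - 2`: `im X^k = E_(m-k)`. `X e_(e l) ∈ im X^(m-l) = E_l`, and `X E_(l+1) = E_l`, `X E_l = E_(l-1)`, so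
the coordinate `e (l - 1)` of `X e_(e l)` is not `0`.
(e) `X` maps `K^n` onto `E_(m-1)` and `E_(m-1)` onto `E_(m-2)`, so there is `f ∉ R_1` with `X e_f ∉ E_(m-2)`; `e (m - 1) = f`.
(f) Let `f' ∉ R_1`, `f' ≠ f`. For some `c` `X e_(f') - c X e_f ∈ E_(m-2) = X E_(m-1)`, so there is `z = e_(f') - c e_f - y`, `y ∈ E_(m-1)`, `X z = 0`, `z_(f') = 1`. If `X i f' ≠ 0` then
`e_i ∈ K z` by the hypothesis, `i ≠ f'`, so `e_i = 0`, a contradiction: `X e_(f') = 0`. -/
def S_PTH : Prop := ∀ (K : Type) [Field K] (n : ℕ) (X : Matrix (Fin n) (Fin n) K), 0 < n → IsNilpotent X →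
  (∀ i, X i i = 0) → (∀ i j, X i j ≠ 0 → ∀ U : Submodule K (Fin n → K), (∀ x ∈ U, X *ᵥ x ∈ U) →
    ∀ x ∈ U, x j ≠ 0 → Pi.single i 1 ∈ U) → ∃ (m : ℕ) (e : Fin m → Fin n), Hook X e

/-! ## The theorem -/

/-- FIN. (A) TOR, EIJ, PTH. (B) NEC, SUF, CNJ. -/
def S_FIN : Prop := ∀ (K : Type) [Field K] [Infinite K] (n : ℕ), 0 < n → ∀ X : Matrix (Fin n) (Fin n) K, IsNilpotent X →
  (TStable X ↔ ∃ (m : ℕ) (e : Fin m → Fin n), Hook X e) ∧
  ∀ (m : ℕ) (e : Fin m → Fin n), Hook X e → ∀ (v w : Equiv.Perm (Fin n)) (u : Matrix (Fin n) (Fin n) K),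
    Borel u → Borel ((perm K v)⁻¹ * u * perm K v) →
    (InClosure (u * X * u⁻¹) v w ↔ ∃ c : ℕ → ℕ, Crit e v w c)

end Pool.Agent.SprH
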