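import Mathlib
import Pool.Agent.SprH.St

/-!
# SprH: leading indices of the members of a flag in a Schubert cell

MP_3a0658_ag, module LST.
-/

set_option autoImplicit false

open Matrix

namespace Pool.Agent.SprH

open Pool.Agent.SprJ

namespace PLST

variable {K : Type} [Field K] {n : ℕ}

lemma mem_Fl (g : Matrix (Fin n) (Fin n) K) (i : ℕ) (x : Fin n → K) :
    x ∈ Fl g i ↔ ∃ y : Fin n → K, (∀ l : Fin n, i ≤ (l : ℕ) → y l = 0) ∧ g *ᵥ y = x := Iff.rfl

/-- Upper triangular matrices preserve the vectors supported on the first indices. -/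
lemma ut_mulVec {b : Matrix (Fin n) (Fin n) K} (hb : UT b) {i : ℕ} {y : Fin n → K}
    (hy : ∀ l : Fin n, i ≤ (l : ℕ) → y l = 0) (r : Fin n) (hr : i ≤ (r : ℕ)) : (b *ᵥ y) r = 0 := by
  change ∑ l, b r l * y l = 0
  refine Finset.sum_eq_zero fun l _ => ?_
  rcases lt_or_ge l r with h | h
  · rw [hb r l h, zero_mul]
  · have : (r : ℕ) ≤ (l : ℕ) := h
    rw [hy l (by omega), mul_zero]

lemma ut_inv {b : Matrix (Fin n) (Fin n) K} (hb : Borel b) : UT b⁻¹ := by
  obtain ⟨h1, h2⟩ := hb
  have h3 : Matrix.BlockTriangular b id := fun i j h => h1 i j h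
  have h4 : Invertible b := Matrix.invertibleOfIsUnitDet b h2
  have h5 := Matrix.blockTriangular_inv_of_blockTriangular h3
  exact fun i j h => h5 h

lemma diag_ne {b : Matrix (Fin n) (Fin n) K} (hb : Borel b) (r : Fin n) : b r r ≠ 0 := by
  obtain ⟨h1, h2⟩ := hb
  have h3 : Matrix.BlockTriangular b id := fun i j h => h1 i j h
  rw [Matrix.det_of_isUpperTriangular h3, isUnit_iff_ne_zero, Finset.prod_ne_zero_iff] at h2
  exact h2 r (Finset.mem_univ r)

lemma perm_mulVec (w : Equiv.Perm (Fin n)) (y : Fin n → K) (r : Fin n) :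
    (perm K w *ᵥ y) r = y (w.symm r) := by
  change ∑ k, (if r = w k then (1 : K) else 0) * y k = _
  rw [Finset.sum_eq_single (w.symm r)]
  · simp
  · intro k _ hk
    rw [if_neg, zero_mul]
    rintro rfl
    exact hk (w.symm_apply_apply k).symm
  · intro h
    exact absurd (Finset.mem_univ _) h

/-- The members of the flag. -/
lemma mem_Fl_cell (w : Equiv.Perm (Fin n)) (b b' : Matrix (Fin n) (Fin n) K) (hb' : Borel b')
    (i : ℕ) (x : Fin n → K) : x ∈ Fl (b * perm K w * b') i ↔
      ∃ z : Fin n → K, (∀ r : Fin n, i ≤ ((w.symm r : Fin n) : ℕ) → z r = 0) ∧ b *ᵥ z = x := by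
  rw [mem_Fl]
  constructor
  · rintro ⟨y, hy, rfl⟩
    refine ⟨perm K w *ᵥ (b' *ᵥ y), ?_, ?_⟩
    · intro r hr
      rw [perm_mulVec]
      exact ut_mulVec hb'.1 hy _ hr
    · rw [Matrix.mulVec_mulVec, Matrix.mulVec_mulVec, Matrix.mul_assoc]
  · rintro ⟨z, hz, rfl⟩
    refine ⟨b'⁻¹ *ᵥ (fun k => z (w k)), ?_, ?_⟩
    · intro r hr
      refine ut_mulVec (ut_inv hb') (i := i) ?_ r hr
      intro l hl
      exact hz _ (by rw [Equiv.symm_apply_apply]; exact hl)
    · rw [← Matrix.mulVec_mulVec, ← Matrix.mulVec_mulVec]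
      congr 1
      rw [Matrix.mulVec_mulVec (M := b'), Matrix.mul_nonsing_inv _ hb'.2, Matrix.one_mulVec]
      funext r
      rw [perm_mulVec, Equiv.apply_symm_apply]

lemma lead_mulVec {b : Matrix (Fin n) (Fin n) K} (hb : Borel b) {z : Fin n → K} {a : Fin n}
    (h : Lead z a) : Lead (b *ᵥ z) a := by
  refine ⟨?_, ?_⟩
  · have h1 : (b *ᵥ z) a = b a a * z a := by
      change ∑ l, b a l * z l = _
      refine Finset.sum_eq_single a ?_ (fun h => absurd (Finset.mem_univ _) h)
      intro l _ hl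
      rcases lt_or_gt_of_ne hl with h2 | h2
      · rw [hb.1 a l h2, zero_mul]
      · rw [h.2 l h2, mul_zero]
    rw [h1]
    exact mul_ne_zero (diag_ne hb a) h.1
  · intro r hr
    refine ut_mulVec (i := (a : ℕ) + 1) hb.1 ?_ r hr
    intro l hl
    exact h.2 l hl

lemma lead_unique {x : Fin n → K} {a c : Fin n} (ha : Lead x a) (hc : Lead x c) : a = c := by
  rcases lt_trichotomy a c with h | h | h
  · exact absurd (ha.2 c h) hc.1
  · exact h
  · exact absurd (hc.2 a h) ha.1

lemma exists_lead {x : Fin n → K} (hx : x ≠ 0) : ∃ a, Lead x a := by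
  classical
  have h1 : (Finset.univ.filter fun i => x i ≠ 0).Nonempty := by
    obtain ⟨i, hi⟩ := Function.ne_iff.1 hx
    exact ⟨i, by simpa using hi⟩
  refine ⟨(Finset.univ.filter fun i => x i ≠ 0).max' h1, ?_, ?_⟩
  · have := Finset.max'_mem _ h1
    simpa using this
  · intro i hi
    by_contra hne
    have h2 := Finset.le_max' (Finset.univ.filter fun i => x i ≠ 0) i (by simpa using hne)
    exact absurd hi (not_lt.2 h2)

end PLST

open PLST in
theorem t_LST : S_LST := by
  intro K _ n w b b' hb hb' i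
  ext a
  simp only [lset, vset, Finset.mem_filter, Finset.mem_univ, true_and]
  constructor
  · rintro ⟨x, hx, hl⟩
    rw [mem_Fl_cell w b b' hb'] at hx
    obtain ⟨z, hz, rfl⟩ := hx
    have hz0 : z ≠ 0 := by
      rintro rfl
      apply hl.1
      rw [Matrix.mulVec_zero]
      rfl
    obtain ⟨a', ha'⟩ := exists_lead hz0
    have h1 : a = a' := lead_unique hl (lead_mulVec hb ha')
    by_contra hcon
    apply ha'.1
    rw [← h1]
    exact hz a (not_lt.1 hcon)
  · intro h
    refine ⟨b *ᵥ Pi.single a 1, ?_, ?_⟩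
    · rw [mem_Fl_cell w b b' hb']
      refine ⟨Pi.single a 1, ?_, rfl⟩
      intro r hr
      have hne : r ≠ a := by
        rintro rfl
        omega
      exact Pi.single_eq_of_ne hne _
    · apply lead_mulVec hb
      refine ⟨?_, ?_⟩
      · rw [Pi.single_eq_same]
        exact one_ne_zero
      · intro r hr
        exact Pi.single_eq_of_ne (ne_of_gt hr) _

end Pool.Agent.SprH
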