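import Pool.Agent.SprH.St

/-!
# Torus-stable Springer fibres, module LUD: LU decomposition (helper29)
-/

set_option autoImplicit false

open Matrix

namespace Pool.Agent.SprH

open Pool.Agent.SprJ

theorem t_LUD : S_LUD := by
  classical
  intro K _ n M hM
  have key : ∀ k : Fin n, ∃ y : Fin n → K, (∀ r, k < r → y r = 0) ∧
      (∀ x, x < k → (M *ᵥ y) x = 0) ∧ (M *ᵥ y) k = 1 := by
    intro k
    obtain ⟨A, hA⟩ : ∃ A : Matrix {l : Fin n // (l : ℕ) < (k : ℕ) + 1}
        {l : Fin n // (l : ℕ) < (k : ℕ) + 1} K, A = Matrix.of fun a b => M a.1 b.1 := ⟨_, rfl⟩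
    have hdet : IsUnit A.det := by
      rw [hA]
      exact isUnit_iff_ne_zero.2 (hM ((k : ℕ) + 1) k.2)
    obtain ⟨z, hz⟩ : ∃ z, z = A⁻¹ *ᵥ (Pi.single ⟨k, Nat.lt_succ_self _⟩ (1 : K)) := ⟨_, rfl⟩
    have hAz : A *ᵥ z = Pi.single ⟨k, Nat.lt_succ_self _⟩ (1 : K) := by
      rw [hz, Matrix.mulVec_mulVec, Matrix.mul_nonsing_inv _ hdet, Matrix.one_mulVec]
    obtain ⟨y, hy⟩ : ∃ y : Fin n → K, y = fun r : Fin n =>
      if h : (r : ℕ) < (k : ℕ) + 1 then z ⟨r, h⟩ else 0 := ⟨_, rfl⟩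
    have hMy : ∀ (x : Fin n) (hx : (x : ℕ) < (k : ℕ) + 1), (M *ᵥ y) x = (A *ᵥ z) ⟨x, hx⟩ := by
      intro x hx
      rw [Matrix.mulVec, dotProduct,
        ← Fintype.sum_subtype_add_sum_subtype (fun r : Fin n => (r : ℕ) < (k : ℕ) + 1)]
      rw [Finset.sum_eq_zero (s := Finset.univ)
        (f := fun i : {r : Fin n // ¬ (r : ℕ) < (k : ℕ) + 1} => M x i.1 * y i.1), add_zero]
      · rw [Matrix.mulVec, dotProduct]
        refine Finset.sum_congr rfl fun a _ => ?_
        rw [hA, hy]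
        simp only [Matrix.of_apply, dif_pos a.2]
      · intro i _
        rw [hy]
        simp only [dif_neg i.2, mul_zero]
    refine ⟨y, fun r hr => ?_, fun x hx => ?_, ?_⟩
    · rw [hy]
      have : ¬ (r : ℕ) < (k : ℕ) + 1 := by
        have : (k : ℕ) < r := hr
        omega
      simp only [dif_neg this]
    · have h1 : (x : ℕ) < (k : ℕ) + 1 := by
        have : (x : ℕ) < k := hx
        omega
      rw [hMy x h1, hAz, Pi.single_eq_of_ne]
      intro h
      have : x = k := congrArg Subtype.val h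
      exact absurd hx (by rw [this]; exact lt_irrefl _)
    · rw [hMy k (Nat.lt_succ_self _), hAz, Pi.single_eq_same]
  choose y hy1 hy2 hy3 using key
  have hmul : ∀ x k, (M * Matrix.of fun r k => y k r) x k = (M *ᵥ y k) x := fun x k => rfl
  refine ⟨Matrix.of fun r k => y k r, fun i j hij => hy1 j i hij, fun x k hx => ?_, fun k => ?_⟩
  · rw [hmul]
    exact hy2 k x hx
  · rw [hmul]
    exact hy3 k

end Pool.Agent.SprH
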