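import Pool.Agent.SprH.St

/-!
# Torus-stable Springer fibres, module NEC: necessity (helper29)
-/

set_option autoImplicit false

open Matrix

namespace Pool.Agent.SprH

open Pool.Agent.SprJ

/-- permutation matrices are invertible -/
theorem det_perm_unit {K : Type} [Field K] {n : ℕ} (w : Equiv.Perm (Fin n)) : IsUnit (perm K w).det := by
  have h : perm K w = (w.symm.toPEquiv.toMatrix : Matrix (Fin n) (Fin n) K) := by
    ext i k
    simp only [perm, Matrix.of_apply, PEquiv.toMatrix_apply, Equiv.toPEquiv_apply,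
      Option.mem_def, Option.some.injEq]
    congr 1
    rw [eq_iff_iff]
    constructor
    · rintro rfl; simp
    · rintro h; rw [← h]; simp
  rw [h, Matrix.det_permutation]
  exact (Units.isUnit _).map (Int.castRingHom K)

theorem t_NEC : M_NEC := by
  intro hPST hNMN hCUT hNPO hLEV K _ n m X e hX hn v w hcl
  obtain ⟨b, b', hb, hb', hS, hmn⟩ := hNMN K n X v w hcl
  have hdet : IsUnit (b * perm K w * b').det := by
    rw [Matrix.det_mul, Matrix.det_mul]
    exact (hb.2.mul (det_perm_unit w)).mul hb'.2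
  obtain ⟨c, hc⟩ := hCUT K n m X _ e hX hn hdet hS
  obtain ⟨hv, hw⟩ := hNPO K n m e v w c b b' hX.inj hb hb' hc hmn
  obtain ⟨-, -, -, -, hmono, -⟩ := hPST n m e v c hX.inj hc.1 hc.2.1 hv
  refine ⟨c, hc.1, hc.2.1, hv, hw, fun j i h1 h2 => ?_⟩
  refine hLEV K n m e v w c b b' hX.inj hb hb' hv hw hc j i h1 h2 (hmn i ?_)
  have h3 := hmono (j + 1) m j.2 le_rfl
  rw [hc.2.1] at h3
  exact h2.trans h3

end Pool.Agent.SprH
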