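import Pool.Agent.SprH.St
import Pool.Agent.SprH.P_COM

/-!
# NMN: a flag in the cell with nonzero Plücker coordinates
-/

set_option autoImplicit false

open Matrix

namespace Pool.Agent.SprH

open Pool.Agent.SprJ

namespace NMN

theorem mn_perm (K : Type) [Field K] {n : ℕ} (v : Equiv.Perm (Fin n)) (i : ℕ) :
    mn v (perm K v) i = 1 := by
  unfold mn
  have h : (Matrix.of fun a b : {k : Fin n // (k : ℕ) < i} => perm K v (v a.1) b.1) = 1 := by
    ext a b
    simp only [Matrix.of_apply, perm]
    by_cases hab : a = b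
    · subst hab
      simp
    · rw [Matrix.one_apply_ne hab, if_neg]
      intro h
      exact hab (Subtype.ext (v.injective h))
  rw [h, Matrix.det_one]

end NMN

theorem t_NMN : S_NMN := by
  classical
  intro K _ n X v w hcl
  by_contra hcon
  push Not at hcon
  let G : Matrix (Fin n) (Fin n) (MvPolynomial (Fin n × Fin n) K) :=
    fun r p => MvPolynomial.X (r, p)
  have hev : ∀ (g : Matrix (Fin n) (Fin n) K) (i : ℕ),
      MvPolynomial.eval (fun p => g p.1 p.2) (mn v G i) = mn v g i := by
    intro g i
    rw [← COM.mn_map (MvPolynomial.eval fun p : Fin n × Fin n => g p.1 p.2) v G i]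
    congr 1
    funext r p
    exact MvPolynomial.eval_X _
  have h1 := hcl (∏ i ∈ Finset.range (n + 1), mn v G i) (by
    rintro g ⟨⟨b, b', hb, hb', hg⟩, hS⟩
    rw [hg] at hS
    obtain ⟨i, hi, h0⟩ := hcon b b' hb hb' hS
    rw [map_prod]
    refine Finset.prod_eq_zero (Finset.mem_range.2 (Nat.lt_succ_of_le hi)) ?_
    rw [hev, hg, h0])
  rw [map_prod] at h1
  simp only [hev, NMN.mn_perm, Finset.prod_const_one] at h1
  exact one_ne_zero h1

end Pool.Agent.SprH
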