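import Pool.Agent.SprH.St

/-!
# SprH, NPO: positions of the distinguished indices
-/

set_option autoImplicit false

open Matrix

namespace Pool.Agent.SprH

open Pool.Agent.SprJ

namespace NPO

variable {K : Type} [Field K] {n m : ℕ}

theorem perm_mul_inv (w : Equiv.Perm (Fin n)) : perm K w * perm K w.symm = 1 := by
  ext i k
  rw [Matrix.mul_apply, Finset.sum_eq_single (w.symm k)]
  · unfold perm
    rw [Matrix.of_apply, Matrix.of_apply, if_pos rfl, mul_one, Equiv.apply_symm_apply,
      Matrix.one_apply]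
  · intro a _ ha
    unfold perm
    rw [Matrix.of_apply, Matrix.of_apply, if_neg ha, mul_zero]
  · intro h
    exact absurd (Finset.mem_univ _) h

theorem det_perm (w : Equiv.Perm (Fin n)) : IsUnit (perm K w).det :=
  Matrix.isUnit_det_of_right_inverse (perm_mul_inv w)

theorem card_vset (v : Equiv.Perm (Fin n)) {i : ℕ} (hi : i ≤ n) : (vset v i).card = i := by
  have h1 : vset v i = (Finset.univ.filter fun p : Fin n => (p : ℕ) < i).map v.toEmbedding := by
    ext x
    unfold vset
    rw [Finset.mem_filter, Finset.mem_map]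
    constructor
    · rintro ⟨-, h⟩
      exact ⟨v.symm x, Finset.mem_filter.2 ⟨Finset.mem_univ _, h⟩, Equiv.apply_symm_apply _ _⟩
    · rintro ⟨p, hp, rfl⟩
      refine ⟨Finset.mem_univ _, ?_⟩
      rw [Equiv.coe_toEmbedding, Equiv.symm_apply_apply]
      exact (Finset.mem_filter.1 hp).2
  rw [h1, Finset.card_map, Fin.card_filter_val_lt, min_eq_right hi]

end NPO

open NPO in
theorem t_NPO : M_NPO := by
  classical
  intro hFLD hLST K _ n m e v w c b b' he hb hb' hZ hmn
  obtain ⟨hc0, hcm, hZ⟩ := hZ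
  set g : Matrix (Fin n) (Fin n) K := b * perm K w * b' with hg
  have hdet : IsUnit g.det := by
    rw [hg, Matrix.det_mul, Matrix.det_mul]
    exact (hb.2.mul (det_perm w)).mul hb'.2
  obtain ⟨hdim, -, -, htop, -, -, hinj, -⟩ := hFLD K n g hdet
  have hlset : ∀ i, lset (Fl g i) = vset w i := fun i => hLST K n w b b' hb hb' i
  have hcn : ∀ j, j ≤ m → c j ≤ n := by
    intro j hj
    rcases hj.lt_or_eq with h | h
    · by_contra hn
      have h1 := htop (c j) (not_le.1 hn).le
      have h2 := (hZ j ⟨j, h⟩ hj).2 le_rfl (Pi.single (e ⟨j, h⟩) 1) (by rw [h1]; trivial)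
      rw [Pi.single_eq_same] at h2
      exact one_ne_zero h2
    · rw [h, hcm]
  have hlead : ∀ a : Fin n, Lead (Pi.single a 1 : Fin n → K) a := by
    intro a
    refine ⟨by rw [Pi.single_eq_same]; exact one_ne_zero, fun i hi => ?_⟩
    exact Pi.single_eq_of_ne (ne_of_gt hi) _
  have hmem : ∀ (u : Equiv.Perm (Fin n)) (i : ℕ) (x : Fin n), x ∈ vset u i ↔
      ((u.symm x : Fin n) : ℕ) < i := by
    intro u i x
    unfold vset
    rw [Finset.mem_filter]
    exact ⟨fun h => h.2, fun h => ⟨Finset.mem_univ _, h⟩⟩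
  refine ⟨fun j l hj => ⟨fun h => ?_, fun h => ?_⟩, fun j l hj => ⟨fun h => ?_, fun h => ?_⟩⟩
  · by_contra hlj
    have h0 := (hZ j l hj).2 (not_lt.1 hlj)
    -- `V` injects on `vset v (c j)` without `e l`
    let φ : Fl g (c j) →ₗ[K] ({a // a ∈ (vset v (c j)).erase (e l)} → K) :=
      { toFun := fun x a => x.1 a.1
        map_add' := fun _ _ => rfl
        map_smul' := fun _ _ => rfl }
    have hφ : Function.Injective φ := by
      rw [← LinearMap.ker_eq_bot, LinearMap.ker_eq_bot']
      intro x hx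
      apply Subtype.ext
      refine hinj v (c j) (hmn _ (hcn j hj)) x.1 x.2 fun a ha => ?_
      by_cases hae : a = e l
      · rw [hae]
        exact h0 x.1 x.2
      · exact congrFun hx ⟨a, Finset.mem_erase.2 ⟨hae, ha⟩⟩
    have h1 := LinearMap.finrank_le_finrank_of_injective hφ
    rw [Module.finrank_fintype_fun_eq_card, Fintype.card_coe, hdim _ (hcn j hj),
      Finset.card_erase_of_mem ((hmem _ _ _).2 h), card_vset v (hcn j hj)] at h1
    omega
  · by_contra hv
    have h1 := (hZ j l hj).1 h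
    have h2 := hinj v (c j) (hmn _ (hcn j hj)) _ h1 (fun a ha => by
      refine Pi.single_eq_of_ne ?_ _
      rintro rfl
      exact hv ((hmem _ _ _).1 ha))
    have h3 := congrFun h2 (e l)
    rw [Pi.single_eq_same] at h3
    exact one_ne_zero h3
  · by_contra hlj
    have h1 : e l ∈ lset (Fl g (c j)) := by
      rw [hlset]
      exact (hmem _ _ _).2 h
    unfold lset at h1
    obtain ⟨-, x, hx, hl⟩ := Finset.mem_filter.1 h1
    exact hl.1 ((hZ j l hj).2 (not_lt.1 hlj) x hx)
  · rw [← hmem, ← hlset]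
    unfold lset
    exact Finset.mem_filter.2 ⟨Finset.mem_univ _, _, (hZ j l hj).1 h, hlead _⟩

end Pool.Agent.SprH
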