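import Pool.Agent.SprH.St

/-!
# PNT: special parameters
-/

set_option autoImplicit false

open Matrix

namespace Pool.Agent.SprH

open Pool.Agent.SprJ

namespace PNT_aux

/-- The increasing enumerations compare. -/
theorem enum_le {n : ℕ} (A B : Finset (Fin n)) (N : ℕ) (hA : A.card = N) (hB : B.card = N)
    (h : Gale A B) (r : Fin N) : A.orderEmbOfFin hA r ≤ B.orderEmbOfFin hB r := by
  classical
  by_contra hlt
  push Not at hlt
  have h1 := h (A.orderEmbOfFin hA r)
  have h2 : (Finset.Ici r).card ≤ (A.filter fun x => A.orderEmbOfFin hA r ≤ x).card := by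
    rw [← Finset.card_map (A.orderEmbOfFin hA).toEmbedding]
    apply Finset.card_le_card
    intro x hx
    rw [Finset.mem_map] at hx
    obtain ⟨s, hs, rfl⟩ := hx
    rw [Finset.mem_Ici] at hs
    rw [Finset.mem_filter]
    exact ⟨Finset.orderEmbOfFin_mem A hA s, (A.orderEmbOfFin hA).monotone hs⟩
  have h3 : (B.filter fun x => A.orderEmbOfFin hA r ≤ x).card ≤ (Finset.Ioi r).card := by
    rw [← Finset.card_map (B.orderEmbOfFin hB).toEmbedding]
    apply Finset.card_le_card
    intro x hx
    rw [Finset.mem_filter] at hx
    obtain ⟨hxB, hx⟩ := hx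
    have : x ∈ Set.range (B.orderEmbOfFin hB) := by
      rw [Finset.range_orderEmbOfFin]
      exact hxB
    obtain ⟨s, rfl⟩ := this
    rw [Finset.mem_map]
    refine ⟨s, ?_, rfl⟩
    rw [Finset.mem_Ioi]
    exact (B.orderEmbOfFin hB).lt_iff_lt.1 (lt_of_lt_of_le hlt hx)
  rw [Fin.card_Ici] at h2
  rw [Fin.card_Ioi] at h3
  have := r.2
  omega

end PNT_aux

open Classical in
theorem t_PNT : S_PNT := by
  intro K _ n m e A B hcard hG hAe
  let α := A.orderEmbOfFin rfl
  let β := B.orderEmbOfFin hcard.symm
  have hle : ∀ r, α r ≤ β r := fun r => PNT_aux.enum_le A B A.card rfl hcard.symm hG r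
  refine ⟨fun q => if ∃ r, α r = q.1 ∧ β r = q.2 then 1 else 0, ?_⟩
  intro π hπ y hy hsum
  have key : ∀ N : ℕ, ∀ r : Fin A.card, (r : ℕ) = N → y (β r) = 0 := by
    intro N
    induction N using Nat.strong_induction_on with
    | _ N ih =>
      intro r hr
      have hs := hsum (α r) (Finset.orderEmbOfFin_mem A rfl r)
      rw [Finset.sum_eq_single (β r)] at hs
      · have h1 : hv e π (β r) (α r) = 1 := by
          unfold hv
          by_cases h : α r = β r
          · rw [if_pos h]
          · rw [if_neg h, if_pos ⟨lt_of_le_of_ne (hle r) h,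
              hAe (α r) (Finset.orderEmbOfFin_mem A rfl r)⟩, hπ]
            exact if_pos ⟨r, rfl, rfl⟩
        rw [h1, mul_one] at hs
        exact hs
      · intro b _ hb
        by_cases hbB : b ∈ B
        · have : b ∈ Set.range β := by
            rw [show Set.range β = (B : Set (Fin n)) from Finset.range_orderEmbOfFin _ _]
            exact hbB
          obtain ⟨s, rfl⟩ := this
          have hsr : s ≠ r := fun h => hb (by rw [h])
          rcases lt_or_gt_of_ne hsr with h | h
          · rw [ih (s : ℕ) (by rw [← hr]; exact h) s rfl, zero_mul]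
          · have h2 : α r < β s := lt_of_le_of_lt (hle r) (β.strictMono h)
            have h3 : hv e π (β s) (α r) = 0 := by
              unfold hv
              rw [if_neg h2.ne, if_pos ⟨h2, hAe (α r) (Finset.orderEmbOfFin_mem A rfl r)⟩, hπ]
              apply if_neg
              rintro ⟨r', h4, h5⟩
              have h6 := α.injective h4
              have h7 := β.injective h5
              exact hsr (by rw [← h7, h6])
            rw [h3, mul_zero]
        · rw [hy b hbB, zero_mul]
      · intro h
        exact absurd (Finset.mem_univ _) h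
  funext b
  by_cases hbB : b ∈ B
  · have : b ∈ Set.range β := by
      rw [show Set.range β = (B : Set (Fin n)) from Finset.range_orderEmbOfFin _ _]
      exact hbB
    obtain ⟨s, rfl⟩ := this
    exact key _ s rfl
  · exact hy b hbB

end Pool.Agent.SprH
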