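import Pool.Agent.SprH.St

/-!
# PST: combinatorics of positions (project SprH)
-/

set_option autoImplicit false

namespace Pool.Agent.SprH

open Pool.Agent.SprJ

namespace PSTaux

lemma card_lt (n i : ℕ) (hi : i ≤ n) :
    (Finset.univ.filter (fun p : Fin n => (p : ℕ) < i)).card = i := by
  have h : (Finset.univ.filter (fun p : Fin n => (p : ℕ) < i)).map Fin.valEmbedding =
      Finset.range i := by
    ext x
    simp only [Finset.mem_map, Finset.mem_filter, Finset.mem_univ, true_and, Fin.valEmbedding_apply,
      Finset.mem_range]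
    constructor
    · rintro ⟨p, hp, rfl⟩
      exact hp
    · intro hx
      exact ⟨⟨x, by omega⟩, hx, rfl⟩
  rw [← Finset.card_map Fin.valEmbedding, h, Finset.card_range]

lemma card_vset {n : ℕ} (v : Equiv.Perm (Fin n)) (i : ℕ) (hi : i ≤ n) :
    (vset v i).card = i := by
  have h : (Finset.univ.filter (fun p : Fin n => (p : ℕ) < i)).map v.toEmbedding = vset v i := by
    ext x
    simp only [Finset.mem_map, Finset.mem_filter, Finset.mem_univ, true_and, vset,
      Equiv.coe_toEmbedding]
    constructor
    · rintro ⟨p, hp, rfl⟩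
      rw [Equiv.symm_apply_apply]
      exact hp
    · intro hx
      exact ⟨v.symm x, hx, by simp⟩
  rw [← h, Finset.card_map, card_lt n i hi]

end PSTaux

open PSTaux in
theorem t_PST : S_PST := by
  intro n m e v c he h0 hm hP
  have hge : ∀ l : Fin m, c l ≤ ((v.symm (e l) : Fin n) : ℕ) := by
    intro l
    by_contra h
    rw [not_le] at h
    exact lt_irrefl _ ((hP l l (le_of_lt l.2)).mp h)
  have hlt : ∀ l : Fin m, ((v.symm (e l) : Fin n) : ℕ) < c (l + 1) := by
    intro l
    exact (hP (l + 1) l l.2).mpr (Nat.lt_succ_self _)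
  have mono : ∀ j l : ℕ, j ≤ l → l ≤ m → c j ≤ c l := by
    intro j l hjl hl
    rcases eq_or_lt_of_le hjl with rfl | hlt'
    · exact le_rfl
    · have hj : j < m := by omega
      have h1 : c j ≤ ((v.symm (e ⟨j, hj⟩) : Fin n) : ℕ) := hge ⟨j, hj⟩
      have h2 := (hP l ⟨j, hj⟩ hl).mpr hlt'
      omega
  have hmem : ∀ (j : Fin m) (i : ℕ), c j ≤ i → i ≤ c (j + 1) → ∀ x, x ∈ vset v i ↔
      (x ∈ Fr e v i ∨ (∃ l : Fin m, l < j ∧ x = e l) ∨
        (x = e j ∧ ((v.symm (e j) : Fin n) : ℕ) < i)) := by
    intro j i hi1 hi2 x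
    simp only [vset, Fr, Finset.mem_filter, Finset.mem_univ, true_and]
    constructor
    · intro hx
      by_cases hf : ∀ l, x ≠ e l
      · exact Or.inl ⟨hx, hf⟩
      · push Not at hf
        obtain ⟨l, rfl⟩ := hf
        rcases lt_trichotomy l j with hl | rfl | hl
        · exact Or.inr (Or.inl ⟨l, hl, rfl⟩)
        · exact Or.inr (Or.inr ⟨rfl, hx⟩)
        · exfalso
          have h1 := hge l
          have h2 := mono (j + 1) l (by
            have : (j : ℕ) < l := hl
            omega) (le_of_lt l.2)
          omega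
    · rintro (⟨hx, _⟩ | ⟨l, hl, rfl⟩ | ⟨rfl, hx⟩)
      · exact hx
      · have h1 := hlt l
        have h2 := mono (l + 1) j (by
          have : (l : ℕ) < j := hl
          omega) (le_of_lt j.2)
        omega
      · exact hx
  have hFr : ∀ (i : ℕ) (l : Fin m), e l ∉ Fr e v i := by
    intro i l h
    exact (Finset.mem_filter.mp h).2.2 l rfl
  have hin : ∀ (j : Fin m) (i : ℕ), i ≤ c (j + 1) → i ≤ n := by
    intro j i hi
    have := mono (j + 1) m j.2 le_rfl
    omega
  refine ⟨hmem, ?_, ?_, ?_, mono, ?_⟩
  · intro j i hi1 hi2 hp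
    have h1 : vset v i = insert (e j) (Fr e v i ∪ (Finset.Iio j).map ⟨e, he⟩) := by
      ext x
      rw [hmem j i hi1 hi2 x]
      simp only [Finset.mem_insert, Finset.mem_union, Finset.mem_map, Finset.mem_Iio,
        Function.Embedding.coeFn_mk]
      constructor
      · rintro (h | ⟨l, hl, rfl⟩ | ⟨rfl, _⟩)
        · exact Or.inr (Or.inl h)
        · exact Or.inr (Or.inr ⟨l, hl, rfl⟩)
        · exact Or.inl rfl
      · rintro (rfl | h | ⟨l, hl, rfl⟩)
        · exact Or.inr (Or.inr ⟨rfl, hp⟩)
        · exact Or.inl h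
        · exact Or.inr (Or.inl ⟨l, hl, rfl⟩)
    have h2 := card_vset v i (hin j i hi2)
    rw [h1, Finset.card_insert_of_notMem, Finset.card_union_of_disjoint, Finset.card_map,
      Fin.card_Iio] at h2
    · omega
    · rw [Finset.disjoint_left]
      intro x hx hx'
      obtain ⟨l, _, rfl⟩ := Finset.mem_map.mp hx'
      exact hFr i l hx
    · intro h
      rcases Finset.mem_union.mp h with h | h
      · exact hFr i j h
      · obtain ⟨l, hl, hl'⟩ := Finset.mem_map.mp h
        have : l = j := he hl'
        rw [this] at hl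
        exact lt_irrefl _ (Finset.mem_Iio.mp hl)
  · intro j i hi1 hi2 hp
    have h1 : vset v i = Fr e v i ∪ (Finset.Iio j).map ⟨e, he⟩ := by
      ext x
      rw [hmem j i hi1 hi2 x]
      simp only [Finset.mem_union, Finset.mem_map, Finset.mem_Iio,
        Function.Embedding.coeFn_mk]
      constructor
      · rintro (h | ⟨l, hl, rfl⟩ | ⟨rfl, h⟩)
        · exact Or.inl h
        · exact Or.inr ⟨l, hl, rfl⟩
        · exact absurd h hp
      · rintro (h | ⟨l, hl, rfl⟩)
        · exact Or.inl h
        · exact Or.inr (Or.inl ⟨l, hl, rfl⟩)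
    have h2 := card_vset v i (hin j i hi2)
    rw [h1, Finset.card_union_of_disjoint, Finset.card_map, Fin.card_Iio] at h2
    · exact h2
    · rw [Finset.disjoint_left]
      intro x hx hx'
      obtain ⟨l, _, rfl⟩ := Finset.mem_map.mp hx'
      exact hFr i l hx
  · intro j p hp1 hp2 hpj l hl
    have h1 : v.symm (e l) = p := by rw [← hl, Equiv.symm_apply_apply]
    have h2 := hge l
    have h3 := hlt l
    rw [h1] at h2 h3
    rcases lt_trichotomy l j with h | rfl | h
    · have h4 := mono (l + 1) j (by
        have : (l : ℕ) < j := h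
        omega) (le_of_lt j.2)
      omega
    · exact hpj hl
    · have h4 := mono (j + 1) l (by
        have : (j : ℕ) < l := h
        omega) (le_of_lt l.2)
      omega
  · intro hm0 i hi
    by_contra hcon
    push Not at hcon
    have key : ∀ j : ℕ, j ≤ m → c j ≤ i ∧ (j = m → c j < i ∨ m = 0) := by
      intro j
      induction j with
      | zero =>
        intro _
        exact ⟨by omega, fun h => Or.inr h.symm⟩
      | succ j ih =>
        intro hj
        have h1 := (ih (by omega)).1
        have h2 := hcon ⟨j, by omega⟩ h1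
        exact ⟨le_of_lt h2, fun _ => Or.inl h2⟩
    have h3 := (key m le_rfl).2 rfl
    rw [hm] at h3
    omega

end Pool.Agent.SprH
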