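import Pool.Agent.SprH.St

/-!
# SprH_PTH: classification of the matrices: the path
-/

set_option autoImplicit false

open Matrix

namespace Pool.Agent.SprH

open Pool.Agent.SprJ

namespace PTH

variable {K : Type} [Field K] {n : ℕ} (X : Matrix (Fin n) (Fin n) K)

/-- the span of the `X ^ k v`, `k ≥ t` -/
def C (t : ℕ) (v : Fin n → K) : Submodule K (Fin n → K) :=
  Submodule.span K (Set.range fun k : ℕ => (X ^ (k + t)) *ᵥ v)

theorem mem_C (t k : ℕ) (v : Fin n → K) : (X ^ (k + t)) *ᵥ v ∈ C X t v :=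
  Submodule.subset_span ⟨k, rfl⟩

theorem C_le {t : ℕ} {v : Fin n → K} {U : Submodule K (Fin n → K)}
    (h : ∀ k, (X ^ (k + t)) *ᵥ v ∈ U) : C X t v ≤ U :=
  Submodule.span_le.2 (by
    rintro _ ⟨k, rfl⟩
    exact h k)

theorem self_mem (v : Fin n → K) : v ∈ C X 0 v := by
  have h := mem_C X 0 0 v
  rwa [pow_zero, one_mulVec] at h

theorem C_stable (t : ℕ) (v : Fin n → K) : ∀ x ∈ C X t v, X *ᵥ x ∈ C X t v := by
  have h : C X t v ≤ (C X t v).comap (Matrix.mulVecLin X) := C_le X fun k => by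
    rw [Submodule.mem_comap, mulVecLin_apply, mulVec_mulVec, ← pow_succ']
    have h1 := mem_C X t (k + 1) v
    rwa [show k + 1 + t = k + t + 1 by ring] at h1
  exact fun x hx => h hx

theorem C_split (t : ℕ) (v u : Fin n → K) (hu : u ∈ C X t v) :
    ∃ c : K, ∃ w ∈ C X (t + 1) v, u = c • ((X ^ t) *ᵥ v) + w := by
  have h : C X t v ≤ Submodule.span K {(X ^ t) *ᵥ v} ⊔ C X (t + 1) v := C_le X fun k => by
    rcases Nat.eq_zero_or_pos k with rfl | hk
    · rw [zero_add]
      exact Submodule.mem_sup_left (Submodule.mem_span_singleton_self _)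
    · refine Submodule.mem_sup_right ?_
      have h1 := mem_C X (t + 1) (k - 1) v
      rwa [show k - 1 + (t + 1) = k + t by omega] at h1
  obtain ⟨a, ha, w, hw, he⟩ := Submodule.mem_sup.1 (h hu)
  obtain ⟨c, rfl⟩ := Submodule.mem_span_singleton.1 ha
  exact ⟨c, w, hw, he.symm⟩

theorem C_map (t : ℕ) (v u : Fin n → K) (hu : u ∈ C X (t + 1) v) : ∃ y ∈ C X t v, X *ᵥ y = u := by
  have h : C X (t + 1) v ≤ (C X t v).map (Matrix.mulVecLin X) := C_le X fun k =>
    ⟨(X ^ (k + t)) *ᵥ v, mem_C X t k v, by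
      rw [mulVecLin_apply, mulVec_mulVec, ← pow_succ', show k + t + 1 = k + (t + 1) by ring]⟩
  obtain ⟨y, hy, he⟩ := h hu
  exact ⟨y, hy, he⟩

theorem C_kill {h : ℕ} {v w : Fin n → K} (hv : (X ^ (h + 1)) *ᵥ v = 0) (hw : w ∈ C X 1 v) :
    (X ^ h) *ᵥ w = 0 := by
  have h1 : C X 1 v ≤ LinearMap.ker (Matrix.mulVecLin (X ^ h)) := C_le X fun k => by
    rw [LinearMap.mem_ker, mulVecLin_apply, mulVec_mulVec, ← pow_add,
      show h + (k + 1) = k + (h + 1) by ring, pow_add, ← mulVec_mulVec, hv, mulVec_zero]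
  exact LinearMap.mem_ker.1 (h1 hw)

theorem C_coord {v w : Fin n → K} (hw : w ∈ C X 1 v) {a : Fin n} (ha : ∀ j, X a j = 0) :
    w a = 0 := by
  obtain ⟨y, -, rfl⟩ := C_map X 0 v w hw
  rw [mulVec, dotProduct]
  exact Finset.sum_eq_zero fun j _ => by rw [ha j, zero_mul]

theorem C_mono {v u : Fin n → K} (hv : v ∈ C X 0 u) : C X 1 v ≤ C X 1 u := by
  have h1 : ∀ k, C X 0 u ≤ (C X 1 u).comap (Matrix.mulVecLin (X ^ (k + 1))) := fun k =>
    C_le X fun a => by
      rw [Submodule.mem_comap, mulVecLin_apply, mulVec_mulVec, ← pow_add,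
        show k + 1 + (a + 0) = (k + a) + 1 by ring]
      exact mem_C X 1 (k + a) u
  exact C_le X fun k => h1 k hv

theorem C_one_le (v : Fin n → K) : C X 1 v ≤ C X 0 v := C_le X fun k => mem_C X 0 (k + 1) v

/-- the basis vector -/
abbrev ee (i : Fin n) : Fin n → K := Pi.single i 1

theorem ee_same (i : Fin n) : (ee i : Fin n → K) i = 1 := Pi.single_eq_same i 1

theorem ee_ne {i a : Fin n} (h : a ≠ i) : (ee i : Fin n → K) a = 0 := Pi.single_eq_of_ne h 1

theorem mulVec_ee (i r : Fin n) : (X *ᵥ (ee i : Fin n → K)) r = X r i := by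
  rw [mulVec_single_one]
  rfl

section

variable {X} (hd : ∀ i, X i i = 0)
  (hP : ∀ i j, X i j ≠ 0 → ∀ U : Submodule K (Fin n → K), (∀ x ∈ U, X *ᵥ x ∈ U) →
    ∀ x ∈ U, x j ≠ 0 → (Pi.single i 1 : Fin n → K) ∈ U)

include hd hP in
/-- `e_i` is in `X K[X] e_j` -/
theorem lemB {i j : Fin n} (h : X i j ≠ 0) : (ee i : Fin n → K) ∈ C X 1 (ee j) := by
  have hij : i ≠ j := by
    rintro rfl
    exact h (hd i)
  have h1 : (ee i : Fin n → K) ∈ C X 0 (ee j) := hP i j h _ (C_stable X 0 _) _ (self_mem X _) (by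
    rw [ee_same]
    exact one_ne_zero)
  obtain ⟨c, w, hw, he⟩ := C_split X 0 _ _ h1
  rw [pow_zero, one_mulVec] at he
  by_cases hc : c = 0
  · rw [hc, zero_smul, zero_add] at he
    rw [he]
    exact hw
  · refine hP i j h _ (C_stable X 1 _) w hw ?_
    have h2 := congrFun he j
    rw [ee_ne hij.symm, Pi.add_apply, Pi.smul_apply, ee_same,
      smul_eq_mul, mul_one] at h2
    intro h3
    rw [h3, add_zero] at h2
    exact hc h2.symm

end

end PTH

open PTH in
/-- SprH_PTH -/
theorem t_PTH : S_PTH := by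
  classical
  intro K _ n X hn hX hd hP
  have : Nonempty (Fin n) := ⟨⟨0, hn⟩⟩
  -- the order of nilpotence
  obtain ⟨N, hN0, hN1⟩ : ∃ N : ℕ, X ^ N = 0 ∧ ∀ k < N, X ^ k ≠ 0 :=
    ⟨Nat.find hX, Nat.find_spec hX, fun k hk => Nat.find_min hX hk⟩
  have hNpos : 0 < N := by
    rcases Nat.eq_zero_or_pos N with h | h
    · rw [h, pow_zero] at hN0
      exact absurd hN0 one_ne_zero
    · exact h
  -- heights
  have hex : ∀ i : Fin n, ∃ k, (X ^ k) *ᵥ (ee i : Fin n → K) = 0 := fun i =>
    ⟨N, by rw [hN0, zero_mulVec]⟩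
  obtain ⟨H, hH0, hH1⟩ : ∃ H : Fin n → ℕ, (∀ i, (X ^ H i) *ᵥ (ee i : Fin n → K) = 0) ∧
      ∀ i k, (X ^ k) *ᵥ (ee i : Fin n → K) = 0 → H i ≤ k :=
    ⟨fun i => Nat.find (hex i), fun i => Nat.find_spec (hex i),
      fun i k hk => Nat.find_min' (hex i) hk⟩
  have hHpos : ∀ i, 0 < H i := by
    intro i
    rcases Nat.eq_zero_or_pos (H i) with h | h
    · have h1 := hH0 i
      rw [h, pow_zero, one_mulVec] at h1
      have h2 := congrFun h1 i
      rw [ee_same] at h2
      exact absurd h2 one_ne_zero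
    · exact h
  have hHN : ∀ i, H i ≤ N := fun i => hH1 i N (by rw [hN0, zero_mulVec])
  obtain ⟨f, hf⟩ : ∃ f, H f = N := by
    by_contra hcon
    push Not at hcon
    apply hN1 (N - 1) (by omega)
    ext r i
    have h1 : (X ^ (N - 1)) *ᵥ (ee i : Fin n → K) = 0 := by
      have h2 := hcon i
      have h3 := hHN i
      rw [show N - 1 = (N - 1 - H i) + H i by omega, pow_add, ← mulVec_mulVec, hH0 i, mulVec_zero]
    have h2 := congrFun h1 r
    rw [mulVec_ee] at h2
    exact h2
  -- the relation lowers the height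
  have hlow : ∀ i j, X i j ≠ 0 → H i < H j := by
    intro i j h
    have h1 := lemB hd hP h
    have h2 := hHpos j
    have h3 : (X ^ (H j - 1)) *ᵥ (ee i : Fin n → K) = 0 := by
      refine C_kill X (v := ee j) ?_ h1
      rw [Nat.sub_add_cancel h2]
      exact hH0 j
    have h4 := hH1 i _ h3
    omega
  have hdesc : ∀ j h, 0 < h → H j = h + 1 → ∃ i, X i j ≠ 0 ∧ H i = h := by
    intro j h hpos hj
    by_contra hcon
    push Not at hcon
    have h1 : (X ^ h) *ᵥ (ee j : Fin n → K) = 0 := by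
      have h2 : X *ᵥ (ee j : Fin n → K) = ∑ i, X i j • (ee i : Fin n → K) := by
        funext r
        rw [mulVec_ee, Finset.sum_apply, Finset.sum_eq_single r]
        · rw [Pi.smul_apply, ee_same, smul_eq_mul, mul_one]
        · intro b _ hb
          rw [Pi.smul_apply, ee_ne hb.symm, smul_zero]
        · intro h
          exact absurd (Finset.mem_univ _) h
      rw [show h = (h - 1) + 1 by omega, pow_succ, ← mulVec_mulVec, h2, mulVec_sum]
      refine Finset.sum_eq_zero fun i _ => ?_
      rw [mulVec_smul]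
      by_cases h3 : X i j = 0
      · rw [h3, zero_smul]
      · have h4 := hlow i j h3
        have h5 := hcon i h3
        rw [show h - 1 = (h - 1 - H i) + H i by omega, pow_add, ← mulVec_mulVec, hH0 i,
          mulVec_zero, smul_zero]
    have h2 := hH1 j h h1
    omega
  -- the set R
  set R : Finset (Fin n) := Finset.univ.filter fun i => ∃ j, X i j ≠ 0 with hR
  have memR : ∀ i, i ∈ R ↔ ∃ j, X i j ≠ 0 := fun i => by
    rw [hR, Finset.mem_filter]
    exact ⟨fun h => h.2, fun h => ⟨Finset.mem_univ _, h⟩⟩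
  have hRN : ∀ i ∈ R, H i < N := by
    intro i hi
    obtain ⟨j, hj⟩ := (memR i).1 hi
    have h1 := hlow i j hj
    have h2 := hHN j
    omega
  have hfR : f ∉ R := fun h => by
    have h1 := hRN f h
    omega
  have hnR : ∀ a, a ∉ R → ∀ j, X a j = 0 := by
    intro a ha j
    by_contra h
    exact ha ((memR a).2 ⟨j, h⟩)
  have hsurj : ∀ h, 0 < h → h < N → ∃ i ∈ R, H i = h := by
    intro h hpos hlt
    induction hk : N - 1 - h generalizing h with
    | zero =>
      obtain ⟨i, hi, hi2⟩ := hdesc f h hpos (by omega)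
      exact ⟨i, (memR i).2 ⟨f, hi⟩, hi2⟩
    | succ k ih =>
      obtain ⟨j, -, hj2⟩ := ih (h + 1) (by omega) (by omega) (by omega)
      obtain ⟨i, hi, hi2⟩ := hdesc j h hpos hj2
      exact ⟨i, (memR i).2 ⟨j, hi⟩, hi2⟩
  -- the cardinality of R
  have hcard : R.card ≤ N - 1 := by
    have h1 : ∀ i ∈ R, (ee i : Fin n → K) ∈ C X 1 (fun _ => (1 : K)) := by
      intro i hi
      obtain ⟨j, hj⟩ := (memR i).1 hi
      have h2 : (ee i : Fin n → K) ∈ C X 0 (fun _ => (1 : K)) :=
        hP i j hj _ (C_stable X 0 _) _ (self_mem X _) one_ne_zero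
      obtain ⟨c, w, hw, he⟩ := C_split X 0 _ _ h2
      rw [pow_zero, one_mulVec] at he
      have h3 := congrFun he f
      have hfi : f ≠ i := by
        rintro rfl
        exact hfR hi
      rw [ee_ne hfi, Pi.add_apply, Pi.smul_apply, smul_eq_mul, mul_one,
        C_coord X hw (hnR f hfR), add_zero] at h3
      rw [← h3, zero_smul, zero_add] at he
      rw [he]
      exact hw
    have h2 : C X 1 (fun _ => (1 : K)) ≤
        Submodule.span K (Set.range fun k : Fin (N - 1) =>
          (X ^ ((k : ℕ) + 1)) *ᵥ (fun _ => (1 : K))) := C_le X fun k => by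
      by_cases hk : k < N - 1
      · exact Submodule.subset_span ⟨⟨k, hk⟩, rfl⟩
      · rw [show k + 1 = (k + 1 - N) + N by omega, pow_add, hN0, mul_zero, zero_mulVec]
        exact Submodule.zero_mem _
    have h3 : LinearIndependent K (fun i : R => (ee (i : Fin n) : Fin n → K)) := by
      have h4 := (Pi.basisFun K (Fin n)).linearIndependent.comp (fun i : R => (i : Fin n))
        Subtype.val_injective
      have h5 : (Pi.basisFun K (Fin n) : Fin n → Fin n → K) ∘ (fun i : R => (i : Fin n)) =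
          fun i : R => (ee (i : Fin n) : Fin n → K) := by
        funext i
        simp [Pi.basisFun_apply, ee]
      rw [h5] at h4
      exact h4
    have h4 := finrank_span_eq_card h3
    have h5 : Submodule.span K (Set.range (fun i : R => (ee (i : Fin n) : Fin n → K))) ≤
        Submodule.span K (Set.range fun k : Fin (N - 1) =>
          (X ^ ((k : ℕ) + 1)) *ᵥ (fun _ => (1 : K))) := by
      refine Submodule.span_le.2 ?_
      rintro _ ⟨i, rfl⟩
      exact h2 (h1 i i.2)
    have h6 := Submodule.finrank_mono h5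
    rw [h4, Fintype.card_coe] at h6
    refine h6.trans ((finrank_range_le_card _).trans ?_)
    rw [Fintype.card_fin]
  have hinj : ∀ i ∈ R, ∀ i' ∈ R, H i = H i' → i = i' := by
    have h1 : Finset.Ico 1 N ⊆ R.image H := by
      intro h hh
      rw [Finset.mem_Ico] at hh
      obtain ⟨i, hi, hi2⟩ := hsurj h hh.1 hh.2
      exact Finset.mem_image.2 ⟨i, hi, hi2⟩
    have h2 := Finset.card_le_card h1
    rw [Nat.card_Ico] at h2
    have h3 : (R.image H).card = R.card := le_antisymm Finset.card_image_le (hcard.trans h2)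
    have h4 := Finset.card_image_iff.1 h3
    exact fun i hi i' hi' h => h4 hi hi' h
  -- the vectors of R are in X K[X] e_f
  have hRf : ∀ i ∈ R, (ee i : Fin n → K) ∈ C X 1 (ee f) := by
    intro i hi
    induction hk : N - 1 - H i generalizing i with
    | zero =>
      have h1 := hRN i hi
      obtain ⟨i', hi', hi2⟩ := hdesc f (H i) (hHpos i) (by omega)
      have h2 := hinj i' ((memR i').2 ⟨f, hi'⟩) i hi hi2
      subst h2
      exact lemB hd hP hi'
    | succ k ih =>
      have h1 := hRN i hi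
      obtain ⟨j, hj, hj2⟩ := hsurj (H i + 1) (by omega) (by omega)
      obtain ⟨i', hi', hi2⟩ := hdesc j (H i) (hHpos i) hj2
      have h2 := hinj i' ((memR i').2 ⟨j, hi'⟩) i hi hi2
      subst h2
      have h3 := ih j hj (by omega)
      exact C_mono X (C_one_le X _ h3) (lemB hd hP hi')
  -- the other columns are zero
  have hout : ∀ f', f' ∉ R → f' ≠ f → ∀ r, X r f' = 0 := by
    intro f' h1 h2 r
    by_contra hr
    have h3 : X *ᵥ (ee f' : Fin n → K) ∈ C X 1 (ee f) := by
      have h4 : X *ᵥ (ee f' : Fin n → K) = ∑ i, X i f' • (ee i : Fin n → K) := by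
        funext r
        rw [mulVec_ee, Finset.sum_apply, Finset.sum_eq_single r]
        · rw [Pi.smul_apply, ee_same, smul_eq_mul, mul_one]
        · intro b _ hb
          rw [Pi.smul_apply, ee_ne hb.symm, smul_zero]
        · intro h
          exact absurd (Finset.mem_univ _) h
      rw [h4]
      refine Submodule.sum_mem _ fun i _ => ?_
      by_cases h5 : i ∈ R
      · exact Submodule.smul_mem _ _ (hRf i h5)
      · rw [hnR i h5, zero_smul]
        exact Submodule.zero_mem _
    obtain ⟨c, w, hw, he⟩ := C_split X 1 _ _ h3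
    obtain ⟨y, hy, hy2⟩ := C_map X 1 _ _ hw
    rw [pow_one] at he
    have hz : X *ᵥ ((ee f' : Fin n → K) - c • ee f - y) = 0 := by
      rw [mulVec_sub, mulVec_sub, mulVec_smul, he, hy2]
      abel
    have hzf : ((ee f' - c • ee f - y : Fin n → K)) f' = 1 := by
      rw [Pi.sub_apply, Pi.sub_apply, Pi.smul_apply, ee_same, ee_ne h2,
        C_coord X hy (hnR f' h1), smul_zero, sub_zero, sub_zero]
    have h6 := hP r f' hr (Submodule.span K {(ee f' : Fin n → K) - c • ee f - y}) (by
      intro x hx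
      obtain ⟨a, rfl⟩ := Submodule.mem_span_singleton.1 hx
      rw [mulVec_smul, hz, smul_zero]
      exact Submodule.zero_mem _) _ (Submodule.mem_span_singleton_self _) (by
        rw [hzf]
        exact one_ne_zero)
    obtain ⟨a, ha⟩ := Submodule.mem_span_singleton.1 h6
    have hrf : f' ≠ r := by
      rintro rfl
      exact hr (hd f')
    have h7 := congrFun ha f'
    rw [Pi.smul_apply, hzf, smul_eq_mul, mul_one, Pi.single_eq_of_ne hrf] at h7
    rw [h7, zero_smul] at ha
    have h8 := congrFun ha r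
    rw [Pi.single_eq_same, Pi.zero_apply] at h8
    exact zero_ne_one h8
  -- the path
  have hch : ∀ l : Fin N, ∃ i : Fin n, H i = l + 1 ∧ ((l : ℕ) + 1 < N → i ∈ R) ∧
      ((l : ℕ) + 1 = N → i = f) := by
    intro l
    by_cases h1 : (l : ℕ) + 1 < N
    · obtain ⟨i, hi, hi2⟩ := hsurj (l + 1) (by omega) h1
      exact ⟨i, hi2, fun _ => hi, fun h => by omega⟩
    · have := l.2
      exact ⟨f, by omega, fun h => absurd h h1, fun _ => rfl⟩
  choose e he1 he2 he3 using hch
  have hback : ∀ r, r ∈ R → ∀ l : Fin N, H r = l + 1 → r = e l := by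
    intro r hr l hl
    have h1 := hRN r hr
    exact hinj r hr (e l) (he2 l (by omega)) (by rw [hl, he1])
  refine ⟨N, e, hNpos, ?_, ?_, ?_, ?_⟩
  · intro l l' h
    have h1 := he1 l
    have h2 := he1 l'
    rw [h] at h1
    exact Fin.ext (by omega)
  · intro f' h1 r
    have h2 : f' ∉ R := by
      intro h3
      have h4 := hRN f' h3
      have h5 := hHpos f'
      exact h1 ⟨H f' - 1, by omega⟩ (hback f' h3 ⟨H f' - 1, by omega⟩ (by simp; omega))
    have h3 : f' ≠ f := by
      intro h4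
      have h5 := he3 ⟨N - 1, by omega⟩ (by simp; omega)
      exact h1 ⟨N - 1, by omega⟩ (by rw [h5, h4])
    exact hout f' h2 h3 r
  · intro j r hr
    have h1 := hlow r (e j) hr
    rw [he1] at h1
    have h2 := hHpos r
    have h3 := j.2
    refine ⟨⟨H r - 1, by omega⟩, ?_, hback r ((memR r).2 ⟨_, hr⟩) ⟨H r - 1, by omega⟩ (by
      simp; omega)⟩
    rw [Fin.lt_def]
    simp
    omega
  · intro i j hij
    obtain ⟨r, hr, hr2⟩ := hdesc (e j) j (by omega) (he1 j)
    have h1 := hback r ((memR r).2 ⟨_, hr⟩) i (by omega)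
    rw [← h1]
    exact hr

end Pool.Agent.SprH
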