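import Pool.Agent.SprH.St

/-!
# Torus-stable Springer fibres, module STB: stability of the flag (helper29)
-/

set_option autoImplicit false

open Matrix

namespace Pool.Agent.SprH

open Pool.Agent.SprJ

namespace STB

variable {K : Type} [Field K] {n : ℕ}

theorem ut_mul {A B : Matrix (Fin n) (Fin n) K} (hA : UT A) (hB : UT B) :
    UT (A * B) ∧ ∀ i, (A * B) i i = A i i * B i i := by
  refine ⟨fun i j hij => ?_, fun i => ?_⟩
  · rw [Matrix.mul_apply]
    refine Finset.sum_eq_zero fun r _ => ?_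
    by_cases h : r < i
    · rw [hA i r h, zero_mul]
    · rw [hB r j (lt_of_lt_of_le hij (not_lt.1 h)), mul_zero]
  · rw [Matrix.mul_apply, Finset.sum_eq_single i]
    · intro r _ hr
      rcases lt_or_gt_of_ne hr with h | h
      · rw [hA i r h, zero_mul]
      · rw [hB r i h, mul_zero]
    · intro h
      exact absurd (Finset.mem_univ _) h

theorem ut_pow {A : Matrix (Fin n) (Fin n) K} (hA : UT A) (k : ℕ) :
    UT (A ^ k) ∧ ∀ i, (A ^ k) i i = (A i i) ^ k := by
  induction k with
  | zero =>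
    refine ⟨fun i j hij => ?_, fun i => ?_⟩
    · rw [pow_zero, Matrix.one_apply_ne (ne_of_gt hij)]
    · rw [pow_zero, pow_zero, Matrix.one_apply_eq]
  | succ k ih =>
    obtain ⟨h1, h2⟩ := ut_mul ih.1 hA
    refine ⟨?_, fun i => ?_⟩
    · rw [pow_succ]
      exact h1
    · rw [pow_succ, h2, ih.2, pow_succ]

end STB

open STB in
theorem t_STB : S_STB := by
  intro K _ n X g hg
  obtain ⟨Y, hY⟩ : ∃ Y, Y = g⁻¹ * X * g := ⟨_, rfl⟩
  have hXg : X * g = g * Y := by
    rw [hY, ← Matrix.mul_assoc, ← Matrix.mul_assoc, Matrix.mul_nonsing_inv _ hg, Matrix.one_mul]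
  have hXy : ∀ y, X *ᵥ (g *ᵥ y) = g *ᵥ (Y *ᵥ y) := by
    intro y
    rw [Matrix.mulVec_mulVec, hXg, ← Matrix.mulVec_mulVec]
  have hinj : ∀ y z, g *ᵥ y = g *ᵥ z → y = z := by
    intro y z h
    have := congrArg (fun t => g⁻¹ *ᵥ t) h
    simpa only [Matrix.mulVec_mulVec, Matrix.nonsing_inv_mul _ hg, Matrix.one_mulVec] using this
  refine ⟨?_, fun hN hS i => ?_⟩
  · unfold InSpringer
    rw [← hY]
    constructor
    · rintro hUT i x ⟨y, hy, rfl⟩
      rw [Matrix.mulVecLin_apply, hXy]
      refine ⟨Y *ᵥ y, fun l hl => ?_, rfl⟩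
      rw [Matrix.mulVec, dotProduct]
      refine Finset.sum_eq_zero fun r _ => ?_
      by_cases h : r < l
      · rw [hUT l r h, zero_mul]
      · have h1 : (l : ℕ) ≤ r := not_lt.1 h
        rw [hy r (hl.trans h1), mul_zero]
    · intro hst r l hlr
      obtain ⟨z, hz, hz2⟩ := hst ((l : ℕ) + 1) (g *ᵥ Pi.single l 1) ⟨Pi.single l 1, fun q hq => by
        rw [Pi.single_eq_of_ne]
        intro h
        rw [h] at hq
        omega, rfl⟩
      rw [Matrix.mulVecLin_apply, hXy] at hz2
      have h1 := congrFun (hinj _ _ hz2) r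
      rw [hz r (by have : (l : ℕ) < r := hlr
                   omega), Matrix.mulVec_single_one] at h1
      exact h1.symm
  · unfold InSpringer at hS
    rw [← hY] at hS
    obtain ⟨N, hN⟩ := hN
    have hYN : Y ^ N = 0 := by
      have h1 : ∀ k, g * Y ^ k = X ^ k * g := by
        intro k
        induction k with
        | zero => rw [pow_zero, pow_zero, Matrix.mul_one, Matrix.one_mul]
        | succ k ih => rw [pow_succ, ← Matrix.mul_assoc, ih, Matrix.mul_assoc, ← hXg,
            ← Matrix.mul_assoc, ← pow_succ]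
      have h2 := h1 N
      rw [hN, Matrix.zero_mul] at h2
      have h3 := congrArg (fun t => g⁻¹ * t) h2
      simpa only [← Matrix.mul_assoc, Matrix.nonsing_inv_mul _ hg, Matrix.one_mul,
        Matrix.mul_zero] using h3
    have hdiag : ∀ l, Y l l = 0 := by
      intro l
      have h1 := (ut_pow hS N).2 l
      rw [hYN, Matrix.zero_apply] at h1
      by_contra hne
      exact pow_ne_zero N hne h1.symm
    rintro x ⟨y, hy, rfl⟩
    rw [Matrix.mulVecLin_apply, hXy]
    refine ⟨Y *ᵥ y, fun l hl => ?_, rfl⟩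
    rw [Matrix.mulVec, dotProduct]
    refine Finset.sum_eq_zero fun r _ => ?_
    rcases lt_trichotomy r l with h | h | h
    · rw [hS l r h, zero_mul]
    · rw [h, hdiag, zero_mul]
    · have h1 : (l : ℕ) < r := h
      rw [hy r (by omega), mul_zero]

end Pool.Agent.SprH
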