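import Pool.Agent.SprH.St
import Pool.Agent.SprH.P_NEC

/-!
# Torus-stable Springer fibres, module SUF: sufficiency (helper29)
-/

set_option autoImplicit false

open Matrix

namespace Pool.Agent.SprH

open Pool.Agent.SprJ

theorem t_SUF : M_SUF := by
  intro hPST hFAM hFMN hCOM hCZS hTOR hCON K _ _ n m X e hX hn v w c hc
  obtain ⟨h0, hm, hv, hw, hlev⟩ := hc
  obtain ⟨-, -, -, -, -, hex⟩ := hPST n m e v c hX.inj h0 hm hv
  obtain ⟨π, hπ⟩ := hCOM K n m e v w c (fun i hi => by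
    obtain ⟨j, h1, h2⟩ := hex hX.pos i hi
    exact hFMN K n m e v w c hX.inj h0 hm hv hw j i h1 h2 (hlev j i h1 h2))
  obtain ⟨⟨b, hb, hg⟩, hZ⟩ := hFAM K n m e w c π hX.inj h0 hm hw
  have hdet : IsUnit (gm e w c π).det := by
    rw [hg, Matrix.det_mul]
    exact hb.2.mul (det_perm_unit w)
  refine hCON K n X (gm e w c π) v w (hTOR K n m X e hX hn) ⟨⟨b, 1, hb, ⟨?_, ?_⟩, ?_⟩, ?_⟩ hπ
  · intro i j hij
    exact Matrix.one_apply_ne (ne_of_gt hij)
  · rw [Matrix.det_one]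
    exact isUnit_one
  · rw [Matrix.mul_one]
    exact hg
  · exact hCZS K n m X _ e c hX hdet hZ

end Pool.Agent.SprH
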