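import Pool.Agent.SprH.St

/-!
# Torus-stable Springer fibres, module TOR: torus-stability (helper29)
-/

set_option autoImplicit false

open Matrix

namespace Pool.Agent.SprH

open Pool.Agent.SprJ

theorem t_TOR : M_TOR := by
  intro hCUT hCZS K _ n m X e hX hn d hd g hg hS
  obtain ⟨c, h0, hm, hc⟩ := hCUT K n m X g e hX hn hg hS
  have hdet : IsUnit (diagonal d * g).det := by
    rw [Matrix.det_mul, Matrix.det_diagonal]
    exact (isUnit_iff_ne_zero.2 (Finset.prod_ne_zero_iff.2 fun i _ => hd i)).mul hg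
  refine hCZS K n m X _ e c hX hdet ⟨h0, hm, fun j l hj => ⟨fun hl => ?_, fun hl x hx => ?_⟩⟩
  · obtain ⟨y, hy, hyx⟩ := (hc j l hj).1 hl
    rw [Matrix.mulVecLin_apply] at hyx
    refine ⟨(d (e l))⁻¹ • y, fun r hr => ?_, ?_⟩
    · rw [Pi.smul_apply, hy r hr, smul_zero]
    · rw [Matrix.mulVecLin_apply, Matrix.mulVec_smul, ← Matrix.mulVec_mulVec, hyx]
      funext r
      rw [Pi.smul_apply, Matrix.mulVec_diagonal]
      by_cases hr : r = e l
      · subst hr
        rw [Pi.single_eq_same, mul_one, smul_eq_mul, inv_mul_cancel₀ (hd _)]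
      · rw [Pi.single_eq_of_ne hr, mul_zero, smul_zero]
  · obtain ⟨y, hy, rfl⟩ := hx
    rw [Matrix.mulVecLin_apply, ← Matrix.mulVec_mulVec, Matrix.mulVec_diagonal,
      (hc j l hj).2 hl (g *ᵥ y) ⟨y, hy, rfl⟩, mul_zero]

end Pool.Agent.SprH
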