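import Pool.Agent.SprH.St

/-!
# VAN: vectors with polynomial combinations in a subspace
-/

set_option autoImplicit false

namespace Pool.Agent.SprH

open Polynomial in
theorem t_VAN : S_VAN := by
  intro K _ _ n N U f h k hk
  rw [← Submodule.Quotient.mk_eq_zero]
  rw [← (Module.forall_dual_apply_eq_zero_iff K (Submodule.Quotient.mk (f k) : (Fin n → K) ⧸ U))]
  intro φ
  let P : K[X] := ∑ j ∈ Finset.range (N + 1), Polynomial.C (φ (Submodule.Quotient.mk (f j))) *
    Polynomial.X ^ j
  have hP : ∀ s : K, s ≠ 0 → P.eval s = 0 := by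
    intro s hs
    have h1 : (Submodule.Quotient.mk (∑ j ∈ Finset.range (N + 1), s ^ j • f j) :
        (Fin n → K) ⧸ U) = 0 := (Submodule.Quotient.mk_eq_zero _).2 (h s hs)
    have h2 : φ (Submodule.Quotient.mk (∑ j ∈ Finset.range (N + 1), s ^ j • f j)) = 0 := by
      rw [h1, map_zero]
    rw [← Submodule.mkQ_apply, map_sum, map_sum] at h2
    rw [← h2, Polynomial.eval_finset_sum]
    refine Finset.sum_congr rfl fun j _ => ?_
    rw [Polynomial.eval_mul, Polynomial.eval_C, Polynomial.eval_pow, Polynomial.eval_X, map_smul,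
      map_smul, smul_eq_mul, mul_comm]
    rfl
  have hP0 : P = 0 := by
    refine Polynomial.eq_zero_of_infinite_isRoot P ((Set.infinite_univ (α := K)).diff
      (Set.finite_singleton (0 : K)) |>.mono fun s hs => ?_)
    exact hP s (by simpa using hs.2)
  have h3 : P.coeff k = φ (Submodule.Quotient.mk (f k)) := by
    simp only [P, Polynomial.finset_sum_coeff, Polynomial.coeff_C_mul, Polynomial.coeff_X_pow]
    rw [Finset.sum_eq_single k]
    · simp
    · intro j _ hj
      rw [if_neg (Ne.symm hj), mul_zero]
    · intro hk'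
      exact absurd (Finset.mem_range.2 (Nat.lt_succ_of_le hk)) hk'
  rw [← h3, hP0, Polynomial.coeff_zero]

end Pool.Agent.SprH
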