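import Pool.Agent.SprH.P_FLD
import Pool.Agent.SprH.P_STB
import Pool.Agent.SprH.P_LST
import Pool.Agent.SprH.P_LEA
import Pool.Agent.SprH.P_GAL
import Pool.Agent.SprH.P_GEQ
import Pool.Agent.SprH.P_PST
import Pool.Agent.SprH.P_CUT
import Pool.Agent.SprH.P_CZS
import Pool.Agent.SprH.P_TOR
import Pool.Agent.SprH.P_NMN
import Pool.Agent.SprH.P_NPO
import Pool.Agent.SprH.P_LEV
import Pool.Agent.SprH.P_NEC
import Pool.Agent.SprH.P_LUD
import Pool.Agent.SprH.P_CON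
import Pool.Agent.SprH.P_PNT
import Pool.Agent.SprH.P_FAM
import Pool.Agent.SprH.P_FMN
import Pool.Agent.SprH.P_COM
import Pool.Agent.SprH.P_SUF
import Pool.Agent.SprH.P_CNJ
import Pool.Agent.SprH.P_FLG
import Pool.Agent.SprH.P_VAN
import Pool.Agent.SprH.P_EIJ
import Pool.Agent.SprH.P_PTH

/-!
# The closure criterion for nilpotent matrices with torus-stable Springer fibre (MP_3a0658_ag)
-/

set_option autoImplicit false

open Matrix

namespace Pool.Agent.SprH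

open Pool.Agent.SprJ

theorem a_CUT : S_CUT := t_CUT t_FLD t_STB
theorem a_CZS : S_CZS := t_CZS t_FLD t_STB
theorem a_TOR : S_TOR := t_TOR a_CUT a_CZS
theorem a_GAL : S_GAL := t_GAL t_LEA
theorem a_NPO : S_NPO := t_NPO t_FLD t_LST
theorem a_LEV : S_LEV := t_LEV t_FLD t_LST t_LEA a_GAL t_GEQ t_PST
theorem a_NEC : S_NEC := t_NEC t_PST t_NMN a_CUT a_NPO a_LEV
theorem a_CON : S_CON := t_CON t_LUD
theorem a_FAM : S_FAM := t_FAM t_FLD t_PST
theorem a_FMN : S_FMN := t_FMN t_FLD t_GEQ t_PST t_PNT a_FAM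
theorem a_SUF : S_SUF := t_SUF t_PST a_FAM a_FMN t_COM a_CZS a_TOR a_CON
theorem a_FLG : S_FLG := t_FLG t_FLD t_STB
theorem a_EIJ : S_EIJ := t_EIJ t_FLD t_STB a_FLG t_VAN

theorem a_FIN : S_FIN := by
  intro K _ _ n hn X hX
  refine ⟨⟨fun hT => ?_, ?_⟩, fun m e he v w u hu hv => ?_⟩
  · obtain ⟨h1, h2⟩ := a_EIJ K n X hX hT
    exact t_PTH K n X hn hX h1 h2
  · rintro ⟨m, e, he⟩
    exact a_TOR K n m X e he hX
  · rw [t_CNJ K n X u v w hu hv]
    exact ⟨a_NEC K n m X e he hX v w, fun ⟨c, hc⟩ => a_SUF K n m X e he hX v w c hc⟩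

end Pool.Agent.SprH
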