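import Pool.Agent.SprJ.Base

/-!
# Nilpotent matrices with torus-stable Springer fibre (MP_3a0658_ag): definitions (architect helper29)
-/

set_option autoImplicit false

open Matrix

namespace Pool.Agent.SprH

open Pool.Agent.SprJ

/-! ## The matrices -/

section

variable {K : Type} [Field K] {n m : ℕ}

/-- The Springer fibre of `X` is stable under the diagonal torus. -/
def TStable (X : Matrix (Fin n) (Fin n) K) : Prop :=
  ∀ d : Fin n → K, (∀ i, d i ≠ 0) → ∀ g : Matrix (Fin n) (Fin n) K, IsUnit g.det →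
    InSpringer X g → InSpringer X (diagonal d * g)

/-- `X` acts on the distinct basis vectors `e 0, …, e (m - 1)` by `X e_0 = 0`,
`X e_j ∈ c_j e_{j-1} + ⟨e_0, …, e_{j-2}⟩`, `c_j ≠ 0`, and `X` kills the other basis vectors. -/
structure Hook (X : Matrix (Fin n) (Fin n) K) (e : Fin m → Fin n) : Prop where
  pos : 0 < m
  inj : Function.Injective e
  out : ∀ f, (∀ j, f ≠ e j) → ∀ r, X r f = 0
  low : ∀ j r, X r (e j) ≠ 0 → ∃ l, l < j ∧ r = e l
  nz : ∀ i j : Fin m, (i : ℕ) + 1 = j → X (e i) (e j) ≠ 0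

end

/-! ## The criterion -/

section

variable {n m : ℕ}

/-- the indices `v 0, …, v (i - 1)` -/
def vset (v : Equiv.Perm (Fin n)) (i : ℕ) : Finset (Fin n) :=
  Finset.univ.filter fun x => ((v.symm x : Fin n) : ℕ) < i

/-- the Gale order: `A` has at most as many elements `≥ t` as `B`, for all `t` -/
def Gale (A B : Finset (Fin n)) : Prop :=
  ∀ t : Fin n, (A.filter fun x => t ≤ x).card ≤ (B.filter fun x => t ≤ x).card

/-- The condition at the level `i`, `lo ≤ i ≤ hi`, for the index `k`. -/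
def Level (v w : Equiv.Perm (Fin n)) (k : Fin n) (lo hi i : ℕ) : Prop :=
  (k ∈ vset v i → k ∈ vset w i → Gale (vset v i) (vset w i)) ∧
  (k ∉ vset v i → k ∉ vset w i → Gale (vset v i) (vset w i)) ∧
  (k ∈ vset v i → k ∉ vset w i → ∃ p : Fin n, lo ≤ p ∧ (p : ℕ) < i ∧ k < w p ∧
    Gale (vset v i) (insert k ((vset w i).erase (w p)))) ∧
  (k ∉ vset v i → k ∈ vset w i → ∃ p : Fin n, i ≤ p ∧ (p : ℕ) < hi ∧ w p < k ∧
    Gale (vset v i) (insert (w p) ((vset w i).erase k)))

/-- Exactly `e 0, …, e (j - 1)` are at positions `< c_j` in `v`, for all `j ≤ m`. -/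
def Pos (e : Fin m → Fin n) (v : Equiv.Perm (Fin n)) (c : ℕ → ℕ) : Prop :=
  ∀ (j : ℕ) (l : Fin m), j ≤ m → (((v.symm (e l) : Fin n) : ℕ) < c j ↔ (l : ℕ) < j)

/-- The criterion: cuts `0 = c_0, …, c_m = n` such that `e 0, …, e (j - 1)` are at positions `< c_j`, `e j, …, e (m - 1)` at positions
`≥ c_j`, both in `v` and in `w`, and the condition `Level` holds for `c_j ≤ i ≤ c_(j+1)`, `k = e j`. -/
def Crit (e : Fin m → Fin n) (v w : Equiv.Perm (Fin n)) (c : ℕ → ℕ) : Prop :=
  c 0 = 0 ∧ c m = n ∧ Pos e v c ∧ Pos e w c ∧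
  ∀ (j : Fin m) (i : ℕ), c j ≤ i → i ≤ c (j + 1) → Level v w (e j) (c j) (c (j + 1)) i

end

/-! ## Flags and leading indices -/

section

variable {K : Type} [Field K] {n m : ℕ}

/-- the span of the first `i` columns of `g` -/
def Fl (g : Matrix (Fin n) (Fin n) K) (i : ℕ) : Submodule K (Fin n → K) :=
  Submodule.map (Matrix.mulVecLin g)
    { carrier := {y | ∀ l : Fin n, i ≤ (l : ℕ) → y l = 0}
      add_mem' := fun {x y} hx hy l hl => by rw [Pi.add_apply, hx l hl, hy l hl, add_zero]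
      zero_mem' := fun _ _ => rfl
      smul_mem' := fun c x hx l hl => by rw [Pi.smul_apply, hx l hl, smul_zero] }

/-- `b` is the last index of a nonzero coordinate of `x` -/
def Lead (x : Fin n → K) (b : Fin n) : Prop := x b ≠ 0 ∧ ∀ i, b < i → x i = 0

open Classical in
/-- the leading indices of the elements of `S` -/
noncomputable def lset (S : Submodule K (Fin n → K)) : Finset (Fin n) :=
  Finset.univ.filter fun b => ∃ x ∈ S, Lead x b

/-- the free indices (not of the form `e j`) among `v 0, …, v (i - 1)` -/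
def Fr (e : Fin m → Fin n) (v : Equiv.Perm (Fin n)) (i : ℕ) : Finset (Fin n) :=
  Finset.univ.filter fun x => ((v.symm x : Fin n) : ℕ) < i ∧ ∀ j, x ≠ e j

/-- the Plücker coordinate `v 0, …, v (i - 1)` of the span of the first `i` columns -/
def mn {R : Type} [CommRing R] (v : Equiv.Perm (Fin n)) (g : Matrix (Fin n) (Fin n) R) (i : ℕ) : R :=
  (Matrix.of fun a b : {k : Fin n // (k : ℕ) < i} => g (v a.1) b.1).det

/-- The flag of `g` is in the component with cuts `c`: for all `j ≤ m` the space `V_(c_j)` contains `e 0, …, e (j - 1)` and its elements have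
no coordinates `e j, …, e (m - 1)`. -/
def InZ (e : Fin m → Fin n) (c : ℕ → ℕ) (g : Matrix (Fin n) (Fin n) K) : Prop :=
  c 0 = 0 ∧ c m = n ∧
  ∀ (j : ℕ) (l : Fin m), j ≤ m → ((l : ℕ) < j → Pi.single (e l) 1 ∈ Fl g (c j)) ∧
    (j ≤ (l : ℕ) → ∀ x ∈ Fl g (c j), x (e l) = 0)

end

/-! ## The family -/

section

variable {R : Type} [CommRing R] {n m : ℕ}

/-- parameters: `x f' f`, `b p`, `d p p'` -/
abbrev Par (n : ℕ) : Type := (Fin n × Fin n) ⊕ Fin n ⊕ (Fin n × Fin n)

/-- the vector `h_f = e_f + ∑ x f' f e_{f'}` over the free `f' < f` -/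
def hv (e : Fin m → Fin n) (π : Par n → R) (f : Fin n) (r : Fin n) : R :=
  if r = f then 1 else if r < f ∧ ∀ j, r ≠ e j then π (.inl (r, f)) else 0

/-- The matrix of the family: the column `p` with `w p` free, `c_j ≤ p < c_(j+1)`, is `h_(w p) + b_p e_(e j)`, the second term only if
`e j < w p`; the column of position `p` with `w p = e j` is `e_(e j) + ∑ d p p' h_(w p')` over the `p'` with `p < p' < c_(j+1)`, `w p' < e j`. -/
def gm (e : Fin m → Fin n) (w : Equiv.Perm (Fin n)) (c : ℕ → ℕ) (π : Par n → R) :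
    Matrix (Fin n) (Fin n) R := Matrix.of fun r p =>
  if ∀ j, w p ≠ e j then
    hv e π (w p) r + ∑ j : Fin m, if c j ≤ p ∧ (p : ℕ) < c (j + 1) ∧ e j < w p ∧ r = e j then
      π (.inr (.inl p)) else 0
  else
    (if r = w p then 1 else 0) +
      ∑ p' : Fin n, if p < p' ∧ w p' < w p ∧ (∀ j : Fin m, w p = e j → (p' : ℕ) < c (j + 1)) then
        π (.inr (.inr (p, p'))) * hv e π (w p') r else 0

end

end Pool.Agent.SprH
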