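import Pool.Agent.SprH.St

/-!
# Torus-stable Springer fibres, module CON: contraction by a one-parameter group
-/

set_option autoImplicit false

open Matrix

namespace Pool.Agent.SprH

open Pool.Agent.SprJ

namespace CON

section

variable {K : Type} [Field K] {n : ℕ}

theorem ut_iff (M : Matrix (Fin n) (Fin n) K) : UT M ↔ Matrix.BlockTriangular M id :=
  ⟨fun h _ _ hij => h _ _ hij, fun h _ _ hij => h hij⟩

theorem ut_mul {M N : Matrix (Fin n) (Fin n) K} (hM : UT M) (hN : UT N) : UT (M * N) := by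
  rw [ut_iff] at hM hN ⊢
  exact hM.mul hN

theorem ut_inv {M : Matrix (Fin n) (Fin n) K} (hM : UT M) (hd : IsUnit M.det) : UT M⁻¹ := by
  rw [ut_iff] at hM ⊢
  have := Matrix.invertibleOfIsUnitDet M hd
  exact Matrix.blockTriangular_inv_of_blockTriangular hM

theorem borel_mul {M N : Matrix (Fin n) (Fin n) K} (hM : Borel M) (hN : Borel N) :
    Borel (M * N) := by
  refine ⟨ut_mul hM.1 hN.1, ?_⟩
  rw [Matrix.det_mul]
  exact hM.2.mul hN.2

theorem borel_diag (d : Fin n → K) (h : ∀ i, d i ≠ 0) : Borel (diagonal d) := by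
  refine ⟨fun i j hij => Matrix.diagonal_apply_ne _ (ne_of_gt hij), ?_⟩
  rw [Matrix.det_diagonal, isUnit_iff_ne_zero, Finset.prod_ne_zero_iff]
  exact fun i _ => h i

/-- the Springer fibre does not depend on the representative -/
theorem spr_mul {X g b : Matrix (Fin n) (Fin n) K} (hg : InSpringer X g) (hb : Borel b) :
    InSpringer X (g * b) := by
  unfold InSpringer at hg ⊢
  rw [Matrix.mul_inv_rev]
  have h : b⁻¹ * g⁻¹ * X * (g * b) = b⁻¹ * (g⁻¹ * X * g) * b := by
    simp only [Matrix.mul_assoc]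
  rw [h]
  exact ut_mul (ut_mul (ut_inv hb.1 hb.2) hg) hb.1

/-- permutation matrices are invertible -/
theorem det_perm (w : Equiv.Perm (Fin n)) : IsUnit (perm K w).det := by
  have h : perm K w = (w.symm.toPEquiv.toMatrix : Matrix (Fin n) (Fin n) K) := by
    ext i k
    simp only [perm, Matrix.of_apply, PEquiv.toMatrix_apply, Equiv.toPEquiv_apply,
      Option.mem_def, Option.some.injEq]
    congr 1
    rw [eq_iff_iff]
    constructor
    · rintro rfl; simp
    · rintro h; rw [← h]; simp
  rw [h, Matrix.det_permutation]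
  exact (Units.isUnit _).map (Int.castRingHom K)

/-- limits of polynomial curves -/
theorem curve [Infinite K] {X : Matrix (Fin n) (Fin n) K} {v w : Equiv.Perm (Fin n)}
    (GP : Matrix (Fin n) (Fin n) (Polynomial K)) (h0 : GP.map (Polynomial.eval 0) = perm K v)
    (h : ∀ s : K, s ≠ 0 → GP.map (Polynomial.eval s) ∈ Cell X w) : InClosure X v w := by
  intro P hP
  obtain ⟨R, hR⟩ : ∃ R : Polynomial K,
      R = MvPolynomial.aeval (fun p : Fin n × Fin n => GP p.1 p.2) P := ⟨_, rfl⟩
  have hev : ∀ s : K, Polynomial.eval s R =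
      MvPolynomial.eval (fun p => (GP.map (Polynomial.eval s)) p.1 p.2) P := by
    intro s
    have h1 := MvPolynomial.comp_aeval_apply (fun p : Fin n × Fin n => GP p.1 p.2)
      (Polynomial.aeval s : Polynomial K →ₐ[K] K) P
    rw [← hR, Polynomial.coe_aeval_eq_eval] at h1
    rw [h1, MvPolynomial.aeval_eq_eval]
    rfl
  have hR0 : R = 0 := by
    apply Polynomial.eq_zero_of_infinite_isRoot
    refine Set.Infinite.mono ?_ (Set.finite_singleton (0 : K)).infinite_compl
    intro s hs
    change Polynomial.eval s R = 0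
    rw [hev]
    exact hP _ (h s (by simpa using hs))
  rw [← h0, ← hev, hR0, Polynomial.eval_zero]

end

end CON

open CON in
theorem t_CON : M_CON := by
  intro hLUD K _ _ n X g v w hT hg hmn
  obtain ⟨⟨b, b', hb, hb', hgb⟩, hgs⟩ := hg
  obtain ⟨M, hM⟩ : ∃ M : Matrix (Fin n) (Fin n) K, M = Matrix.of fun x k => g (v x) k := ⟨_, rfl⟩
  obtain ⟨Y, hY, hN0, hN1⟩ := hLUD K n M fun i hi => by
    rw [hM]
    exact hmn i hi
  have hgdet : IsUnit g.det := by
    rw [hgb, Matrix.det_mul, Matrix.det_mul]
    exact (hb.2.mul (det_perm w)).mul hb'.2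
  have hdN : (M * Y).det = 1 := by
    rw [Matrix.det_of_isLowerTriangular (M * Y) (fun i j hij => hN0 i j hij)]
    exact Finset.prod_eq_one fun k _ => hN1 k
  have hYB : Borel Y := by
    refine ⟨hY, ?_⟩
    rw [Matrix.det_mul] at hdN
    exact IsUnit.of_mul_eq_one_right _ hdN
  have hgY : ∀ i k, (g * Y) i k = (M * Y) (v.symm i) k := by
    intro i k
    rw [Matrix.mul_apply, Matrix.mul_apply]
    refine Finset.sum_congr rfl fun l _ => ?_
    rw [hM, Matrix.of_apply, Equiv.apply_symm_apply]
  refine curve (Matrix.of fun i k => if k ≤ v.symm i then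
    Polynomial.C ((M * Y) (v.symm i) k) * Polynomial.X ^ (((v.symm i : Fin n) : ℕ) - (k : ℕ))
    else 0) ?_ ?_
  · ext i k
    rw [Matrix.map_apply, Matrix.of_apply]
    unfold perm
    rw [Matrix.of_apply]
    rcases lt_trichotomy k (v.symm i) with h | h | h
    · rw [if_pos h.le, Polynomial.eval_mul, Polynomial.eval_pow, Polynomial.eval_X,
        zero_pow (by have := Fin.lt_def.1 h; omega), mul_zero, if_neg]
      rintro rfl
      rw [Equiv.symm_apply_apply] at h
      exact lt_irrefl _ h
    · rw [if_pos h.le, ← h, Nat.sub_self, pow_zero, mul_one, Polynomial.eval_C, hN1, if_pos]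
      rw [h, Equiv.apply_symm_apply]
    · rw [if_neg (not_le.2 h), Polynomial.eval_zero, if_neg]
      rintro rfl
      rw [Equiv.symm_apply_apply] at h
      exact lt_irrefl _ h
  · intro s hs
    obtain ⟨d, hd⟩ : ∃ d : Fin n → K, d = fun i => s ^ ((v.symm i : Fin n) : ℕ) := ⟨_, rfl⟩
    obtain ⟨d', hd'⟩ : ∃ d' : Fin n → K, d' = fun k : Fin n => (s ^ (k : ℕ))⁻¹ := ⟨_, rfl⟩
    have hd0 : ∀ i, d i ≠ 0 := fun i => by
      rw [hd]
      exact pow_ne_zero _ hs
    have hd0' : ∀ i, d' i ≠ 0 := fun i => by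
      rw [hd']
      exact inv_ne_zero (pow_ne_zero _ hs)
    have hβ : Borel (Y * diagonal d') := borel_mul hYB (borel_diag d' hd0')
    have heq : (Matrix.of fun i k => if k ≤ v.symm i then
        Polynomial.C ((M * Y) (v.symm i) k) * Polynomial.X ^ (((v.symm i : Fin n) : ℕ) - (k : ℕ))
        else 0).map (Polynomial.eval s) = diagonal d * g * (Y * diagonal d') := by
      ext i k
      rw [Matrix.map_apply, Matrix.of_apply, ← Matrix.mul_assoc, Matrix.mul_diagonal,
        Matrix.mul_assoc (diagonal d), Matrix.diagonal_mul, hgY]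
      by_cases h : k ≤ v.symm i
      · rw [if_pos h, Polynomial.eval_mul, Polynomial.eval_C, Polynomial.eval_pow,
          Polynomial.eval_X, hd, hd']
        have h2 : s ^ ((v.symm i : Fin n) : ℕ) =
            s ^ (((v.symm i : Fin n) : ℕ) - (k : ℕ)) * s ^ (k : ℕ) := by
          rw [← pow_add]
          congr 1
          have := Fin.le_def.1 h
          omega
        have h3 : s ^ (k : ℕ) ≠ 0 := pow_ne_zero _ hs
        simp only []
        rw [h2]
        field_simp
      · rw [if_neg h, Polynomial.eval_zero, hN0 _ _ (not_le.1 h), mul_zero, zero_mul]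
    rw [heq]
    refine ⟨⟨diagonal d * b, b' * (Y * diagonal d'), borel_mul (borel_diag d hd0) hb,
      borel_mul hb' hβ, ?_⟩, spr_mul (hT d hd0 g hgdet hgs) hβ⟩
    rw [hgb]
    simp only [Matrix.mul_assoc]

end Pool.Agent.SprH
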