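import Pool.Agent.SprH.St

/-!
# Flags: the span of the first columns (MP_3a0658_ag, module FLD)
-/

set_option autoImplicit false

open Matrix

namespace Pool.Agent.SprH

open Pool.Agent.SprJ

namespace FLD_aux

variable {K : Type} [Field K] {n : ℕ}

/-- the vectors supported on the first `i` coordinates -/
def Y (K : Type) [Field K] (n i : ℕ) : Submodule K (Fin n → K) where
  carrier := {y | ∀ l : Fin n, i ≤ (l : ℕ) → y l = 0}
  add_mem' := fun {x y} hx hy l hl => by rw [Pi.add_apply, hx l hl, hy l hl, add_zero]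
  zero_mem' := fun _ _ => rfl
  smul_mem' := fun c x hx l hl => by rw [Pi.smul_apply, hx l hl, smul_zero]

theorem mem_Y {i : ℕ} {y : Fin n → K} : y ∈ Y K n i ↔ ∀ l : Fin n, i ≤ (l : ℕ) → y l = 0 :=
  Iff.rfl

theorem Fl_eq (g : Matrix (Fin n) (Fin n) K) (i : ℕ) :
    Fl g i = Submodule.map (Matrix.mulVecLin g) (Y K n i) := rfl

theorem mem_Fl {g : Matrix (Fin n) (Fin n) K} {i : ℕ} {x : Fin n → K} :
    x ∈ Fl g i ↔ ∃ y : Fin n → K, (∀ l : Fin n, i ≤ (l : ℕ) → y l = 0) ∧ g *ᵥ y = x :=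
  Iff.rfl

/-- coordinates on `Y` -/
def eqY {i : ℕ} (hi : i ≤ n) : Y K n i ≃ₗ[K] (Fin i → K) where
  toFun y := fun a => y.1 (Fin.castLE hi a)
  map_add' _ _ := rfl
  map_smul' _ _ := rfl
  invFun z := ⟨fun l => if h : (l : ℕ) < i then z ⟨l, h⟩ else 0, fun l hl =>
    dif_neg (not_lt.2 hl)⟩
  left_inv y := by
    ext l
    show (if h : (l : ℕ) < i then y.1 (Fin.castLE hi ⟨l, h⟩) else 0) = y.1 l
    by_cases h : (l : ℕ) < i
    · rw [dif_pos h]
      rfl
    · rw [dif_neg h, y.2 l (not_lt.1 h)]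
  right_inv z := by
    ext a
    show (if h : ((Fin.castLE hi a : Fin n) : ℕ) < i then z ⟨(Fin.castLE hi a : Fin n), h⟩ else 0)
      = z a
    exact dif_pos a.2

theorem inj {g : Matrix (Fin n) (Fin n) K} (hg : IsUnit g.det) :
    Function.Injective (Matrix.mulVecLin g) := by
  intro x y hxy
  have h1 : g⁻¹ *ᵥ (g *ᵥ x) = g⁻¹ *ᵥ (g *ᵥ y) := congrArg (fun z => g⁻¹ *ᵥ z) hxy
  rwa [Matrix.mulVec_mulVec, Matrix.mulVec_mulVec, Matrix.nonsing_inv_mul g hg,
    Matrix.one_mulVec, Matrix.one_mulVec] at h1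

theorem dim {g : Matrix (Fin n) (Fin n) K} (hg : IsUnit g.det) {i : ℕ} (hi : i ≤ n) :
    Module.finrank K (Fl g i) = i := by
  rw [Fl_eq, ← (Submodule.equivMapOfInjective _ (inj hg) (Y K n i)).finrank_eq,
    (eqY (K := K) hi).finrank_eq, Module.finrank_fin_fun]

theorem top {g : Matrix (Fin n) (Fin n) K} (hg : IsUnit g.det) {i : ℕ} (hi : n ≤ i) :
    Fl g i = ⊤ := by
  rw [eq_top_iff]
  intro x _
  refine mem_Fl.2 ⟨g⁻¹ *ᵥ x, fun l hl => absurd l.2 (by omega), ?_⟩
  rw [Matrix.mulVec_mulVec, Matrix.mul_nonsing_inv g hg, Matrix.one_mulVec]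

/-- sums over the first indices -/
theorem sumY {i : ℕ} (f : Fin n → K) (hf : ∀ l : Fin n, i ≤ (l : ℕ) → f l = 0) :
    ∑ l, f l = ∑ b : {k : Fin n // (k : ℕ) < i}, f b := by
  rw [← Finset.sum_subtype (Finset.univ.filter fun k : Fin n => (k : ℕ) < i) (fun x => by simp) f]
  refine (Finset.sum_filter_of_ne fun l _ hl => ?_).symm
  by_contra h
  exact hl (hf l (not_lt.1 h))

end FLD_aux

open FLD_aux in
theorem t_FLD : S_FLD := by
  intro K _ n g hg
  refine ⟨fun i hi => dim hg hi, ?_, ?_, fun i hi => top hg hi, ?_, ?_, ?_, ?_⟩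
  · intro i j hij x hx
    obtain ⟨y, hy, rfl⟩ := mem_Fl.1 hx
    exact mem_Fl.2 ⟨y, fun l hl => hy l (hij.trans hl), rfl⟩
  · intro i l hl
    refine mem_Fl.2 ⟨Pi.single l 1, fun k hk => ?_, ?_⟩
    · rw [Pi.single_eq_of_ne]
      rintro rfl
      omega
    · rw [Matrix.mulVec_single_one]
      rfl
  · rw [eq_bot_iff]
    intro x hx
    obtain ⟨y, hy, rfl⟩ := mem_Fl.1 hx
    have h1 : y = 0 := funext fun l => hy l (Nat.zero_le _)
    rw [h1, Matrix.mulVec_zero]
    exact Submodule.zero_mem _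
  · intro b hb i
    have hgb : IsUnit (g * b).det := by
      rw [Matrix.det_mul]
      exact hg.mul hb.2
    rcases le_total i n with hi | hi
    · refine Submodule.eq_of_le_of_finrank_eq ?_ ?_
      · intro x hx
        obtain ⟨y, hy, rfl⟩ := mem_Fl.1 hx
        refine mem_Fl.2 ⟨b *ᵥ y, fun l hl => ?_, Matrix.mulVec_mulVec _ _ _⟩
        rw [Matrix.mulVec, dotProduct]
        refine Finset.sum_eq_zero fun k _ => ?_
        rcases lt_or_ge k l with h1 | h1
        · rw [hb.1 l k h1, zero_mul]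
        · have h2 : (l : ℕ) ≤ (k : ℕ) := h1
          rw [hy k (hl.trans h2), mul_zero]
      · rw [dim hgb hi, dim hg hi]
    · rw [top hgb hi, top hg hi]
  · intro v i hmn x hx hx0
    obtain ⟨y, hy, rfl⟩ := mem_Fl.1 hx
    have h1 : (Matrix.of fun a b : {k : Fin n // (k : ℕ) < i} => g (v a.1) b.1) *ᵥ
        (fun b : {k : Fin n // (k : ℕ) < i} => y b) = 0 := by
      funext a
      have h2 := hx0 (v a.1) (by
        rw [vset, Finset.mem_filter, Equiv.symm_apply_apply]
        exact ⟨Finset.mem_univ _, a.2⟩)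
      rw [Matrix.mulVec, dotProduct, sumY (i := i) _ (fun l hl => by rw [hy l hl, mul_zero])] at h2
      exact h2
    have h3 := Matrix.eq_zero_of_mulVec_eq_zero hmn h1
    have h4 : y = 0 := by
      funext l
      by_cases h : (l : ℕ) < i
      · exact congrFun h3 ⟨l, h⟩
      · exact hy l (not_lt.1 h)
    rw [h4, Matrix.mulVec_zero]
  · intro v i hinj hmn
    obtain ⟨z, hz, hAz⟩ := (Matrix.exists_mulVec_eq_zero_iff (M := Matrix.of
      fun a b : {k : Fin n // (k : ℕ) < i} => g (v a.1) b.1)).2 hmn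
    apply hz
    set y : Fin n → K := fun l => if h : (l : ℕ) < i then z ⟨l, h⟩ else 0 with hy
    have hy0 : ∀ l : Fin n, i ≤ (l : ℕ) → y l = 0 := fun l hl => by
      rw [hy]
      exact dif_neg (not_lt.2 hl)
    have hy1 : ∀ b : {k : Fin n // (k : ℕ) < i}, y b = z b := fun b => by
      rw [hy]
      exact dif_pos b.2
    have h1 : y = 0 := by
      refine hinj y hy0 fun a ha => ?_
      rw [vset, Finset.mem_filter] at ha
      have h2 := congrFun hAz ⟨v.symm a, ha.2⟩
      rw [Matrix.mulVec, dotProduct] at h2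
      rw [Matrix.mulVec, dotProduct, sumY (i := i) _ (fun l hl => by rw [hy0 l hl, mul_zero])]
      refine Eq.trans (Finset.sum_congr rfl fun b _ => ?_) h2
      rw [hy1 b, Matrix.of_apply, Equiv.apply_symm_apply]
    funext b
    rw [← hy1 b, h1]
    rfl

end Pool.Agent.SprH
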